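import Pool.Agent.JGS.Q

/-!
# [JGS-Q2] from the Hecke L-function to the L-series of the curve
-/

set_option autoImplicit false

open NumberField IsDedekindDomain
open scoped Classical ComplexConjugate

namespace JGS

open CM27 NAB CF JZ JG
open JD (ED jK)

/-- the entire L-series and its value at `1`, for every nonzero sixth-power-free `D` -/
theorem exists_Lam {D p₂ pl : Eis} (hD : Fr6 D) (h2 : Val2 D p₂) (h3 : ValL D pl) (Φ : ℂ → ℂ) (hΦ : Differentiable ℂ Φ)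
    (hs : ∀ s : ℂ, 3 / 2 < s.re → Φ s = LSeries (fun n => IL KK (fun I => conj (emb (PsiG D p₂ pl I))) n) s) {q : ℚ}
    (hq : Φ 1 * conj (Φ 1) = (((q : ℝ) * kap D / ‖emb (4 * D)‖ ^ ((1 : ℝ) / 3) : ℝ) : ℂ) * (Om : ℂ) ^ 2) :
    ∃ Λ : ℂ → ℂ, SBSD2.IsEntireLSeries (ED (jK D)) Λ ∧
      Λ 1 * (√|(discr KK : ℝ)| : ℝ) = q * SBSD.period (ED (jK D)) := by
  refine ⟨_, entire_G hD h2 h3 Φ hΦ hs, ?_⟩
  have h1 : Φ 1 * conj (Φ (conj 1)) = (((q : ℝ) * kap D / ‖emb (4 * D)‖ ^ ((1 : ℝ) / 3) : ℝ) : ℂ) * (Om : ℂ) ^ 2 := by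
    rw [map_one]
    exact hq
  show Φ 1 * conj (Φ (conj 1)) * _ = _
  rw [h1, period_G hD hD.1, CU.abs_discr_KK]
  push_cast
  ring

end JGS
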