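import Pool.Agent.JGS.X
import Pool.Agent.JGS.Q2
import Pool.Agent.JG.HG

/-!
# [JGS] the central value of `y² = x³ + D` is divisible by `3` if `3` divides a Tamagawa number
-/

set_option autoImplicit false

open NumberField IsDedekindDomain
open scoped Classical ComplexConjugate

namespace JGS

open CM27 NAB CF JZ
open JD (ED jK)

/-- `D` nonzero, sixth-power-free, not a square (no point of order `3` over `K`), `3` divides a Tamagawa number: the value is divisible by `3`. -/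
theorem lvalT3 {D : Eis} (hD : Fr6 D) (hnsq : ¬ IsSquare D) (v : HeightOneSpectrum (𝓞 KK)) (hv : 3 ∣ SBSD.tam (ED (jK D)) v) :
    ∃ Λ : ℂ → ℂ, SBSD2.IsEntireLSeries (ED (jK D)) Λ ∧
      ∃ q : ℚ, Λ 1 * (√|(discr KK : ℝ)| : ℝ) = q * SBSD.period (ED (jK D)) ∧ (q = 0 ∨ 0 < padicValRat 3 q) := by
  have hn : ¬ JG.ClG D := fun h => ((JG.clG_iff D).1 h).2.2.2 v hv
  obtain ⟨p₂, pl, h2, h3, Φ, hΦ, hs, q, hq, h⟩ := lvalS hD.1 hD.2 hnsq hn
  obtain ⟨Λ, hΛ, h1⟩ := exists_Lam hD h2 h3 Φ hΦ hs hq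
  exact ⟨Λ, hΛ, q, h1, h⟩

end JGS
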