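import Pool.Agent.JGL.D0

/-!
# [JGS] `l = 3`: the central value when `3` divides a Tamagawa number: definitions

`JGL` treats the class `ClG`: all Tamagawa numbers prime to `3`. Here: the same data without the condition `q(p) = -1` (inert) for the primes `p ∈ T`.
-/

set_option autoImplicit false

open NumberField IsDedekindDomain Filter Topology
open scoped Classical ComplexConjugate

namespace JGS

open CM27 JZ JGL
open CU (la eE)
open CUL (Nl ez si ta DS Cont LV IsRep rp cr mn mo zw OT GalU W3 W9)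
open JL (N1 KD sD Psi6)

/-- `Over` without the condition `q(p) = -1` -/
structure OverW (Q : Lev) (T : Finset Eis) (L : Lev) : Prop where
  hT : ∀ p ∈ T, Prime p ∧ Primary p ∧ ¬ p ∣ Q.f
  hf : L.f = Q.f * ∏ p ∈ T, p
  hq : ∀ x, IsCoprime x L.f → L.q x = Q.q x
  hep : L.ep = Q.ep

/-- some prime `p ∈ T` splits -/
def Spl (Q : Lev) (T : Finset Eis) : Prop := ∃ p ∈ T, Q.q p = 1

/-- The data of the curve `y² = x³ + D` (`JGL.Dat` with `OverW` in place of `Over`). -/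
structure DatW (D : Eis) where
  D₁ : Eis
  m : Eis
  Q : QD D₁
  T : Finset Eis
  L : Lev
  v : ℕ
  η : Eis
  i : ℕ
  Ds : Eis
  hm : m ≠ 0
  hD : D = D₁ * m ^ 2
  ov : OverW Q.L T L
  hv : v < 6
  hη : η = 1 ∨ η = -1
  hi : i < 3
  hDs : Primary Ds
  hD' : D = η * CU.om ^ i * la ^ v * Ds
  hep : L.ep = v % 2
  q_la : (L.q la : Eis) = if L.ep = 0 then η else -η
  hk : L.k = 2 - mn Ds
  gal : ∀ t : ℂ, t ^ 3 = emb (4 * D) → GalT L (-(v : ZMod 3)) i t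
  p₂ : Eis
  val₂ : JG.Val2 D p₂
  pl : Eis
  vall : JG.ValL D pl
  pl_eq : JG.GoodL D → emb pl = L.chi la * emb la
  psi : ∀ b : Eis, Primary b →
    emb (JG.PsiG D p₂ pl (Ideal.span {eE b})) = L.chi b * conj (ka (-(v : ZMod 3)) i b) * emb b

/-- the conditions at `λ`, bad reduction (`JGL.ClL`) -/
def ClLW {D : Eis} (d : DatW D) : Prop :=
  (d.v = 0 → d.i = 0 → ¬ (d.η = -1 ∧ d.L.k = 1) ∧ ¬ (d.η = 1 ∧ d.L.k = 0)) ∧
  (d.v = 2 ∨ d.v = 4 → d.η = -1) ∧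
  (d.v = 3 → d.i = 0 → d.L.k ≠ 2) ∧
  (d.v = 3 → d.i ≠ 0 → (d.η = 1 → (d.i : ZMod 3) ≠ -1) ∧ (d.η = -1 → (d.i : ZMod 3) ≠ 1))

theorem OverW.over {Q L : Lev} {T : Finset Eis} (h : OverW Q T L) (hs : ¬ Spl Q T) : Over Q T L := by
  refine ⟨fun p hp => ?_, h.hf, h.hq, h.hep⟩
  obtain ⟨h1, h2, h3⟩ := h.hT p hp
  have hdom := eis_isDomain
  have hpid := eis_pid
  refine ⟨h1, h2, h3, (Q.q_pm p ((h1.irreducible.coprime_iff_not_dvd).2 h3)).resolve_left fun h4 => hs ⟨p, hp, h4⟩⟩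

/-- The statement on the central value: rational, and zero or divisible by `3`. -/
def LValS (D : Eis) : Prop :=
  ∃ p₂ pl : Eis, JG.Val2 D p₂ ∧ JG.ValL D pl ∧
  ∃ Φ : ℂ → ℂ, Differentiable ℂ Φ ∧
    (∀ s : ℂ, 3 / 2 < s.re → Φ s = LSeries (fun n => NAB.IL CF.KK (fun I => conj (emb (JG.PsiG D p₂ pl I))) n) s) ∧
    ∃ q : ℚ, Φ 1 * conj (Φ 1) = (((q : ℝ) * JG.kap D / ‖emb (4 * D)‖ ^ ((1 : ℝ) / 3) : ℝ) : ℂ) * (Om : ℂ) ^ 2 ∧
      (q = 0 ∨ 0 < padicValRat 3 q)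

end JGS
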