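import Pool.Agent.JGL.D
import Pool.Agent.JGS.Defs
import Pool.Agent.JGL.Z3

/-!
# [JGS-D] the converse: if no `p ∈ T` splits and the conditions at `λ` hold then `D` is in the class `ClG`

PROOF. `clA_of_q`: the converse of `hT_D` (JGL/D4.lean). Let `p` be a prime, `p ∤ 6`, `D = p² c` or `p⁴ c`, `p ∤ c`, `p ∣ y² - c`. Let `p'` be the primary associate of `p`: `p' ∈ F.S`, `F.E p' = 2` or `4` (`fac_pow`, `F.hE`, `F.hS`), not divisible by `3`, `parity`: `p' ∤ D₁`, so `¬ p' ∣ Q.L.f` (`dvd_f_iff`, `dvd_disc_iff`), so `p' ∈ TT F Q`, and `q_prime`: `c = D₁ m'²` up to a square factor prime to `p`, so `D₁` is a square modulo `p'` and `Q.L.q p' = 1`, contradiction. At `2`: `D = c` or `4 c`, `2 ∤ c`, `8 ∣ y² - c`: `F.E (-2) = 2` or `4`, `-2 ∈ TT F Q`, `parity`, `q_two`: `D₁` is odd and a square modulo `8`, so `q(-2) = 1` (`D₁ = t² - 4 n`, `t` odd; `8 ∣ z² - D₁` gives `y = (z + t) / 2` with `2 ∣ y² - t y + n`).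
`clG_of`: `h.1 .. ` from `ClA`; the conditions `la0`, `la24`, `la3` of `JG.ClG`: the converse of `z3_clL` (JGL/Z3.lean): `D = λ^v η ω^i Ds`, `Ds = 1 + 3 k`, `mn Ds = k.re + k.im` (`z3_mn`), `L.k = 2 - mn Ds`. If `GoodL D` then `v = 3`, `D = λ³ (η' + λ³ c')`, `la0`, `la24` are void and `la3` holds: `c = η' + λ³ c'`, `λ² ∤ c - (η + λ)`.
-/

set_option autoImplicit false

open NumberField IsDedekindDomain Filter Topology
open scoped Classical ComplexConjugate

namespace JGS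

open CM27 JZ JGL
open CU (la eE)
open CUL (Nl ez si ta DS Cont LV IsRep rp cr mn mo zw OT GalU W3 W9)
open JL (N1 KD sD Psi6)

variable {D D₁ : Eis}

/-- a square modulo `N` after dividing by a square prime to `N` -/
theorem d_div {N D₁ m' y : Eis} (hc : IsCoprime m' N) (h : N ∣ y ^ 2 - D₁ * m' ^ 2) : ∃ z : Eis, N ∣ z ^ 2 - D₁ := by
  obtain ⟨a, b, hab⟩ := hc
  refine ⟨a * y, ?_⟩
  have e : (a * y) ^ 2 - D₁ = a ^ 2 * (y ^ 2 - D₁ * m' ^ 2) + N * (-(D₁ * b * (a * m' + 1))) := by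
    linear_combination D₁ * (a * m' + 1) * hab
  rw [e]
  exact dvd_add (h.mul_left _) (dvd_mul_right _ _)

/-- part 4 for primary primes -/
theorem d_odd (h0 : D ≠ 0) (F : Fac D) (Q : QD D₁) {m : Eis} (hD : D = D₁ * m ^ 2) (h : ∀ p ∈ TT F Q, Q.L.q p ≠ 1)
    {p c y : Eis} (hp : Prime p) (hP : Primary p) (h6 : ¬ p ∣ 6) (hc : D = p ^ 2 * c ∨ D = p ^ 4 * c) (hpc : ¬ p ∣ c)
    (hy : p ∣ y ^ 2 - c) : False := by
  have hdom := eis_isDomain
  have h2 : p ≠ -2 := by
    rintro rfl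
    exact h6 ⟨-3, by norm_num⟩
  have hp2 : ¬ p ∣ 2 := fun h3 => h6 (h3.trans ⟨3, by norm_num⟩)
  have hpS : p ∈ F.S := by
    by_contra hn
    refine fac_not F hp hP hn ?_
    rcases hc with hc | hc
    · rw [hc]
      exact (dvd_pow_self p (by norm_num)).mul_right _
    · rw [hc]
      exact (dvd_pow_self p (by norm_num)).mul_right _
  obtain ⟨c', hc', hpc'⟩ := fac_pow F hpS h2
  have hE : (F.E p = 2 ∨ F.E p = 4) ∧ c' = c := by
    rcases hc with hc | hc
    · obtain ⟨h3, h4⟩ := D1b2_pow hp hpc' hpc (hc'.symm.trans hc)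
      exact ⟨Or.inl h3, h4⟩
    · obtain ⟨h3, h4⟩ := D1b2_pow hp hpc' hpc (hc'.symm.trans hc)
      exact ⟨Or.inr h3, h4⟩
  obtain ⟨hE, rfl⟩ := hE
  have h3 : ¬ 3 ∣ F.E p := by omega
  rcases parity hD h0 Q.sqf hp hc' hpc with ⟨hpD, k, m', hk, hm, hcm⟩ | ⟨k, m', d, -, hk, -⟩
  · have hnf : ¬ p ∣ Q.L.f := fun h4 => hpD ((dvd_disc_iff Q hp hp2).1 ((dvd_f_iff Q hp hP).1 h4))
    have hmem : p ∈ TT F Q := by
      rw [JGL.TT, Finset.mem_filter, Sc, Finset.mem_filter]
      exact ⟨⟨hpS, h3⟩, hnf⟩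
    refine h p hmem ((q_prime Q hp hP h2 hpD).2 ?_)
    have hcop : IsCoprime m' p := by
      refine (D4a_cop hp fun h4 => hpc ?_).symm
      rw [hcm]
      exact (dvd_pow h4 (by norm_num)).mul_left _
    rw [hcm] at hy
    exact d_div hcop hy
  · omega

theorem d_unit2 {u : Eis} (hu : IsUnit u) : ∃ v : Eis, u * v = 1 := by
  obtain ⟨u, rfl⟩ := hu
  exact ⟨_, u.mul_inv⟩

theorem d_two (h0 : D ≠ 0) (F : Fac D) (Q : QD D₁) {m : Eis} (hD : D = D₁ * m ^ 2) (h : ∀ p ∈ TT F Q, Q.L.q p ≠ 1)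
    {c y : Eis} (h2c : ¬ (2 : Eis) ∣ c) (hc : D = c ∨ D = 4 * c) (hy : (8 : Eis) ∣ y ^ 2 - c) : False := by
  have hdom := eis_isDomain
  have hpid := eis_pid
  have hpc : ¬ (-2 : Eis) ∣ c := fun h3 => h2c (neg_dvd.1 h3)
  obtain ⟨c', hc', hpc'⟩ := fac_two F
  have hE2 := F.hE2
  have hE : (F.E (-2) = 2 ∨ F.E (-2) = 4) ∧ c' = c := by
    rcases hc with hc | hc
    · have hc1 : D = (-2) ^ 0 * c := by rw [pow_zero, one_mul]; exact hc
      obtain ⟨h3, h4⟩ := D1b2_pow JL.b3_two hpc' hpc (hc'.symm.trans hc1)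
      exact ⟨Or.inl (by omega), h4⟩
    · have hc1 : D = (-2) ^ 2 * c := by
        rw [hc]
        norm_num
      obtain ⟨h3, h4⟩ := D1b2_pow JL.b3_two hpc' hpc (hc'.symm.trans hc1)
      exact ⟨Or.inr (by omega), h4⟩
  obtain ⟨hE, rfl⟩ := hE
  have h3 : ¬ 3 ∣ F.E (-2) := by omega
  rcases parity hD h0 Q.sqf JL.b3_two hc' hpc with ⟨hpD, k, m', hk, hm, hcm⟩ | ⟨k, m', d, -, hk, -⟩
  · have hm2 : ¬ (-2 : Eis) ∣ m' := by
      intro h4
      apply hpc
      rw [hcm]
      exact (dvd_pow h4 (by norm_num)).mul_left _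
    have hcop : IsCoprime m' (8 : Eis) := by
      have h4 : IsCoprime (-2 : Eis) m' := D4a_cop JL.b3_two hm2
      have h5 : IsCoprime ((-2 : Eis) ^ 3) m' := h4.pow_left
      have h6 : (8 : Eis) = -((-2 : Eis) ^ 3) := by norm_num
      rw [h6]
      exact (h5.neg_left).symm
    rw [hcm] at hy
    obtain ⟨z, hz⟩ := d_div hcop hy
    have hdisc : Q.t ^ 2 - 4 * Q.n = D₁ := by
      rcases Q.ring with h4 | ⟨-, -, h4⟩
      · exact h4
      · refine absurd ?_ (h4 z)
        have h5 : (4 : Eis) ∣ z ^ 2 - D₁ := Dvd.dvd.trans ⟨2, by norm_num⟩ hz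
        have h6 : D₁ - z ^ 2 = -(z ^ 2 - D₁) := by ring
        rw [h6]
        exact h5.neg_right
    have hnf : ¬ (-2 : Eis) ∣ Q.L.f := by
      intro h4
      have h5 := (dvd_f_iff Q JL.b3_two JL.b3_twoP).1 h4
      rw [hdisc] at h5
      exact hpD h5
    have hmem : (-2 : Eis) ∈ TT F Q := by
      rw [JGL.TT, Finset.mem_filter, Sc, Finset.mem_filter]
      exact ⟨⟨F.h2, h3⟩, hnf⟩
    obtain ⟨ht, hD1, hiff⟩ := q_two Q hnf
    refine h (-2) hmem (hiff.2 ?_)
    obtain ⟨k, hk⟩ := hz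
    have h5 : (2 : Eis) ∣ (z + Q.t) * (z - Q.t) := by
      refine ⟨4 * k - 2 * Q.n, ?_⟩
      linear_combination hk + hD1
    have h6 : (2 : Eis) ∣ z + Q.t := by
      rcases Q3.prime_two.dvd_or_dvd h5 with h6 | h6
      · exact h6
      · have h7 : z + Q.t = (z - Q.t) + 2 * Q.t := by ring
        rw [h7]
        exact dvd_add h6 (dvd_mul_right _ _)
    obtain ⟨x, hx⟩ := h6
    refine ⟨x, k, ?_⟩
    have h4 : (4 : Eis) ≠ 0 := by decide
    apply mul_left_cancel₀ h4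
    have hz' : z = 2 * x - Q.t := by linear_combination hx
    rw [hz'] at hk
    linear_combination hk + hD1
  · omega

theorem clA_of_q (h0 : D ≠ 0) (hfree : ∀ p : Eis, Prime p → ¬ p ^ 6 ∣ D) (hnsq : ¬ IsSquare D) (F : Fac D) (Q : QD D₁) {m : Eis}
    (hD : D = D₁ * m ^ 2) (h : ∀ p ∈ TT F Q, Q.L.q p ≠ 1) : ClA D := by
  have hdom := eis_isDomain
  refine ⟨h0, hfree, hnsq, ?_, ?_⟩
  · rintro p c hp h6 hc hpc ⟨y, hy⟩
    have hla : ¬ la ∣ p := by
      intro h1
      have h2 : Associated la p := (CU.la_prime.dvd_prime_iff_associated hp).1 h1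
      exact h6 (h2.symm.dvd.trans (JGL.D4a_la_three.trans ⟨2, by norm_num⟩))
    obtain ⟨u, hu, hP⟩ := CU.exists_primary hla
    obtain ⟨v, hv⟩ := d_unit2 hu
    have hassoc : Associated (u * p) p := by
      refine associated_unit_mul_left p u hu
    have hp' : Prime (u * p) := hassoc.symm.prime hp
    have hvu : IsUnit v := IsUnit.of_mul_eq_one u (by rw [mul_comm]; exact hv)
    have hdvd : ∀ x, u * p ∣ x ↔ p ∣ x := fun x => hassoc.dvd_iff_dvd_left
    rcases hc with hc | hc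
    · refine d_odd h0 F Q hD h (c := v ^ 2 * c) (y := v * y) hp' hP (fun h1 => h6 ((hdvd _).1 h1)) (Or.inl ?_)
        (fun h1 => hpc ?_) ?_
      · rw [hc]
        linear_combination (-(p ^ 2 * c) * (u * v + 1)) * hv
      · exact (hvu.pow 2).dvd_mul_left.1 ((hdvd _).1 h1)
      · rw [hdvd]
        have e : (v * y) ^ 2 - v ^ 2 * c = v ^ 2 * (y ^ 2 - c) := by ring
        rw [e]
        exact hy.mul_left _
    · refine d_odd h0 F Q hD h (c := v ^ 4 * c) (y := v ^ 2 * y) hp' hP (fun h1 => h6 ((hdvd _).1 h1)) (Or.inr ?_)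
        (fun h1 => hpc ?_) ?_
      · rw [hc]
        linear_combination (-(p ^ 4 * c) * ((u * v) ^ 3 + (u * v) ^ 2 + u * v + 1)) * hv
      · exact (hvu.pow 4).dvd_mul_left.1 ((hdvd _).1 h1)
      · rw [hdvd]
        have e : (v ^ 2 * y) ^ 2 - v ^ 4 * c = v ^ 4 * (y ^ 2 - c) := by ring
        rw [e]
        exact hy.mul_left _
  · rintro c h2c hc ⟨y, hy⟩
    exact d_two h0 F Q hD h h2c hc hy

theorem d_three {x : Eis} (h : (3 : Eis) ∣ x) : (3 : ℤ) ∣ x.re ∧ (3 : ℤ) ∣ x.im := by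
  obtain ⟨y, rfl⟩ := h
  have r3 : (3 : Eis).re = 3 := rfl
  have i3 : (3 : Eis).im = 0 := rfl
  constructor
  · refine ⟨y.re, ?_⟩
    rw [QuadraticAlgebra.re_mul, r3, i3]
    ring
  · refine ⟨y.im, ?_⟩
    rw [QuadraticAlgebra.im_mul, r3, i3]
    ring

theorem d_la2 {x : Eis} (h : la ^ 2 ∣ x) : (3 : Eis) ∣ x := by
  refine Dvd.dvd.trans ⟨-CU.om, ?_⟩ h
  decide

theorem d_la3 {x : Eis} (h : la ^ 3 ∣ 3 * x) : ((x.re + x.im : ℤ) : ZMod 3) = 0 := by
  have hdom := eis_isDomain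
  have h1 : la ∣ x := by
    have h2 : la ^ 2 * la ∣ la ^ 2 * ((-CU.om ^ 2) * x) := by
      rw [← mul_assoc, ← z3_three]
      have h3 : la ^ 2 * la = la ^ 3 := by ring
      rw [h3]
      exact h
    have h3 := (mul_dvd_mul_iff_left (pow_ne_zero 2 CU.la_prime.ne_zero)).1 h2
    have h4 : IsUnit (-CU.om ^ 2) := (CU.om_unit.pow 2).neg
    exact h4.dvd_mul_left.1 h3
  rw [CUL.la_dvd_iff] at h1
  rw [ZMod.intCast_zmod_eq_zero_iff_dvd]
  exact_mod_cast h1

theorem d_cop (d : DatW D) : ¬ la ∣ d.η * CU.om ^ d.i * d.Ds := by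
  intro h
  have hdvd := CUL.la_prime.dvd_or_dvd h
  rcases hdvd with h | h
  · refine CUL.la_prime.not_isUnit (isUnit_of_dvd_unit h ?_)
    refine IsUnit.mul ?_ (CU.om_unit.pow _)
    rcases d.hη with h | h
    · rw [h]; exact isUnit_one
    · rw [h]; exact isUnit_one.neg
  · exact CUL.primary_not_la d.hDs h

theorem d_D (d : DatW D) : D = la ^ d.v * (d.η * CU.om ^ d.i * d.Ds) := by
  have h1 : D = d.η * CU.om ^ d.i * la ^ d.v * d.Ds := d.hD'
  refine h1.trans ?_
  ring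

theorem d_exact (d : DatW D) {c : Eis} {n : ℕ} (hc : ¬ la ∣ c) (hD : D = la ^ n * c) : d.v = n ∧ c = d.η * CU.om ^ d.i * d.Ds := by
  obtain ⟨h1, h2⟩ := D1b2_pow CU.la_prime (d_cop d) hc ((d_D d).symm.trans hD)
  exact ⟨h1, h2.symm⟩

theorem d_om (i : ℕ) : la ∣ CU.om ^ i - 1 := by
  have h2 : CU.om - 1 ∣ CU.om ^ i - 1 := by
    simpa using sub_dvd_pow_sub_pow CU.om 1 i
  have h3 : la ∣ CU.om - 1 := ⟨-1, by decide⟩
  exact h3.trans h2

theorem d_good (d : DatW D) (h : JG.GoodL D) : d.v = 3 ∧ ∃ η c : Eis, (η = 1 ∨ η = -1) ∧ d.η * CU.om ^ d.i * d.Ds = η + la ^ 3 * c := by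
  obtain ⟨η, c, hη, hD⟩ := h
  have h1 : ¬ la ∣ η + la ^ 3 * c := by
    intro h1
    have h2 : la ∣ η := by
      have h3 : η = (η + la ^ 3 * c) - la * (la ^ 2 * c) := by ring
      rw [h3]
      exact dvd_sub h1 (dvd_mul_right _ _)
    rcases hη with h | h
    · rw [h] at h2
      exact CU.la_prime.not_isUnit (isUnit_of_dvd_one h2)
    · rw [h] at h2
      exact CU.la_prime.not_isUnit (isUnit_of_dvd_one (by rw [← neg_neg (1 : Eis)]; exact h2.neg_right))
  obtain ⟨h2, h3⟩ := d_exact d h1 hD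
  exact ⟨h2, η, c, hη, h3.symm⟩

theorem clG_of (hA : ClA D) (d : DatW D) (h : ¬ JG.GoodL D → ClLW d) : JG.ClG D := by
  have hdom := eis_isDomain
  have hDs0 : (3 : Eis) ∣ d.Ds - 1 := d.hDs
  obtain ⟨k, hk0⟩ := hDs0
  have hk : d.Ds = 1 + 3 * k := by rw [← hk0]; ring
  have hmn := z3_mn hk
  have hLk := d.hk
  have hla3 : la ∣ (3 : Eis) := D4a_la_three
  have hi3 := d.hi
  refine ⟨hA.2.1, ?_, ?_, ?_, ?_, ?_, ?_⟩
  · rintro ⟨x, hx⟩
    exact hA.2.2.1 ⟨x, by rw [← hx]; ring⟩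
  · intro p c hp h6 hpc hD x hx
    refine hA.2.2.2.1 p c hp h6 hD hpc ⟨x, ?_⟩
    have e : x ^ 2 - c = -(c - x ^ 2) := by ring
    rw [e]
    exact hx.neg_right
  · intro c h2 hD x hx
    refine hA.2.2.2.2 c h2 ?_ ⟨x, ?_⟩
    · rcases hD with hD | hD
      · exact Or.inl hD
      · exact Or.inr (by rw [hD]; norm_num)
    · have e : x ^ 2 - c = -(c - x ^ 2) := by ring
      rw [e]
      exact hx.neg_right
  · intro hla η₀ hη₀ hdvd
    have hD1 : D = la ^ 0 * D := by rw [pow_zero, one_mul]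
    obtain ⟨hv, hD⟩ := d_exact d hla hD1
    have hG : ¬ JG.GoodL D := by
      intro hG
      have := (d_good d hG).1
      omega
    obtain ⟨hc1, -, -, -⟩ := h hG
    have h3 : (3 : Eis) ∣ d.η * CU.om ^ d.i - η₀ := by
      have h4 : (3 : Eis) ∣ D - η₀ - la ^ 2 := d_la2 ((pow_dvd_pow la (by norm_num)).trans hdvd)
      have h5 : d.η * CU.om ^ d.i - η₀ = (D - η₀ - la ^ 2) + 3 * (-CU.om - d.η * CU.om ^ d.i * k) := by
        have e1 : la ^ 2 = -3 * CU.om := by decide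
        linear_combination (-1 : Eis) * hD - d.η * CU.om ^ d.i * hk + e1
      rw [h5]
      exact dvd_add h4 (dvd_mul_right _ _)
    have hi : d.i = 0 ∧ η₀ = d.η := by
      have h6 := d_three h3
      have hii : d.i = 0 ∨ d.i = 1 ∨ d.i = 2 := by omega
      rcases hii with hi | hi | hi
      · refine ⟨hi, ?_⟩
        rw [hi] at h6
        rcases d.hη with h7 | h7 <;> rcases hη₀ with h8 | h8
        · rw [h7, h8]
        · exfalso
          rw [h7, h8] at h6
          revert h6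
          decide
        · exfalso
          rw [h7, h8] at h6
          revert h6
          decide
        · rw [h7, h8]
      · exfalso
        rw [hi] at h6
        rcases d.hη with h7 | h7 <;> rcases hη₀ with h8 | h8 <;> rw [h7, h8] at h6 <;> revert h6 <;> decide
      · exfalso
        rw [hi] at h6
        rcases d.hη with h7 | h7 <;> rcases hη₀ with h8 | h8 <;> rw [h7, h8] at h6 <;> revert h6 <;> decide
    obtain ⟨hi, rfl⟩ := hi
    have hc2 := hc1 hv hi
    rw [hi, pow_zero, mul_one, hk] at hD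
    have e1 : la ^ 2 = -3 * CU.om := by decide
    have e2 : ∀ x y : Eis, (x + y).re + (x + y).im = (x.re + x.im) + (y.re + y.im) := by
      intro x y
      rw [QuadraticAlgebra.re_add, QuadraticAlgebra.im_add]
      ring
    rcases d.hη with h7 | h7
    · apply hc2.2
      refine ⟨h7, ?_⟩
      rw [h7] at hD hdvd
      have h8 : D - 1 - la ^ 2 = 3 * (k + CU.om) := by
        rw [hD, e1]
        ring
      rw [h8] at hdvd
      have h9 := d_la3 hdvd
      rw [e2] at h9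
      have h10 : CU.om.re + CU.om.im = 1 := rfl
      rw [h10] at h9
      push_cast at h9 hmn
      rw [hLk, hmn]
      have h11 : ((k.re : ZMod 3) + k.im) = -1 := by linear_combination h9
      rw [h11]
      decide
    · apply hc2.1
      refine ⟨h7, ?_⟩
      rw [h7] at hD hdvd
      have h8 : D - -1 - la ^ 2 = 3 * (-k + CU.om) := by
        rw [hD, e1]
        ring
      rw [h8] at hdvd
      have h9 := d_la3 hdvd
      rw [e2] at h9
      have h10 : CU.om.re + CU.om.im = 1 := rfl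
      rw [h10, QuadraticAlgebra.re_neg, QuadraticAlgebra.im_neg] at h9
      push_cast at h9 hmn
      rw [hLk, hmn]
      have h11 : ((k.re : ZMod 3) + k.im) = 1 := by linear_combination (-1 : ZMod 3) * h9
      rw [h11]
      decide
  · intro c hc hD
    have hv : (d.v = 2 ∨ d.v = 4) ∧ c = d.η * CU.om ^ d.i * d.Ds := by
      rcases hD with hD | hD
      · obtain ⟨h1, h2⟩ := d_exact d hc hD
        exact ⟨Or.inl h1, h2⟩
      · obtain ⟨h1, h2⟩ := d_exact d hc hD
        exact ⟨Or.inr h1, h2⟩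
    obtain ⟨hv, hc'⟩ := hv
    have hG : ¬ JG.GoodL D := by
      intro hG
      have := (d_good d hG).1
      omega
    have hη := (h hG).2.1 hv
    rw [hc', hη, hk]
    have e : -1 * CU.om ^ d.i * (1 + 3 * k) + 1 = -(CU.om ^ d.i - 1) - 3 * (CU.om ^ d.i * k) := by ring
    rw [e]
    exact dvd_sub (d_om _).neg_right (hla3.mul_right _)
  · intro c hc hD η₀ hη₀ hdvd
    obtain ⟨hv, hc'⟩ := d_exact d hc hD
    have h3 : (3 : Eis) ∣ c - (η₀ + la) := d_la2 hdvd
    by_cases hG : JG.GoodL D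
    · obtain ⟨-, η', c', hη', hc2⟩ := d_good d hG
      have h4 : (3 : Eis) ∣ η' - (η₀ + la) := by
        have h5 : (3 : Eis) ∣ la ^ 3 * c' := by
          refine Dvd.dvd.mul_right ⟨-CU.om * la, ?_⟩ _
          decide
        have h6 : η' - (η₀ + la) = (c - (η₀ + la)) - la ^ 3 * c' := by
          rw [hc', hc2]
          ring
        rw [h6]
        exact dvd_sub h3 h5
      have h6 := d_three h4
      rcases hη' with h7 | h7 <;> rcases hη₀ with h8 | h8 <;> rw [h7, h8] at h6 <;> revert h6 <;> decide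
    · obtain ⟨-, -, -, hc1⟩ := h hG
      have h4 : (3 : Eis) ∣ d.η * CU.om ^ d.i - (η₀ + la) := by
        have h6 : d.η * CU.om ^ d.i - (η₀ + la) = (c - (η₀ + la)) - 3 * (d.η * CU.om ^ d.i * k) := by
          rw [hc', hk]
          ring
        rw [h6]
        exact dvd_sub h3 (dvd_mul_right _ _)
      have h6 := d_three h4
      have hii : d.i = 0 ∨ d.i = 1 ∨ d.i = 2 := by omega
      rcases hii with hi | hi | hi
      · rw [hi] at h6
        rcases d.hη with h7 | h7 <;> rcases hη₀ with h8 | h8 <;> rw [h7, h8] at h6 <;> revert h6 <;> decide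
      · have hc2 := hc1 hv (by omega)
        rcases d.hη with h7 | h7
        · rw [hi] at h6
          rcases hη₀ with h8 | h8 <;> rw [h7, h8] at h6 <;> revert h6 <;> decide
        · refine hc2.2 h7 ?_
          rw [hi]
          decide
      · have hc2 := hc1 hv (by omega)
        rcases d.hη with h7 | h7
        · refine hc2.1 h7 ?_
          rw [hi]
          decide
        · rw [hi] at h6
          rcases hη₀ with h8 | h8 <;> rw [h7, h8] at h6 <;> revert h6 <;> decide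

end JGS
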