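import Pool.Agent.JGL.V2e

/-!
# [JGS-E] `ep = 0`, `n = 2`, the excluded classes: strict inequality

PROOF. As `V_2e` (JGL/V2e.lean) with `JZ.A_main` (JZ/LA4.lean) replaced by: in the cases `(η = -1, k = 1, j = 0)` and `(η = 1, k = 0)`, `A.valuation (emb la * ∑ ψ(c) x(c)^k / (1 + x(c)³)) < 1`.
Proof of this: as `JZ.A_main`: `t = λ ∑ ..`, `rsd t = a2_p (rsd B0) k`, `rsd B = j + rsd B0`, `rsd B ^ 3 = η rsd B` (`a4_B`), `j³ = j`. For `k = 1`, `j = 0`, `η = -1`: `a2_p B 1 = B + B³ = 0`. For `k = 0`, `η = 1`: `a2_p B0 0 = B0 - B0³ = (B - j) - (B - j)³ = 0` in characteristic `3`. So `rsd t = 0`, and `a4_unit_iff` (the valuation is `≤ 1` and not `1`).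
-/

set_option autoImplicit false

open NumberField IsDedekindDomain Filter Topology
open scoped Classical ComplexConjugate

namespace JGS

open CM27 JZ JGL
open CU (la eE)
open CUL (Nl ez si ta DS Cont LV IsRep rp cr mn mo zw OT GalU W3 W9)
open JL (N1 KD sD Psi6)

/-- [JGS-E] the excluded classes: `A_main` with strict inequality -/
theorem e_A_main (A : ValuationSubring ℂ) (hA : A.valuation 3 < 1) {r : A} (hr : 4 * r ^ 3 = -1)
    {ι : Type*} (s : Finset ι) (X ψ : ι → A) (n : ι → ℤ)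
    (x : ι → ℂ) (hx : ∀ c ∈ s, x c = (r : ℂ) + emb la * (X c : ℂ)) (hn : ∀ c ∈ s, n c = 1 ∨ n c = -1)
    (hn0 : ∑ c ∈ s, n c = 0) (hψ : ∑ c ∈ s, ψ c = 0)
    (hψn : ∀ c ∈ s, rsd A (ψ c) = (n c : IsLocalRing.ResidueField A)) {k j : ℕ} {η : ℤ}
    (hcase : (η = -1 ∧ k = 1 ∧ j = 0) ∨ (η = 1 ∧ k = 0))
    {D : Eis} (hD : (3 : Eis) ∣ D - (η : Eis)) {sD u₁ u₂ : ℂ} (hs : sD ^ 2 = emb D)
    (h1 : u₁ ∈ CF.KK) (h2 : u₂ ∈ CF.KK) (hnorm : u₁ ^ 2 - u₂ ^ 2 * emb D = 1)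
    (he : w ^ j * ∏ c ∈ s, x c ^ n c = u₁ + u₂ * sD) :
    A.valuation (emb la * ∑ c ∈ s, (ψ c : ℂ) * (x c ^ k / (1 + x c ^ 3))) < 1 := by
  have h3 := rsd_three A hA
  have hrC : 4 * (r : ℂ) ^ 3 = -1 := by
    have := congrArg (fun y : A => (y : ℂ)) hr
    push_cast at this
    exact this
  have hr1 : rsd A r = -1 := by
    rw [← map_one (rsd A), ← map_neg, rsd_eq]
    push_cast
    rw [sub_neg_eq_add]
    exact a1_r_one A hA hrC
  have hk : k < 3 := by omega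
  have hη : η = 1 ∨ η = -1 := by omega
  obtain ⟨t, ht, htr⟩ := a2_T A hA hr hr1 s X ψ (fun c => (n c : A)) x hx hk hψ
    (fun c hc => by rw [hψn c hc, map_intCast]) (fun c hc => by
      rcases hn c hc with h | h
      · left; rw [h]; push_cast; rfl
      · right; rw [h]; push_cast; rfl)
  obtain ⟨B0, hB0, hB0r⟩ := a3_e A hA hr s X n x hx hn hn0
  -- `B' = (1 - w^j e)/λ`
  obtain ⟨B, hB⟩ : ∃ B : A, B = ∑ i ∈ Finset.range j, wA A ^ i + wA A ^ j * B0 := ⟨_, rfl⟩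
  have hBe : emb la * (B : ℂ) = 1 - (u₁ + u₂ * sD) := by
    rw [← he, hB]
    have e1 : (wA A : ℂ) = w := rfl
    push_cast
    rw [e1]
    have e2 : emb la * ∑ i ∈ Finset.range j, w ^ i = 1 - w ^ j := by
      have := mul_neg_geom_sum w j
      rw [CUL.emb_la]
      exact this
    rw [mul_add, e2]
    linear_combination w ^ j * hB0
  have hBr : rsd A B = (j : IsLocalRing.ResidueField A) + rsd A B0 := by
    rw [hB, map_add, map_mul, map_pow, map_sum]
    simp only [map_pow, rsd_w A hA, one_pow, one_mul, Finset.sum_const, Finset.card_range, nsmul_eq_mul,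
      mul_one]
  have hB3 := a4_B A hA hη hD hs h1 h2 hnorm hBe
  have hj3 : (j : IsLocalRing.ResidueField A) ^ 3 = j := by
    have := a4_int A hA (j : ℤ)
    simpa using this
  rw [← ht, ← rsd_eq_zero, htr, ← hB0r]
  have hB0' : rsd A B0 = rsd A B - j := by rw [hBr]; ring
  have cube : (rsd A B - (j : IsLocalRing.ResidueField A)) ^ 3 = rsd A B ^ 3 - (j : IsLocalRing.ResidueField A) ^ 3 := by
    linear_combination (-(rsd A B) ^ 2 * j + rsd A B * (j : IsLocalRing.ResidueField A) ^ 2) * h3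
  rcases hcase with ⟨rfl, rfl, rfl⟩ | ⟨rfl, rfl⟩
  · simp only [a2_p]
    rw [hB0', Nat.cast_zero, sub_zero, hB3]
    push_cast
    ring
  · simp only [a2_p]
    rw [hB0', cube, hj3, hB3]
    push_cast
    ring

theorem VS_2e (L : Lev) (hep : L.ep = 0) {η : Eis} (hη : η = 1 ∨ η = -1) (hq : (L.q la : Eis) = η)
    (hcl : (η = -1 ∧ L.k = 1) ∨ (η = 1 ∧ L.k = 0)) {R : Finset Eis} (hR : IsR L R) (A : ValuationSubring ℂ)
    (hA : A.valuation 3 < 1) {D' : Eis} (hD : (3 : Eis) ∣ D' - η) {r : ℂ} (hr : r ^ 2 = emb D') {m : ZMod 3}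
    (hm : L.k ≠ 0 → m = 0) {u₁ u₂ : ℂ} (hN : N2 r (zw m * ee L R) u₁ u₂) :
    A.valuation (V2 L) < A.valuation (emb la) ^ 2 := by
  obtain ⟨rr, hrr⟩ := JL.a4_exists_r
  have hrv := JZ.a1_r A hA hrr
  have hrA : rr ∈ A := (ValuationSubring.valuation_le_one_iff A _).1 hrv.le
  have hXv : ∀ c ∈ R, A.valuation ((xw (pt L c) - rr) / emb la) ≤ 1 := by
    intro c hc
    have h1 := JZ.x_sub_r A hA hrr (OT_pt L (hR.1 c hc))
    rw [map_div₀]
    exact div_le_one_of_le₀ h1 zero_le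
  let X : Eis → A := fun c => if hc : A.valuation ((xw (pt L c) - rr) / emb la) ≤ 1 then
    ⟨(xw (pt L c) - rr) / emb la, (ValuationSubring.valuation_le_one_iff A _).1 hc⟩ else 0
  have hX : ∀ c ∈ R, xw (pt L c) = ((⟨rr, hrA⟩ : A) : ℂ) + emb la * (X c : ℂ) := by
    intro c hc
    have h1 : (X c : ℂ) = (xw (pt L c) - rr) / emb la := by
      simp only [X, dif_pos (hXv c hc)]
    rw [h1]
    have h2 := CUL.la_ne
    field_simp
    ring
  -- the character
  have hcz : ∀ c ∈ R, ∃ l : ZMod 3, L.c c = zw l ∧ (L.k ≠ 0 → l = 0) := by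
    intro c hc
    by_cases hk : L.k = 0
    · obtain ⟨l, hl⟩ := L.c_cube c (hR.1 c hc)
      exact ⟨l, hl, fun h1 => absurd hk h1⟩
    · exact ⟨0, by rw [hR.2.2 hk c hc, CUL.zw_zero], fun _ => rfl⟩
  choose! l hl1 hl2 using hcz
  let ψ : Eis → A := fun c => (L.q c : A) * JZ.wA A ^ (-(l c)).val
  have hψc : ∀ c ∈ R, (ψ c : ℂ) = conj (L.chi c) := by
    intro c hc
    have h1 : ((JZ.wA A : A) : ℂ) = w := rfl
    have h2 : (ψ c : ℂ) = (L.q c : ℂ) * w ^ (-(l c)).val := by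
      simp only [ψ]
      push_cast
      rw [h1]
    rw [h2, Lev.chi, map_mul, hl1 c hc, CUL.zw_conj, map_intCast]
    rfl
  have hqq : ∀ c ∈ R, L.q c = 1 ∨ L.q c = -1 := fun c hc => L.q_pm c (hR.1 c hc)
  have hψ0 : ∑ c ∈ R, ψ c = 0 := by
    apply Subtype.ext
    have h1 : ((∑ c ∈ R, ψ c : A) : ℂ) = ∑ c ∈ R, conj (L.chi c) := by
      rw [← Finset.sum_congr rfl hψc]
      push_cast
      rfl
    rw [h1]
    by_cases hk : L.k = 0
    · rw [sum_R_chi L hep hk hR]; rfl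
    · have h2 : ∀ c ∈ R, conj (L.chi c) = ((L.q c : ℤ) : ℂ) := by
        intro c hc
        rw [Lev.chi, hR.2.2 hk c hc, mul_one, map_intCast]
      rw [Finset.sum_congr rfl h2, ← Int.cast_sum, sum_R_q L hep hR]
      simp
  have hψn : ∀ c ∈ R, JZ.rsd A (ψ c) = (L.q c : IsLocalRing.ResidueField A) := by
    intro c hc
    simp only [ψ]
    rw [map_mul, map_pow, JZ.rsd_w A hA, one_pow, mul_one, map_intCast]
  -- the sign
  obtain ⟨η', hη1, hη'⟩ : ∃ η' : ℤ, (η' : Eis) = η ∧ (η' = 1 ∨ η' = -1) := by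
    rcases hη with h1 | h1
    · exact ⟨1, by rw [h1]; simp, Or.inl rfl⟩
    · exact ⟨-1, by rw [h1]; simp, Or.inr rfl⟩
  have hDη : (3 : Eis) ∣ D' - (η' : Eis) := by rw [hη1]; exact hD
  obtain ⟨hu1, hu2, e1, e2, e3⟩ := hN
  have hnorm : u₁ ^ 2 - u₂ ^ 2 * emb D' = 1 := by
    have h1 : (u₁ + u₂ * r) * (u₁ - u₂ * r) = 1 := by
      rw [← e1, ← e2, mul_inv_cancel₀ e3]
    rw [← hr, ← h1]; ring
  have hm' : L.k ≠ 0 → m.val = 0 := fun h1 => by rw [hm h1]; rfl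
  have hne : (1 : Eis) ≠ -1 := by
    intro h
    have h1 := congrArg emb h
    rw [map_neg, map_one] at h1
    norm_num at h1
  have hcase : (η' = -1 ∧ L.k.val = 1 ∧ m.val = 0) ∨ (η' = 1 ∧ L.k.val = 0) := by
    rcases hcl with ⟨h1, h2⟩ | ⟨h1, h2⟩
    · left
      have h3 : η' = -1 := by
        rcases hη' with h3 | h3
        · exfalso
          apply hne
          rw [← h1, ← hη1, h3, Int.cast_one]
        · exact h3
      exact ⟨h3, by rw [h2]; rfl, hm' (by rw [h2]; decide)⟩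
    · right
      have h3 : η' = 1 := by
        rcases hη' with h3 | h3
        · exact h3
        · exfalso
          exact hne (h1.symm.trans (by rw [← hη1, h3, Int.cast_neg, Int.cast_one]))
      exact ⟨h3, by rw [h2]; rfl⟩
  have hmain := e_A_main A hA (r := ⟨rr, hrA⟩) (by apply Subtype.ext; push_cast; exact hrr) R X ψ L.q
    (fun c => xw (pt L c)) hX hqq (sum_R_q L hep hR) hψ0 hψn hcase hDη hr hu1 hu2 hnorm e1
  have hT : ∑ c ∈ R, (ψ c : ℂ) * (xw (pt L c) ^ L.k.val / (1 + xw (pt L c) ^ 3)) =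
      ∑ c ∈ R, conj (L.chi c) * xw (pt L c) ^ L.k.val / (1 + xw (pt L c) ^ 3) := by
    refine Finset.sum_congr rfl fun c hc => ?_
    rw [hψc c hc, mul_div_assoc]
  rw [hT] at hmain
  have h4 : A.valuation (yw si) = A.valuation (emb la) := by
    have h4 : A.valuation (yw si) ^ 2 = A.valuation (emb la) ^ 2 := by rw [CUL.v2_y_si A, CUL.w_la A hA]
    exact (pow_left_inj₀ zero_le zero_le (by norm_num)).1 h4
  have h5 : A.valuation (V2 L) = A.valuation 3 * A.valuation (emb la *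
      ∑ c ∈ R, conj (L.chi c) * xw (pt L c) ^ L.k.val / (1 + xw (pt L c) ^ 3)) := by
    rw [v2e_eq L hep hR, map_mul, map_mul, map_mul, map_pow, map_mul, CUL.v2_x_si A, one_pow, mul_one, h4,
      Valuation.map_neg, mul_assoc]
  have h6 : A.valuation 3 ≠ 0 := CUL.v2_w3 A
  have h7 : A.valuation (emb la) ^ 2 = A.valuation 3 := CUL.w_la A hA
  rw [h5, h7]
  exact mul_lt_of_lt_one_right (zero_lt_iff.2 h6) hmain

end JGS
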