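import Pool.Agent.JGL.V4e

/-!
# [JGS-F] `ep = 0`, `n = 4`, `q(λ) = 1`: strict inequality

PROOF. As `V_4e1`, `V_4e2` (JGL/V4e.lean, V4e1 .. V4e3). With `q(λ) = 1` instead of `-1` in `v4e_M` (JGL/V4e2.lean; `v4e_perm_sq`, `v4e_perm_mul` are for all `q(λ)`): `∑ q τ(λ z)² = λ m`, so `∑ q(c) v4e_W L 2 i c = λ m` and `∑ q(c) v4e_W L 1 i c = g_i λ m` (`2 P` is replaced by `P - P = 0`), `m = ∑ q(c) b_c`, `τ(c / f)² = λ b_c`.
KEY: `A.valuation m < 1`. Then `|∑ q W| < |λ|`, and `v4e_sum` (`S ≡ F ∑ q W mod 3`) gives `|S| < |λ|`, `v4e_pre` gives the claims.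
Proof of KEY: `-3 τ² = y² = 4 x³ + 1` (`weq`, `ym = -y`, `Tm = ym / th`, `th² = -3`), `x = rr + λ X` (`4 rr³ = -1`, `rr ≡ -1`, see `V_2e`, `JZ.x_sub_r`), so `ω² b ≡ 4 X³ - 4 ω² rr² X`, `b ≡ X³ - X mod λ` (in the residue field of `A`; `3 = -ω² λ²`). So `m ≡ B0³ - B0`, `B0 = ∑ q(c) X_c` (cubes are additive in characteristic `3`, `q³ = q`).
By `a3_e` (JZ/LA3.lean) `λ B0' = 1 - ee`, `B0' ≡ B0`; `zw m * ee = 1 - λ B`, `B ≡ B0 + j` (`j = m.val`, as in `JZ.A_main`), `j³ = j`. And `B³ ≡ B`: `B ≡ -r (u₂ / λ)` (from `e = u₁ + u₂ r`, `e⁻¹ = u₁ - u₂ r`, `2 u₂ r = e - e⁻¹`, `e⁻¹ ≡ 1 + λ B mod λ²`), `r² = emb (ω^i Ds) ≡ 1`, so `r ≡ ± 1`, `r³ ≡ r`, and the residue `c` of `u₂ / λ ∈ ℚ(ω)`, integral at `λ`, is in `F_3`: `c³ = c` (this is how `a4_B` (JZ/LA4.lean) works; it needs only `λ ∣ D' - η`). So `m ≡ (B - j)³ - (B - j) = 0`.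
-/

set_option autoImplicit false

open NumberField IsDedekindDomain Filter Topology
open scoped Classical ComplexConjugate

namespace JGS

open CM27 JZ JGL
open CU (la eE)
open CUL (Nl ez si ta DS Cont LV IsRep rp cr mn mo zw OT GalU W3 W9)
open JL (N1 KD sD Psi6)

section

variable (A : ValuationSubring ℂ) (hA : A.valuation 3 < 1)

include hA in
/-- the sums for `q(λ) = 1` -/
theorem f_M (L : Lev) (hep : L.ep = 0) (hq : L.q la = 1) {R : Finset Eis} (hR : IsR L R) :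
    ∃ b : Eis → A, ∃ m : A, (∀ c ∈ R, Tm (pt L c) ^ 2 = emb la * (b c : ℂ)) ∧ m = ∑ c ∈ R, (L.q c : A) * b c ∧
      (∀ i : ZMod 3, ∑ c ∈ R, (L.q c : ℂ) * v4e_W L 2 i c = emb la * (m : ℂ)) ∧
      ∀ i : ZMod 3, ∑ c ∈ R, (L.q c : ℂ) * v4e_W L 1 i c = ((v4e_g i : ℤ) : ℂ) * (emb la * (m : ℂ)) := by
  have h1 : ∀ c ∈ R, ∃ b H H' : A, Tm (pt L c) ^ 2 = emb la * (b : ℂ) ∧
      48 * Tm (pt L c) ^ 4 = Tm (pt L c) ^ 6 + 3 * Tm (emb la * pt L c) ^ 2 + emb la ^ 5 * (H : ℂ) ∧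
      th * (Tm (pt L c) * Tm (emb la * pt L c)) = -Tm (pt L c) ^ 4 + emb la ^ 3 * (H' : ℂ) :=
    fun c hc => v4e_point A hA (OT_pt L (hR.1 c hc))
  choose! b H H' hb hH hH' using h1
  obtain ⟨m, hm⟩ : ∃ m : A, m = ∑ c ∈ R, (L.q c : A) * b c := ⟨_, rfl⟩
  have hmc : emb la * (m : ℂ) = ∑ c ∈ R, (L.q c : ℂ) * Tm (pt L c) ^ 2 := by
    rw [hm]
    push_cast
    rw [Finset.mul_sum]
    refine Finset.sum_congr rfl fun c hc => ?_
    rw [hb c hc]
    ring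
  have hqc : (L.q la : ℂ) = 1 := by rw [hq]; norm_num
  have e1 : ∑ c ∈ R, (L.q c : ℂ) * Tm (emb la * pt L c) ^ 2 = emb la * (m : ℂ) := by
    rw [v4e_perm_sq L hep hR, hqc, hmc]
    ring
  obtain ⟨P, hP⟩ : ∃ P : ℂ, P = ∑ c ∈ R, (L.q c : ℂ) * (Tm (pt L c) * Tm (emb la * pt L c)) := ⟨_, rfl⟩
  have e2 : ∑ c ∈ R, (L.q c : ℂ) * (Tm (emb la * pt L c) * Tm (emb la ^ 2 * pt L c)) = P := by
    rw [v4e_perm_mul L hep hR, hqc, hP]
    ring
  refine ⟨b, m, hb, hm, fun i => ?_, fun i => ?_⟩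
  · have h2 : (2 : ZMod 3) ≠ 1 := by decide
    rw [← e1]
    refine Finset.sum_congr rfl fun c _ => ?_
    rw [v4e_W, if_neg h2]
  · have h5 : ((v4e_g i : ℤ) : ℂ) * (emb la * (m : ℂ)) = P - P + ((v4e_g i : ℤ) : ℂ) * (emb la * (m : ℂ)) := by ring
    rw [h5]
    nth_rewrite 2 [← e2]
    rw [← e1, hP, ← Finset.sum_sub_distrib, Finset.mul_sum, ← Finset.sum_add_distrib]
    refine Finset.sum_congr rfl fun c _ => ?_
    rw [v4e_W, if_pos rfl]
    ring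

include hA in
/-- KEY: `m ≡ 0` -/
theorem f_key (L : Lev) (hep : L.ep = 0) {R : Finset Eis} (hR : IsR L R) {i : ℕ}
    {Ds : Eis} (hDs : Primary Ds) {r : ℂ} (hr : r ^ 2 = emb (CU.om ^ i * Ds)) {m' : ZMod 3} {u₁ u₂ : ℂ}
    (hN : N2 r (zw m' * ee L R) u₁ u₂) {b : Eis → A} {m : A}
    (hb : ∀ c ∈ R, Tm (pt L c) ^ 2 = emb la * (b c : ℂ)) (hm : m = ∑ c ∈ R, (L.q c : A) * b c) :
    A.valuation (m : ℂ) < 1 := by
  obtain ⟨h, hh⟩ := v4e_cube A hA L hep hR hN hb hm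
  obtain ⟨l, hl⟩ : ∃ l : A, l = 1 - wA A := ⟨_, rfl⟩
  have hlc : (l : ℂ) = emb la := by rw [hl]; exact coe_la A
  have hl0 := CUL.la_ne
  have hwc : ((wA A : A) : ℂ) = w := rfl
  have h2c : ((2 : A) : ℂ) = 2 := rfl
  have h3c : ((3 : A) : ℂ) = 3 := rfl
  have h8c : ((8 : A) : ℂ) = 8 := rfl
  -- `r` is a unit
  obtain ⟨D', hD'⟩ := hDs
  have hDC : emb Ds = 1 + 3 * emb D' := by
    have := congrArg emb hD'
    rw [map_sub, map_one, map_mul, map_ofNat] at this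
    linear_combination this
  have hr' : r ^ 2 = w ^ i * (1 + 3 * emb D') := by
    rw [hr, map_mul, map_pow, CUL.emb_om, hDC]
  have vr : A.valuation r = 1 := by
    have h1 : A.valuation (1 + 3 * emb D') = 1 := by
      apply Valuation.map_one_add_of_lt
      rw [map_mul]
      exact lt_of_le_of_lt (mul_le_mul' le_rfl (CUL.w_emb_le A D')) (by rwa [mul_one])
    have h2 : A.valuation r ^ 2 = 1 := by
      rw [← map_pow, hr', map_mul, h1, map_pow, CUL.w_w A, one_pow, mul_one]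
    exact (pow_eq_one_iff.1 h2).resolve_right (by norm_num)
  obtain ⟨rA, hrA⟩ : ∃ rA : A, (rA : ℂ) = r := ⟨⟨_, (ValuationSubring.valuation_le_one_iff A _).1 vr.le⟩, rfl⟩
  -- `y = u₂ r = λ y'`
  have hsm := v4e_small A hA (y := u₂ * r) (κ := -2 * wA A ^ 2 * m + l ^ 3 * h) (by
    rw [hh]
    push_cast
    rw [hwc, hlc, h2c]
    ring)
  have vb : A.valuation (u₂ / emb la) ≤ 1 := by
    rw [map_mul, vr, mul_one] at hsm
    rw [map_div₀]
    exact div_le_one_of_le₀ hsm zero_le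
  obtain ⟨B, hB⟩ : ∃ B : A, (B : ℂ) = u₂ / emb la := ⟨⟨_, (ValuationSubring.valuation_le_one_iff A _).1 vb⟩, rfl⟩
  have hβK : (B : ℂ) ∈ CF.KK := by
    rw [hB]
    apply CF.KK.div_mem hN.2.1
    rw [CUL.mem_KK]
    exact ⟨1, -1, by rw [CUL.emb_la]; push_cast; ring⟩
  have hB3 := JZ.a4_KK A hA hβK
  have hu : u₂ = emb la * (B : ℂ) := by rw [hB]; field_simp
  -- the equation for `m`
  have h3 := v4e_three
  have hw3 := CUL.w3
  have hm2 : 2 * ((B : ℂ) * r) - 8 * w * ((B : ℂ) * r) ^ 3 = 2 * (m : ℂ) - w * emb la ^ 3 * h := by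
    apply mul_left_cancel₀ (pow_ne_zero 3 hl0)
    rw [hu] at hh
    linear_combination -w * hh + 2 * w * emb la * ((B : ℂ) * r) * h3 +
      (2 * emb la ^ 3 * (m : ℂ) - 2 * emb la ^ 3 * ((B : ℂ) * r)) * hw3
  have hm3 : 2 * (B * rA) - 8 * wA A * (B * rA) ^ 3 = 2 * m - wA A * l ^ 3 * h := by
    apply Subtype.ext
    push_cast
    rw [hrA, hwc, hlc, h2c, h8c]
    exact hm2
  obtain ⟨d, hd⟩ : ∃ d : A, (d : ℂ) = emb D' :=
    ⟨⟨_, (ValuationSubring.valuation_le_one_iff A _).1 (CUL.w_emb_le A D')⟩, rfl⟩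
  have hrA2 : rA ^ 2 = wA A ^ i * (1 + 3 * d) := by
    apply Subtype.ext
    push_cast
    rw [hrA, hwc, h3c, hd]
    exact hr'
  -- residues
  have g3 := rsd_three A hA
  have gw := rsd_w A hA
  have gl : rsd A l = 0 := by rw [hl, map_sub, map_one, gw, sub_self]
  have gr : rsd A rA ^ 2 = 1 := by
    rw [← map_pow, hrA2]
    simp only [map_mul, map_pow, map_add, map_one, map_ofNat]
    rw [gw, g3, zero_mul, add_zero, mul_one, one_pow]
  have gm : 2 * (rsd A B * rsd A rA) - 8 * (rsd A B * rsd A rA) ^ 3 = 2 * rsd A m := by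
    have h1 := congrArg (rsd A) hm3
    simp only [map_sub, map_mul, map_pow, map_ofNat] at h1
    rw [gw, gl] at h1
    linear_combination h1
  have gr3 : (rsd A B * rsd A rA) ^ 3 = rsd A B * rsd A rA := by
    rw [mul_pow, hB3]
    linear_combination rsd A B * rsd A rA * gr
  rw [gr3] at gm
  rw [← rsd_eq_zero]
  linear_combination gm + (rsd A m + 2 * (rsd A B * rsd A rA)) * g3

include hA in
/-- from `|m| < 1` to the valuation of the sum -/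
theorem f_S {S F W g : ℂ} {m : A} (hF : A.valuation F = 1) (hS : A.valuation (S - F * W) ≤ A.valuation 3)
    (hg : A.valuation g ≤ 1) (hW : W = g * (emb la * (m : ℂ))) (hm : A.valuation (m : ℂ) < 1) :
    A.valuation S < A.valuation (emb la) := by
  have hl := CUL.w_la_lt A hA
  have hl2 := CUL.w_la A hA
  have hl0 : 0 < A.valuation (emb la) := by
    rw [Valuation.pos_iff]
    exact CUL.la_ne
  have h32 : A.valuation 3 < A.valuation (emb la) := by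
    rw [← hl2, pow_two]
    calc A.valuation (emb la) * A.valuation (emb la) < A.valuation (emb la) * 1 := mul_lt_mul_of_pos_left hl hl0
      _ = _ := mul_one _
  have e : S = (S - F * W) + F * W := by ring
  rw [e]
  refine lt_of_le_of_lt (A.valuation.map_add _ _) (max_lt (lt_of_le_of_lt hS h32) ?_)
  rw [map_mul, hF, one_mul, hW, map_mul, map_mul]
  calc A.valuation g * (A.valuation (emb la) * A.valuation (m : ℂ))
      ≤ 1 * (A.valuation (emb la) * A.valuation (m : ℂ)) := mul_le_mul' hg le_rfl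
    _ = A.valuation (emb la) * A.valuation (m : ℂ) := one_mul _
    _ < A.valuation (emb la) * 1 := mul_lt_mul_of_pos_left hm hl0
    _ = _ := mul_one _

end

theorem VS_4e1 (L : Lev) (hep : L.ep = 0) (hq : L.q la = 1) {R : Finset Eis} (hR : IsR L R) (A : ValuationSubring ℂ)
    (hA : A.valuation 3 < 1) (i : ℕ) (hi : i < 3) {Ds : Eis} (hDs : Primary Ds) {r : ℂ}
    (hr : r ^ 2 = emb (CU.om ^ i * Ds)) {m : ZMod 3} {u₁ u₂ : ℂ}
    (hN : N2 r (zw m * ee L R) u₁ u₂) : A.valuation (V4 L 1 i) ^ 3 < A.valuation (emb la) ^ 11 := by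
  have hl0 : A.valuation (emb la) ≠ 0 := CUL.v2_wla A
  obtain ⟨κ, hκ, ζ, hζ, hV⟩ := V4_eq L hR 1 (i : ZMod 3) (by decide)
  rw [hep, pow_zero] at hV
  obtain ⟨F, hF, hS⟩ := v4e_sum A hA L hep hR (a := 1) (Or.inl rfl) (i : ZMod 3)
  obtain ⟨b, m, hb, hm, -, hM1⟩ := f_M A hA L hep hq hR
  have hk := f_key A hA L hep hR hDs hr hN hb hm
  have hp := v4e_pre A hA hκ hζ hV
  have hval1 : (1 : ZMod 3).val = 1 := rfl
  rw [hval1, pow_one] at hp
  have hy := f_S A hA hF hS (CUL.w_int_le A (v4e_g (i : ZMod 3))) (hM1 (i : ZMod 3)) hk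
  have hx0 : 0 < A.valuation (emb la) := pos_iff_ne_zero.2 hl0
  refine lt_of_mul_lt_mul_right (a := A.valuation (emb la)) ?_ zero_le
  rw [hp, ← pow_succ]
  calc A.valuation (emb la) ^ 9 * _ < A.valuation (emb la) ^ 9 * A.valuation (emb la) ^ 3 :=
        mul_lt_mul_of_pos_left (pow_lt_pow_left₀ hy zero_le (by norm_num)) (pow_pos hx0 9)
    _ = A.valuation (emb la) ^ (11 + 1) := by rw [← pow_add]

theorem VS_4e2 (L : Lev) (hep : L.ep = 0) (hq : L.q la = 1) {R : Finset Eis} (hR : IsR L R) (A : ValuationSubring ℂ)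
    (hA : A.valuation 3 < 1) (i : ℕ) (hi : i < 3) {Ds : Eis} (hDs : Primary Ds) {r : ℂ}
    (hr : r ^ 2 = emb (CU.om ^ i * Ds)) {m : ZMod 3} {u₁ u₂ : ℂ}
    (hN : N2 r (zw m * ee L R) u₁ u₂) : A.valuation (V4 L 2 i) ^ 3 < A.valuation (emb la) ^ 10 := by
  have hl0 : A.valuation (emb la) ≠ 0 := CUL.v2_wla A
  obtain ⟨κ, hκ, ζ, hζ, hV⟩ := V4_eq L hR 2 (i : ZMod 3) (by decide)
  rw [hep, pow_zero] at hV
  obtain ⟨F, hF, hS⟩ := v4e_sum A hA L hep hR (a := 2) (Or.inr rfl) (i : ZMod 3)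
  obtain ⟨b, m, hb, hm, hM2, -⟩ := f_M A hA L hep hq hR
  have hk := f_key A hA L hep hR hDs hr hN hb hm
  have hp := v4e_pre A hA hκ hζ hV
  have hval1 : (2 : ZMod 3).val = 2 := rfl
  rw [hval1] at hp
  have hy := f_S A hA hF hS (g := 1) (by rw [map_one]) (by rw [hM2 (i : ZMod 3), one_mul]) hk
  have hx0 : 0 < A.valuation (emb la) := pos_iff_ne_zero.2 hl0
  refine lt_of_mul_lt_mul_right (a := A.valuation (emb la) ^ 2) ?_ zero_le
  rw [hp, ← pow_add]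
  calc A.valuation (emb la) ^ 9 * _ < A.valuation (emb la) ^ 9 * A.valuation (emb la) ^ 3 :=
        mul_lt_mul_of_pos_left (pow_lt_pow_left₀ hy zero_le (by norm_num)) (pow_pos hx0 9)
    _ = A.valuation (emb la) ^ (10 + 2) := by rw [← pow_add]

end JGS
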