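import Pool.Agent.JGL.V23o

/-!
# [JGS-G] `ep = 1`, `n = 3`, the excluded class: strict inequality

PROOF. As `v23o_V3` (JGL/V23o5.lean) in the remaining cases `(i = 1, q(λ) = 1)`, `(i = 2, q(λ) = -1)`: the coefficient of `M_1` is `c0 - 4 c1 θ s`, `s = q(λ)`, and instead of `v23o_coef` (`m = 1, s = 1` or `m = 2, s = -1`: valuation `= |λ|`) one needs for `m = 1, s = -1` or `m = 2, s = 1`: `A.valuation (c0 - 4 c1 θ s) < |λ|` (then `≤ |λ|²`) with the same `c0, c1, c2`.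
(`3 = -ω² λ²`, so it is divisible by `λ²`; check the nine cases as in `v23o_coef`.) The other terms are already strictly smaller (see `v23o_V3`).
-/

set_option autoImplicit false
set_option linter.unusedSimpArgs false
set_option linter.unusedVariables false

open NumberField IsDedekindDomain Filter Topology
open scoped Classical ComplexConjugate

namespace JGS

open CM27 JZ JGL
open CU (la eE)
open CUL (Nl ez si ta DS Cont LV IsRep rp cr mn mo zw OT GalU W3 W9)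
open JL (N1 KD sD Psi6)

section

variable (A : ValuationSubring ℂ) (hA : A.valuation 3 < 1)
include hA

private theorem g_small (a b : ℤ) (h : (3 : ℤ) ∣ a + b) :
    A.valuation (emb la * ((a : ℂ) + b * w)) < A.valuation (emb la) := by
  have hl0 := CUL.v2_wla A
  obtain ⟨t, ht⟩ := h
  have e : (a : ℂ) + b * w = 3 * (t : ℂ) - b * emb la := by
    have e1 : (a : ℂ) + b = 3 * t := by exact_mod_cast congrArg (Int.cast : ℤ → ℂ) ht
    rw [CUL.emb_la]
    linear_combination e1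
  have h1 : A.valuation ((3 : ℂ) * t) < 1 := by
    rw [map_mul]
    exact lt_of_le_of_lt (mul_le_mul' le_rfl (CUL.w_int_le A t)) (by rw [mul_one]; exact hA)
  have h2 : A.valuation ((b : ℂ) * emb la) < 1 := by
    rw [map_mul]
    exact lt_of_le_of_lt (mul_le_mul' (CUL.w_int_le A b) le_rfl) (by rw [one_mul]; exact CUL.w_la_lt A hA)
  have h3 : A.valuation ((a : ℂ) + b * w) < 1 := by
    rw [e]
    exact lt_of_le_of_lt (A.valuation.map_sub _ _) (max_lt h1 h2)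
  rw [map_mul]
  calc A.valuation (emb la) * A.valuation ((a : ℂ) + b * w)
      < A.valuation (emb la) * 1 := mul_lt_mul_of_pos_left h3 (zero_lt_iff.2 hl0)
    _ = _ := mul_one _

private theorem g_coef {k m : ℕ} (hk : k < 3) {s : ℂ} (hm : (m = 1 ∧ s = -1) ∨ (m = 2 ∧ s = 1)) :
    ∃ c0 c1 c2 : ℂ, A.valuation c0 ≤ A.valuation (emb la) ∧ A.valuation c1 ≤ 1 ∧ A.valuation c2 ≤ 1 ∧
      A.valuation (c0 - 4 * c1 * th * s) < A.valuation (emb la) ∧
      ∀ t : ℂ, v23o_P w ((1 - t ^ 2) / 4) (3 * ((1 - t ^ 2) / 4) - 1) k m =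
        c0 * ((1 - t ^ 2) / 4) ^ 2 + c1 * ((1 - t ^ 2) / 4) * t ^ 2 + c2 * t ^ 4 := by
  have h2 := CUL.w2
  have h3 := CUL.w3
  have hla := CUL.emb_la
  have key : ∀ {c0 c1 c2 : ℂ} (a b a' b' : ℤ) (x y z t : ℤ), c0 = emb la * ((a : ℂ) + b * w) → ¬ (3 : ℤ) ∣ a + b →
      c1 = (x : ℂ) + y * w → c2 = (z : ℂ) + t * w → c0 - 4 * c1 * th * s = emb la * ((a' : ℂ) + b' * w) →
      (3 : ℤ) ∣ a' + b' →
      (∀ t : ℂ, v23o_P w ((1 - t ^ 2) / 4) (3 * ((1 - t ^ 2) / 4) - 1) k m =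
        c0 * ((1 - t ^ 2) / 4) ^ 2 + c1 * ((1 - t ^ 2) / 4) * t ^ 2 + c2 * t ^ 4) →
      ∃ c0 c1 c2 : ℂ, A.valuation c0 ≤ A.valuation (emb la) ∧ A.valuation c1 ≤ 1 ∧ A.valuation c2 ≤ 1 ∧
      A.valuation (c0 - 4 * c1 * th * s) < A.valuation (emb la) ∧
      ∀ t : ℂ, v23o_P w ((1 - t ^ 2) / 4) (3 * ((1 - t ^ 2) / 4) - 1) k m =
        c0 * ((1 - t ^ 2) / 4) ^ 2 + c1 * ((1 - t ^ 2) / 4) * t ^ 2 + c2 * t ^ 4 := by
    intro c0 c1 c2 a b a' b' x y z t e0 n0 e1 e2 e3 n3 hP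
    refine ⟨c0, c1, c2, ?_, ?_, ?_, ?_, hP⟩
    · rw [e0, v23o_unit_la A hA a b n0]
    · rw [e1]
      exact v23o_int A x y
    · rw [e2]
      exact v23o_int A z t
    · rw [e3]
      exact g_small A hA a' b' n3
  rcases hm with ⟨rfl, rfl⟩ | ⟨rfl, rfl⟩ <;> interval_cases k
  · -- k = 0, m = 1
    refine key (c0 := 1 - w) (c1 := -w) (c2 := 0) 1 0 5 4 0 (-1) 0 0 ?_ (by decide) ?_ ?_ ?_ (by decide) ?_
    · rw [hla]; push_cast; ring
    · push_cast; ring
    · push_cast; ring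
    · rw [hla, th]; push_cast; linear_combination (-4 + 4 * w) * h2
    · intro t
      simp only [v23o_P, if_true]
      ring
  · -- k = 1, m = 1
    refine key (c0 := 1 - 4 * w ^ 2) (c1 := -5 * w ^ 2) (c2 := -w ^ 2) 2 3 (-18) 3 5 5 1 1 ?_ (by decide) ?_ ?_ ?_
      (by decide) ?_
    · rw [hla]; push_cast; linear_combination (-1 : ℂ) * h2
    · push_cast; linear_combination (-5 : ℂ) * h2
    · push_cast; linear_combination (-1 : ℂ) * h2
    · rw [hla, th]; push_cast; linear_combination (19 - 40 * w + 20 * w ^ 2) * h2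
    · intro t
      simp only [v23o_P, if_true, if_false, one_ne_zero]
      ring
  · -- k = 2, m = 1
    refine key (c0 := 4 * w - 4 * w ^ 2) (c1 := w - 5 * w ^ 2) (c2 := -w ^ 2) 0 4 (-24) 0 5 6 1 1 ?_ (by decide) ?_ ?_ ?_
      (by decide) ?_
    · rw [hla]; push_cast; ring
    · push_cast; linear_combination (-5 : ℂ) * h2
    · push_cast; linear_combination (-1 : ℂ) * h2
    · rw [hla, th]; push_cast; linear_combination (24 - 44 * w + 20 * w ^ 2) * h2
    · intro t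
      simp only [v23o_P, if_true, if_false, OfNat.ofNat_ne_zero, OfNat.ofNat_ne_one]
      ring
  · -- k = 0, m = 2
    refine key (c0 := 1 - w ^ 2) (c1 := -w ^ 2) (c2 := 0) 1 1 5 1 1 1 0 0 ?_ (by decide) ?_ ?_ ?_ (by decide) ?_
    · rw [hla]; push_cast; ring
    · push_cast; linear_combination (-1 : ℂ) * h2
    · push_cast; ring
    · rw [hla, th]; push_cast; linear_combination (-4 + 8 * w - 4 * w ^ 2) * h2
    · intro t
      simp only [v23o_P, if_true, if_false, OfNat.ofNat_ne_one]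
      ring
  · -- k = 1, m = 2
    refine key (c0 := w - 4 * w ^ 2) (c1 := -5 * w ^ 2) (c2 := -w ^ 2) 1 3 21 3 5 5 1 1 ?_ (by decide) ?_ ?_ ?_
      (by decide) ?_
    · rw [hla]; push_cast; linear_combination (-1 : ℂ) * h2
    · push_cast; linear_combination (-5 : ℂ) * h2
    · push_cast; linear_combination (-1 : ℂ) * h2
    · rw [hla, th]; push_cast; linear_combination (-21 + 40 * w - 20 * w ^ 2) * h2
    · intro t
      simp only [v23o_P, if_true, if_false, one_ne_zero, OfNat.ofNat_ne_one]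
      ring
  · -- k = 2, m = 2
    refine key (c0 := 4 * w - 4) (c1 := w - 5) (c2 := -1) (-4) 0 0 24 (-5) 1 (-1) 0 ?_ (by decide) ?_ ?_ ?_
      (by decide) ?_
    · rw [hla]; push_cast; ring
    · push_cast; ring
    · push_cast; ring
    · rw [hla, th]; push_cast; linear_combination (-4 + 4 * w) * h2
    · intro t
      simp only [v23o_P, if_true, if_false, OfNat.ofNat_ne_zero, OfNat.ofNat_ne_one]
      ring

private theorem g_V3 (L : Lev) (hep : L.ep = 1) {R : Finset Eis} (hR : IsR L R) {i : ℕ}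
    (hi : (i = 1 ∧ L.q la = 1) ∨ (i = 2 ∧ L.q la = -1)) :
    A.valuation (V3 L i) ^ 2 < A.valuation (emb la) ^ 5 := by
  obtain ⟨s, hs⟩ := v23o_exists_s
  obtain ⟨r₀, hr₀⟩ := JL.exists_r
  have hs1 := v23o_s_lt A hA hs
  have hs0 := v23o_s_ne A hA hs
  have hl1 := CUL.w_la_lt A hA
  have hl0 := CUL.v2_wla A
  have hls : A.valuation s ^ 2 = A.valuation (emb la) := by rw [← map_pow, hs]
  obtain ⟨m, hm1, hm2⟩ : ∃ m : ℕ, ((i = 1 ∧ m = 2) ∨ (i = 2 ∧ m = 1)) ∧
      ((m = 1 ∧ (L.q la : ℂ) = -1) ∨ (m = 2 ∧ (L.q la : ℂ) = 1)) := by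
    rcases hi with ⟨h1, h2⟩ | ⟨h1, h2⟩
    · exact ⟨2, Or.inl ⟨h1, rfl⟩, Or.inr ⟨rfl, by rw [h2]; norm_num⟩⟩
    · exact ⟨1, Or.inr ⟨h1, rfl⟩, Or.inl ⟨rfl, by rw [h2]; norm_num⟩⟩
  obtain ⟨κ, hκ, hV⟩ := v23o_V3_eq L hep hR hm1
  have hk3 : L.k.val < 3 := ZMod.val_lt _
  obtain ⟨c0, c1, c2, g0, g1, g2, gΓ, gP⟩ := g_coef A hA hk3 hm2
  have hone : ∀ c ∈ R, _ := fun c hc => v23o_one A hA hs g0 g1 g2 (v23o_tau A hA hs (OT_pt L (hR.1 c hc)))
    (v23o_tau A hA hs (OT_pt L ((la_cop L).mul_left (hR.1 c hc))))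
  have h3 := v23o_lead A hA L hR hs hr₀ L.k.val (b := A.valuation (emb la))
    (fun c => v23o_P w ((1 - Tm (pt L c) ^ 2) / 4) (3 * ((1 - Tm (pt L c) ^ 2) / 4) - 1) L.k.val m /
        ((3 * ((1 - Tm (pt L c) ^ 2) / 4) - 1) ^ 2 * (1 - Tm (pt L (la * c)) ^ 2)))
    (fun c => c0 + 4 * c1 * Tm (pt L c) ^ 2)
    (fun c hc => (hone c hc).1)
    (fun c hc => by
      show A.valuation (v23o_P w ((1 - Tm (pt L c) ^ 2) / 4) (3 * ((1 - Tm (pt L c) ^ 2) / 4) - 1) L.k.val m /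
        ((3 * ((1 - Tm (pt L c) ^ 2) / 4) - 1) ^ 2 * (1 - Tm (pt L (la * c)) ^ 2)) -
        (c0 + 4 * c1 * Tm (pt L c) ^ 2)) ≤ _
      rw [gP]
      exact (hone c hc).2)
  obtain ⟨T, hT⟩ : ∃ T, T = ∑ c ∈ R, conj (L.chi c) * (xw (pt L c) ^ L.k.val * (Tm (pt L c) *
      (v23o_P w ((1 - Tm (pt L c) ^ 2) / 4) (3 * ((1 - Tm (pt L c) ^ 2) / 4) - 1) L.k.val m /
        ((3 * ((1 - Tm (pt L c) ^ 2) / 4) - 1) ^ 2 * (1 - Tm (pt L (la * c)) ^ 2))))) := ⟨_, rfl⟩
  rw [← hT] at hV h3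
  have h4 : ∑ c ∈ R, (L.q c : ℂ) * (Tm (pt L c) * (c0 + 4 * c1 * Tm (pt L c) ^ 2)) =
      (c0 - 4 * c1 * th * (L.q la : ℂ)) * Mo L R 1 + 4 * c1 * (Mo L R 3 + th * (L.q la : ℂ) * Mo L R 1) := by
    have e : ∑ c ∈ R, (L.q c : ℂ) * (Tm (pt L c) * (c0 + 4 * c1 * Tm (pt L c) ^ 2)) =
        c0 * Mo L R 1 + 4 * c1 * Mo L R 3 := by
      rw [Mo, Mo, Finset.mul_sum, Finset.mul_sum, ← Finset.sum_add_distrib]
      refine Finset.sum_congr rfl fun c _ => ?_
      ring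
    rw [e]
    ring
  have h5 := v23o_M3 A hA L hep hR hs
  have hrk : A.valuation (r₀ ^ L.k.val) = 1 := by rw [map_pow, JL.r_val A hA hr₀, one_pow]
  have h6 : A.valuation (T - r₀ ^ L.k.val * ((c0 - 4 * c1 * th * (L.q la : ℂ)) * Mo L R 1)) ≤
      A.valuation s * (A.valuation (emb la) * A.valuation (emb la)) := by
    have e : T - r₀ ^ L.k.val * ((c0 - 4 * c1 * th * (L.q la : ℂ)) * Mo L R 1) =
        (T - r₀ ^ L.k.val * ((c0 - 4 * c1 * th * (L.q la : ℂ)) * Mo L R 1 +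
          4 * c1 * (Mo L R 3 + th * (L.q la : ℂ) * Mo L R 1))) +
        r₀ ^ L.k.val * (4 * c1 * (Mo L R 3 + th * (L.q la : ℂ) * Mo L R 1)) := by ring
    rw [e]
    rw [h4] at h3
    refine v23o_add_le A h3 (v23o_mul_le_right A hrk.le (v23o_mul_le_right A
      (v23o_mul_le_right A (JL.a1_four A hA).le g1) h5))
  have hM := v23o_M1 A hA L hR hs
  have hrM : A.valuation (r₀ ^ L.k.val * ((c0 - 4 * c1 * th * (L.q la : ℂ)) * Mo L R 1)) <
      A.valuation (emb la) * A.valuation s := by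
    rw [map_mul, hrk, one_mul, map_mul]
    calc A.valuation (c0 - 4 * c1 * th * (L.q la : ℂ)) * A.valuation (Mo L R 1)
        ≤ A.valuation (c0 - 4 * c1 * th * (L.q la : ℂ)) * A.valuation s := mul_le_mul' le_rfl hM
      _ < A.valuation (emb la) * A.valuation s := mul_lt_mul_of_pos_right gΓ (zero_lt_iff.2 hs0)
  have hlt : A.valuation s * (A.valuation (emb la) * A.valuation (emb la)) < A.valuation (emb la) * A.valuation s := by
    have hpos : 0 < A.valuation (emb la) * A.valuation s := zero_lt_iff.2 (mul_ne_zero hl0 hs0)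
    calc A.valuation s * (A.valuation (emb la) * A.valuation (emb la)) =
        (A.valuation (emb la) * A.valuation s) * A.valuation (emb la) := by
          rw [mul_left_comm, mul_assoc, mul_comm (A.valuation s)]
      _ < (A.valuation (emb la) * A.valuation s) * 1 := mul_lt_mul_of_pos_left hl1 hpos
      _ = _ := mul_one _
  have hTlt : A.valuation T < A.valuation (emb la) * A.valuation s := by
    have e : T = (T - r₀ ^ L.k.val * ((c0 - 4 * c1 * th * (L.q la : ℂ)) * Mo L R 1)) +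
      r₀ ^ L.k.val * ((c0 - 4 * c1 * th * (L.q la : ℂ)) * Mo L R 1) := by ring
    rw [e]
    exact lt_of_le_of_lt (A.valuation.map_add _ _) (max_lt (lt_of_le_of_lt h6 hlt) hrM)
  have hκ1 : A.valuation κ = 1 := by
    have h8 : A.valuation κ ^ 9 = 1 := by rw [← map_pow, hκ, map_one]
    exact (pow_eq_one_iff.1 h8).resolve_right (by norm_num)
  have hVv : A.valuation (V3 L i) = A.valuation (emb la) * A.valuation T := by
    rw [hV, map_mul, map_mul, map_mul, Valuation.map_neg, JL.a1_four A hA, v23o_th A hA, hκ1, one_mul, one_mul]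
  have hl5 : A.valuation (emb la) ^ 5 = (A.valuation (emb la) * (A.valuation (emb la) * A.valuation s)) ^ 2 := by
    rw [mul_pow, mul_pow, hls, ← pow_succ, ← pow_add]
  rw [hVv, hl5]
  exact pow_lt_pow_left₀ (mul_lt_mul_of_pos_left hTlt (zero_lt_iff.2 hl0)) zero_le two_ne_zero

end

theorem VS_3o (L : Lev) (hep : L.ep = 1) {η : ℤ} (hη : η = 1 ∨ η = -1) (hq : L.q la = -η)
    {R : Finset Eis} (hR : IsR L R) (A : ValuationSubring ℂ)
    (hA : A.valuation 3 < 1) {i : ℕ} (hi : i = 1 ∨ i = 2) (hi' : ((i : ZMod 3)) = -(η : ZMod 3)) {Ds : Eis} (hDs : Primary Ds)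
    {r : ℂ} (hr : r ^ 2 = emb ((η : Eis) * CU.om ^ i * la * Ds)) {u₁ u₂ : ℂ}
    (hN : N2 r (eo L R) u₁ u₂) : A.valuation (V3 L i) ^ 2 < A.valuation (emb la) ^ 5 := by
  refine g_V3 A hA L hep hR ?_
  rw [hq]
  rcases hi with rfl | rfl
  · rcases hη with rfl | rfl
    · exfalso
      revert hi'
      decide
    · exact Or.inl ⟨rfl, rfl⟩
  · rcases hη with rfl | rfl
    · exact Or.inr ⟨rfl, rfl⟩
    · exfalso
      revert hi'
      decide

end JGS
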