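import Pool.Agent.JGL.U2

/-!
# [JGS-I] `x(z)` and `U(z)` are units at `p` if the order of `z` is not a power of `p`

As `u2_x`, `u2_U` (JGL/U2.lean), but now `z` is a point with `m α z = 0`, `m` prime to `p`, `α z ≠ 0` (think `α = p`: `z` of order `m p`).
PROOF. Let `Y = (y - 1) / 2`, so `Y² + Y = x³` (`weq : yw z ^ 2 = 4 xw z ^ 3 + 1`). If `|x| > 1` then `|Y| = |x|^(3/2)`, i.e. `|Y|² = |x|³` (`Y² = x³ - Y`, `|Y| > 1`).
(1) SUBGROUP: if `|x(z)| > 1`, `z₃` with `|x(z₃)| ≤ 1` (so `|Y₃| ≤ 1`), then `|x(z + z₃)| ≤ 1` (`z + z₃` is not a period, as `x` is even): with the slope `μ = (Y₁ - Y₃) / (x₁ - x₃)`, `x₂ = μ² - x₁ - x₃`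
(addition law: `i1_line` (JZ) gives the line through the three points, `y = l x + N`, `l = 2 μ`), `x₂ (x₁ - x₃)² = -Y₁ (1 + 2 Y₃) - Y₃ + x₁² x₃ + x₁ x₃²`, the right side is `≤ |x₁|²`, `|x₁ - x₃| = |x₁|`.
Hence: if `|x(z₁)| > 1`, `|x(z₂)| > 1` and `z₁ + z₂` is not a period then `|x(z₁ + z₂)| > 1` (otherwise apply (1) to `z₁` and `z₃ = -(z₁ + z₂)`: `|x(z₂)| ≤ 1`).
(2) `|x(w z)| = |x(z)|`, `x(-z) = x(z)`, so the set of the `z` which are periods or have `|x(z)| > 1` is closed under addition, `-1` and `w`, so under `emb α`, `α = a + b ω`.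
(3) If `|x(z)| > 1` then `|x(α z)| > 1`, against `u2_int` for `α z`, `m`. So `|x(z)| ≤ 1`; the same for `λ z` (`α λ z ≠ 0` by `u2_nl_la`). (4) `|x(z)| = 1`, `|x³ + 1| = 1`, `|U(z)| = 1`: the proofs of `u2_x`, `u2_x3`, `u2_U` with (3) in place of `u2_int`.
-/

set_option autoImplicit false

open NumberField IsDedekindDomain Filter Topology
open scoped Classical ComplexConjugate

namespace JGS

open CM27 JZ JGL
open CU (la eE)
open CUL (Nl ez si ta DS Cont LV IsRep rp cr mn mo zw OT GalU W3 W9)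
open JL (N1 KD sD Psi6)

variable {B : ValuationSubring ℂ}

theorem is_Y1 {x Y : ℂ} (h : Y * (Y + 1) = x ^ 3) (hx : 1 < B.valuation x) :
    B.valuation Y ≤ B.valuation x ^ 2 := by
  by_contra hcon
  push Not at hcon
  have h1 : (1 : B.ValueGroup) < B.valuation x ^ 2 := one_lt_pow₀ hx (by norm_num)
  have h2 : 1 < B.valuation Y := lt_trans h1 hcon
  have h3 : B.valuation (Y + 1) = B.valuation Y :=
    Valuation.map_add_eq_of_lt_left _ (by rwa [map_one])
  have h4 : B.valuation Y ^ 2 = B.valuation x ^ 3 := by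
    rw [← map_pow B.valuation x, ← h, map_mul, h3, pow_two]
  have h5 : (B.valuation x ^ 2) ^ 2 < B.valuation Y ^ 2 := pow_lt_pow_left₀ hcon zero_le (by norm_num)
  have h6 : B.valuation x ^ 3 < (B.valuation x ^ 2) ^ 2 := by
    rw [← pow_mul]
    exact pow_lt_pow_right₀ hx (by norm_num)
  exact absurd h4 (ne_of_gt (lt_trans h6 h5))

theorem is_Y3 {x Y : ℂ} (h : Y * (Y + 1) = x ^ 3) (hx : B.valuation x ≤ 1) : B.valuation Y ≤ 1 := by
  by_contra hcon
  push Not at hcon
  have h3 : B.valuation (Y + 1) = B.valuation Y :=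
    Valuation.map_add_eq_of_lt_left _ (by rwa [map_one])
  have h4 : B.valuation Y ^ 2 = B.valuation x ^ 3 := by
    rw [← map_pow B.valuation x, ← h, map_mul, h3, pow_two]
  have h5 : (1 : B.ValueGroup) < B.valuation Y ^ 2 := one_lt_pow₀ hcon (by norm_num)
  rw [h4] at h5
  exact absurd h5 (not_lt.2 (pow_le_one₀ zero_le hx))

/-- a point of the kernel of reduction plus another point -/
theorem is_core {x y x3 y3 X L N : ℂ} (c1 : y ^ 2 = 4 * x ^ 3 + 1) (c3 : y3 ^ 2 = 4 * x3 ^ 3 + 1)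
    (l1 : y = L * x + N) (l3 : y3 = L * x3 + N) (e1 : 4 * (x + x3 + X) = L ^ 2)
    (h1 : 1 < B.valuation x) (h3 : B.valuation x3 ≤ 1) : B.valuation X ≤ 1 := by
  obtain ⟨Y, hY⟩ : ∃ Y, Y = (y - 1) / 2 := ⟨_, rfl⟩
  obtain ⟨Z, hZ⟩ : ∃ Z, Z = (y3 - 1) / 2 := ⟨_, rfl⟩
  have hy : y = 2 * Y + 1 := by rw [hY]; ring
  have hy3 : y3 = 2 * Z + 1 := by rw [hZ]; ring
  have hYx : Y * (Y + 1) = x ^ 3 := by
    rw [hy] at c1
    linear_combination (1 / 4) * c1
  have hZx : Z * (Z + 1) = x3 ^ 3 := by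
    rw [hy3] at c3
    linear_combination (1 / 4) * c3
  have hL : L * (x - x3) = 2 * (Y - Z) := by
    rw [hy] at l1
    rw [hy3] at l3
    linear_combination l3 - l1
  have key : X * (x - x3) ^ 2 = -(Y * (1 + 2 * Z)) - Z + x ^ 2 * x3 + x * x3 ^ 2 := by
    linear_combination (1 / 4) * (x - x3) ^ 2 * e1 + (1 / 4) * (L * (x - x3) + 2 * (Y - Z)) * hL +
      hYx + hZx
  have vY := is_Y1 hYx h1
  have vZ := is_Y3 hZx h3
  have hs : (1 : B.ValueGroup) ≤ B.valuation x ^ 2 := (one_lt_pow₀ h1 (by norm_num)).le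
  have v2 : B.valuation (2 : ℂ) ≤ 1 := by
    have h := i2_emb_le (B := B) (2 : Eis)
    rwa [map_ofNat] at h
  have vZ2 : B.valuation (1 + 2 * Z) ≤ 1 := by
    refine (B.valuation.map_add _ _).trans (max_le (by rw [map_one]) ?_)
    rw [map_mul]
    calc B.valuation 2 * B.valuation Z ≤ 1 * 1 := mul_le_mul' v2 vZ
      _ = 1 := one_mul _
  have t1 : B.valuation (-(Y * (1 + 2 * Z))) ≤ B.valuation x ^ 2 := by
    rw [Valuation.map_neg, map_mul]
    calc B.valuation Y * B.valuation (1 + 2 * Z) ≤ B.valuation x ^ 2 * 1 := mul_le_mul' vY vZ2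
      _ = _ := mul_one _
  have t2 : B.valuation (x ^ 2 * x3) ≤ B.valuation x ^ 2 := by
    rw [map_mul, map_pow]
    calc B.valuation x ^ 2 * B.valuation x3 ≤ B.valuation x ^ 2 * 1 := mul_le_mul' le_rfl h3
      _ = _ := mul_one _
  have t3 : B.valuation (x * x3 ^ 2) ≤ B.valuation x ^ 2 := by
    rw [map_mul, map_pow]
    calc B.valuation x * B.valuation x3 ^ 2 ≤ B.valuation x * 1 :=
          mul_le_mul' le_rfl (pow_le_one₀ zero_le h3)
      _ = B.valuation x ^ 1 := by rw [mul_one, pow_one]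
      _ ≤ _ := pow_le_pow_right₀ h1.le (by norm_num)
  have v : B.valuation (X * (x - x3) ^ 2) ≤ B.valuation x ^ 2 := by
    rw [key]
    refine (B.valuation.map_add _ _).trans (max_le ?_ t3)
    refine (B.valuation.map_add _ _).trans (max_le ?_ t2)
    exact (B.valuation.map_sub _ _).trans (max_le t1 (vZ.trans hs))
  have hd : B.valuation (x - x3) = B.valuation x :=
    Valuation.map_sub_eq_of_lt_left _ (lt_of_le_of_lt h3 h1)
  rw [map_mul, map_pow, hd] at v
  by_contra hcon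
  push Not at hcon
  have h0 : (0 : B.ValueGroup) < B.valuation x ^ 2 := lt_of_lt_of_le zero_lt_one hs
  have h5 : 1 * B.valuation x ^ 2 < B.valuation X * B.valuation x ^ 2 :=
    (mul_lt_mul_iff_left₀ h0).2 hcon
  rw [one_mul] at h5
  exact absurd v (not_le.2 h5)

theorem is_one {z z3 : ℂ} (hz : Nl z) (hz3 : Nl z3) (h1 : 1 < B.valuation (xw z))
    (h3 : B.valuation (xw z3) ≤ 1) : Nl (z + z3) ∧ B.valuation (xw (z + z3)) ≤ 1 := by
  have h : Nl (z + z3) := by
    rintro ⟨a, ha⟩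
    have e : z3 = -z + emb a := by rw [ha]; ring
    rw [e, xw_add, xw_neg] at h3
    exact absurd h1 (not_lt.2 h3)
  refine ⟨h, ?_⟩
  obtain ⟨L, N, l1, l3, -, e1, -, -⟩ := i1_line hz hz3 h
  exact is_core (weq z hz) (weq z3 hz3) l1 l3 e1 h1 h3

/-- the kernel of reduction is a subgroup -/
theorem is_add {u v : ℂ} (hu : Kr B u) (hv : Kr B v) : Kr B (u + v) := by
  by_cases lu : u ∈ Set.range emb
  · obtain ⟨a, rfl⟩ := lu
    rw [add_comm]
    exact hv.add_emb a
  by_cases lv : v ∈ Set.range emb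
  · obtain ⟨a, rfl⟩ := lv
    exact hu.add_emb a
  by_cases luv : u + v ∈ Set.range emb
  · exact Or.inl luv
  right
  by_contra hcon
  push Not at hcon
  have hxu : 1 < B.valuation (xw u) := hu.resolve_left lu
  have hxv : 1 < B.valuation (xw v) := hv.resolve_left lv
  have l3 : Nl (-(u + v)) := by
    rintro ⟨a, ha⟩
    exact luv ⟨-a, by rw [map_neg, ha]; ring⟩
  have h := (is_one (z3 := -(u + v)) lu l3 hxu (by rwa [xw_neg])).2
  have e : u + -(u + v) = -v := by ring
  rw [e, xw_neg] at h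
  exact absurd hxv (not_lt.2 h)

theorem is_all {z : ℂ} (hz : Kr B z) (a : Eis) : Kr B (emb a * z) := by
  have hnat : ∀ n : ℕ, Kr B (emb (n : Eis) * z) := by
    intro n
    induction n with
    | zero => exact Or.inl ⟨0, by rw [Nat.cast_zero, map_zero, zero_mul]⟩
    | succ n ih =>
      have e : emb ((n + 1 : ℕ) : Eis) * z = emb (n : Eis) * z + z := by
        rw [Nat.cast_succ, map_add, map_one]
        ring
      rw [e]
      exact is_add ih hz
  have hint : ∀ n : ℤ, Kr B (emb (n : Eis) * z) := by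
    intro n
    obtain ⟨k, rfl | rfl⟩ := n.eq_nat_or_neg
    · simpa using hnat k
    · have h := (hnat k).neg
      have e : emb (((-(k : ℤ) : ℤ)) : Eis) * z = -(emb (k : Eis) * z) := by
        rw [Int.cast_neg, Int.cast_natCast, map_neg]
        ring
      rw [e]
      exact h
  have e : emb a * z = emb (a.re : Eis) * z + w * (emb (a.im : Eis) * z) := by
    rw [map_intCast, map_intCast, emb_apply]
    ring
  rw [e]
  exact is_add (hint _) (hint _).w_mul

theorem is_nl {z : ℂ} {α : Eis} (hz : Nl (emb α * z)) : Nl z := by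
  rintro ⟨a, rfl⟩
  exact hz ⟨α * a, map_mul _ _ _⟩

theorem is_int {p : Eis} (hp : Prime p) (h3 : ¬ p ∣ 3) (hB : B.valuation (emb p) < 1) {z : ℂ} {m α : Eis}
    (hmp : IsCoprime m p) (hml : ¬ la ∣ m) (hz : Nl (emb α * z)) (hm : emb m * (emb α * z) ∈ Set.range emb) :
    B.valuation (xw z) ≤ 1 := by
  by_contra hcon
  push Not at hcon
  have h1 : Kr B (emb α * z) := is_all (Or.inr hcon) α
  have h2 : 1 < B.valuation (xw (emb α * z)) := h1.resolve_left hz
  exact absurd h2 (not_lt.2 (u2_int hp h3 hB hz hm hmp hml))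

theorem is_la {z : ℂ} {m α : Eis} (hml : ¬ la ∣ m) (hz : Nl (emb α * z))
    (hm : emb m * (emb α * z) ∈ Set.range emb) :
    Nl (emb α * (emb la * z)) ∧ emb m * (emb α * (emb la * z)) ∈ Set.range emb := by
  have h := u2_nl_la hz hm hml
  have e : emb α * (emb la * z) = emb la * (emb α * z) := by ring
  rw [e]
  exact h

theorem is_x {p : Eis} (hp : Prime p) (h3 : ¬ p ∣ 3) (hB : B.valuation (emb p) < 1) {z : ℂ} {m α : Eis}
    (hmp : IsCoprime m p) (hml : ¬ la ∣ m) (hz : Nl (emb α * z)) (hm : emb m * (emb α * z) ∈ Set.range emb) :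
    B.valuation (xw z) = 1 := by
  have vla := u2_la hp h3 hB
  refine le_antisymm (is_int hp h3 hB hmp hml hz hm) ?_
  by_contra hlt
  push Not at hlt
  obtain ⟨hlz, hmz⟩ := is_la hml hz hm
  have hx0 : xw z ≠ 0 := by
    rcases CUL.u4_la_cases z with ⟨_, h⟩ | ⟨_, h, _⟩
    · exact absurd h (is_nl hlz)
    · exact h
  have h5 := is_int hp h3 hB hmp hml hlz hmz
  rw [CUL.xw_la, map_div₀, map_mul, map_pow, map_pow, vla, one_pow, one_mul, CUL.u7_lt B hlt] at h5
  have h6' : B.valuation (xw z) ≠ 0 := by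
    rw [Valuation.ne_zero_iff]
    exact hx0
  have h7 : B.valuation (xw z) ^ 2 < 1 := pow_lt_one₀ zero_le hlt (by norm_num)
  have h8 : (1 : B.ValueGroup) < 1 / B.valuation (xw z) ^ 2 := by
    rw [one_div]
    exact (one_lt_inv₀ (zero_lt_iff.2 (pow_ne_zero 2 h6'))).2 h7
  exact absurd h5 (not_le.2 h8)

theorem is_x3 {p : Eis} (hp : Prime p) (h3 : ¬ p ∣ 3) (hB : B.valuation (emb p) < 1) {z : ℂ} {m α : Eis}
    (hmp : IsCoprime m p) (hml : ¬ la ∣ m) (hz : Nl (emb α * z)) (hm : emb m * (emb α * z) ∈ Set.range emb) :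
    B.valuation (xw z ^ 3 + 1) = 1 := by
  have vla := u2_la hp h3 hB
  obtain ⟨hlz, hmz⟩ := is_la hml hz hm
  have h5 := is_x hp h3 hB hmp hml hlz hmz
  have h6 := is_x hp h3 hB hmp hml hz hm
  rw [CUL.xw_la, map_div₀, map_mul, map_pow, map_pow, vla, h6, one_pow, one_mul, div_one] at h5
  exact h5

theorem is_U {p : Eis} (hp : Prime p) (h3 : ¬ p ∣ 3) (hB : B.valuation (emb p) < 1) {z : ℂ} {m α : Eis}
    (hmp : IsCoprime m p) (hml : ¬ la ∣ m) (hz : Nl (emb α * z)) (hm : emb m * (emb α * z) ∈ Set.range emb) :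
    B.valuation (Um z) = 1 := by
  have hx := is_x hp h3 hB hmp hml hz hm
  have hx3 := is_x3 hp h3 hB hmp hml hz hm
  have hc := weq z (is_nl hz)
  have hw2 := CUL.w2
  have hw3 := CUL.w3
  have hww : B.valuation w = 1 := CUL.w_w B
  have hww2 : B.valuation (w ^ 2) = 1 := by rw [map_pow, hww, one_pow]
  by_cases h2 : p ∣ 2
  · obtain ⟨Y, hY⟩ : ∃ Y, Y = (ym z - 1) / 2 := ⟨_, rfl⟩
    have hYm : ym z = 2 * Y + 1 := by rw [hY]; ring
    have hyw : yw z = -(2 * Y + 1) := by
      rw [← hYm, ym, neg_neg]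
    have h4 : Y * (Y + 1) = xw z ^ 3 := by
      rw [hyw] at hc
      linear_combination (1 / 4) * hc
    have h5 : B.valuation Y ≤ 1 := by
      by_contra hcon
      push Not at hcon
      have h6 : B.valuation (Y + 1) = B.valuation Y :=
        Valuation.map_add_eq_of_lt_left _ (by rwa [map_one])
      have h7 : B.valuation (Y * (Y + 1)) = 1 := by rw [h4, map_pow, hx, one_pow]
      rw [map_mul, h6] at h7
      have h8 : 1 < B.valuation Y * B.valuation Y := by
        rw [← pow_two]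
        exact one_lt_pow₀ hcon (by norm_num)
      exact absurd h7 (ne_of_gt h8)
    have h6 : B.valuation (w - Y) ≤ 1 := (B.valuation.map_sub _ _).trans (max_le hww.le h5)
    have h7 : B.valuation (Y - w ^ 2) ≤ 1 := (B.valuation.map_sub _ _).trans (max_le h5 hww2.le)
    have h8 : (Y - w ^ 2) * (w - Y) = -(xw z ^ 3 + 1) := by
      rw [← h4]
      linear_combination Y * hw2 - hw3
    have h9 : B.valuation ((Y - w ^ 2) * (w - Y)) = 1 := by
      rw [h8, Valuation.map_neg, hx3]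
    obtain ⟨h10, h11⟩ := u2_unit_of_mul h7 h6 h9
    have e1 : th + ym z = 2 * (Y - w ^ 2) := by
      rw [th, hYm]
      linear_combination hw2
    have e2 : th - ym z = 2 * (w - Y) := by
      rw [th, hYm]
      linear_combination -hw2
    have e3 : Um z = (Y - w ^ 2) / (w - Y) := by
      rw [Um, e1, e2, mul_div_mul_left _ _ (by norm_num : (2 : ℂ) ≠ 0)]
    rw [e3, map_div₀, h10, h11, div_one]
  · have v2 := u2_two_eq hp hB h2
    have v4 := i1_four B v2
    have h5 : B.valuation (ym z) ≤ 1 := by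
      rw [ym, Valuation.map_neg]
      exact i1_y_le B v2 hc hx.le
    have hth : B.valuation th ≤ 1 := by
      rw [th]
      exact (B.valuation.map_sub _ _).trans (max_le hww.le hww2.le)
    have h6 : (th + ym z) * (th - ym z) = -(4 * (xw z ^ 3 + 1)) := by
      rw [th, ym]
      linear_combination -hc + (w - 2) * hw3 + hw2
    have h7 : B.valuation ((th + ym z) * (th - ym z)) = 1 := by
      rw [h6, Valuation.map_neg, map_mul, v4, hx3, one_mul]
    obtain ⟨h10, h11⟩ := u2_unit_of_mul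
      ((B.valuation.map_add _ _).trans (max_le hth h5)) ((B.valuation.map_sub _ _).trans (max_le hth h5)) h7
    rw [Um, map_div₀, h10, h11, div_one]

end JGS
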