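import Pool.Agent.JGL.U5
import Pool.Agent.JGS.Defs

/-!
# [JGS-L] the absolute value of the elliptic unit is `1` if some `p ∈ T` splits

PROOF. As `u5_T`, `u5_over`, `u5_even`, `u5_odd` (JGL/U5.lean): by `u5_step` (general), `S(f ∏_{p ∈ T} p) = ∏_{p ∈ T} (1 - q(p)) S(f)`, and the product is `0` (`Spl`). So `log ‖e‖ = 0` and `‖e‖ = 1` (`e ≠ 0`: `u1_ee_ne`, `u1_eo_ne` or directly).
-/

set_option autoImplicit false

open NumberField IsDedekindDomain Filter Topology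
open scoped Classical ComplexConjugate

namespace JGS

open CM27 JZ JGL
open CU (la eE)
open CUL (Nl ez si ta DS Cont LV IsRep rp cr mn mo zw OT GalU W3 W9)
open JL (N1 KD sD Psi6)

theorem l_T {G : ℂ → ℂ} (hG : u5G G) {f : Eis} {q : Eis → ℤ} (hq : u5Q f q) (T : Finset Eis)
    (hT : ∀ p ∈ T, Prime p ∧ Primary p ∧ ¬ p ∣ f) :
    u5Q (f * ∏ p ∈ T, p) (u5T T q) ∧
      u5S G (f * ∏ p ∈ T, p) (u5T T q) = (∏ p ∈ T, (1 - (q p : ℂ))) * u5S G f q := by
  have := eis_isDomain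
  induction T using Finset.induction_on with
  | empty =>
    have h1 : u5T ∅ q = q := by
      funext x
      simp [u5T]
    rw [Finset.prod_empty, mul_one, h1, Finset.prod_empty, one_mul]
    exact ⟨hq, rfl⟩
  | insert p T hp ih =>
    obtain ⟨ih1, ih2⟩ := ih (fun p' hp' => hT p' (Finset.mem_insert_of_mem hp'))
    obtain ⟨h1, h2, h3⟩ := hT p (Finset.mem_insert_self p T)
    have h5 : ∀ p' ∈ T, ¬ p' ∣ p := by
      intro p' hp'
      obtain ⟨k1, k2, -⟩ := hT p' (Finset.mem_insert_of_mem hp')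
      exact CUL.not_dvd_of_ne k1 h1 k2 h2 (fun h => hp (h ▸ hp'))
    have h6 : ∀ p' ∈ T, ¬ p ∣ p' := by
      intro p' hp'
      obtain ⟨k1, k2, -⟩ := hT p' (Finset.mem_insert_of_mem hp')
      exact CUL.not_dvd_of_ne h1 k1 h2 k2 (fun h => hp (h ▸ hp'))
    have h7 : ¬ p ∣ f * ∏ p ∈ T, p := by
      intro h
      rcases h1.dvd_or_dvd h with h | h
      · exact h3 h
      · obtain ⟨p', hp', hd⟩ := (h1.dvd_finsetProd_iff _).1 h
        exact h6 p' hp' hd
    have e1 : f * ∏ p ∈ insert p T, p = (f * ∏ p ∈ T, p) * p := by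
      rw [Finset.prod_insert hp]; ring
    have e2 : u5T (insert p T) q = u5q p (u5T T q) := by
      funext x
      show (if ∃ p' ∈ insert p T, p' ∣ x then 0 else q x) = if p ∣ x then 0 else (if ∃ p' ∈ T, p' ∣ x then 0 else q x)
      by_cases hx : p ∣ x
      · rw [if_pos ⟨p, Finset.mem_insert_self p T, hx⟩, if_pos hx]
      · rw [if_neg hx]
        by_cases hx' : ∃ p ∈ T, p ∣ x
        · obtain ⟨p', hp', hd⟩ := hx'
          rw [if_pos ⟨p', Finset.mem_insert_of_mem hp', hd⟩, if_pos ⟨p', hp', hd⟩]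
        · rw [if_neg hx', if_neg]
          rintro ⟨p', hp', hd⟩
          rcases Finset.mem_insert.1 hp' with h | h
          · exact hx (h ▸ hd)
          · exact hx' ⟨p', h, hd⟩
    have e3 : u5T T q p = q p := by
      unfold u5T
      rw [if_neg]
      rintro ⟨p', hp', hd⟩
      exact h5 p' hp' hd
    rw [e1, e2]
    refine ⟨u5_step1 ih1 h1 h2 h7, ?_⟩
    rw [u5_step hG ih1 h1 h2 h7, e3, ih2, Finset.prod_insert hp, mul_assoc]

theorem l_over {G : ℂ → ℂ} (hG : u5G G) {Q L : Lev} {T : Finset Eis} (ov : OverW Q T L) (hs : Spl Q T) :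
    u5S G L.f L.q = 0 := by
  obtain ⟨h1, h2⟩ := l_T hG (u5_base Q) T ov.hT
  have e : u5T T Q.q = L.q := by
    funext x
    by_cases hx : IsCoprime x L.f
    · rw [ov.hq x hx, u5T, if_neg]
      rintro ⟨p, hp, hd⟩
      have h3 : p ∣ L.f := by
        rw [ov.hf]
        exact (Finset.dvd_prod_of_mem _ hp).mul_left _
      exact (ov.hT p hp).1.not_isUnit (hx.isUnit_of_dvd' hd h3)
    · rw [L.q_zero x hx]
      rw [ov.hf] at hx
      exact h1.zero x hx
  obtain ⟨p, hp, hqp⟩ := hs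
  have h3 : ∏ p ∈ T, (1 - (Q.q p : ℂ)) = 0 := by
    refine Finset.prod_eq_zero hp ?_
    rw [hqp, Int.cast_one, sub_self]
  rw [← e, ov.hf, h2, h3, zero_mul]

theorem l_norm {x : ℂ} (hx : x ≠ 0) (h : ((Real.log ‖x‖ : ℝ) : ℂ) = 0) : ‖x‖ = 1 := by
  have h1 : Real.log ‖x‖ = 0 := by exact_mod_cast h
  rcases Real.log_eq_zero.1 h1 with h2 | h2 | h2
  · exact absurd h2 (norm_ne_zero_iff.2 hx)
  · exact h2
  · have h3 := norm_nonneg x
    linarith

theorem norm_even {Q L : Lev} {T : Finset Eis} (ov : OverW Q T L) (hs : Spl Q T) (h : L.ep = 0) {R : Finset Eis}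
    (hR : IsR L R) : ‖ee L R‖ = 1 := by
  have hne : ∀ c ∈ R, xw (pt L c) ≠ 0 := fun c hc => CUL.u7_ne (OT_pt L (hR.1 c hc))
  have h1 := l_over u5_Gx ov hs
  rw [u5_sum u5_Gx hR (u5_unit_x L h)] at h1
  have h2 := u5_log L R xw hne
  refine l_norm (Finset.prod_ne_zero_iff.2 fun c hc => zpow_ne_zero _ (hne c hc)) ?_
  rw [ee, h2]
  exact (mul_eq_zero.1 h1).resolve_left (by norm_num)

theorem norm_odd {Q L : Lev} {T : Finset Eis} (ov : OverW Q T L) (hs : Spl Q T) (h : L.ep = 1) {R : Finset Eis}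
    (hR : IsR L R) : ‖eo L R‖ = 1 := by
  have hne : ∀ c ∈ R, Um (pt L c) ≠ 0 := fun c hc =>
    u4_ne (OT_pt L (hR.1 c hc)).1 (u4_OT_x3 (OT_pt L (hR.1 c hc)))
  have h1 := l_over u5_GU ov hs
  rw [u5_sum u5_GU hR (u5_unit_U L h)] at h1
  have h2 := u5_log L R Um hne
  refine l_norm (Finset.prod_ne_zero_iff.2 fun c hc => zpow_ne_zero _ (hne c hc)) ?_
  rw [eo, h2]
  exact (mul_eq_zero.1 h1).resolve_left (by norm_num)

end JGS
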