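import Pool.Agent.JG.SQ

/-!
# [JGS-Q] minimality, Néron factors, L-series and period of `E_D` for every sixth-power-free `D` (JG/SQ.lean without the class `ClG`)
-/

set_option autoImplicit false

open NumberField IsDedekindDomain ArithmeticFunction
open scoped Classical ComplexConjugate

namespace JGS

open JG

open CM27 CMT NAB CF JZ
open JD (ED ED_map jK)
open CU (la om eE t5b_lo)

/-- nonzero and sixth-power-free -/
def Fr6 (D : Eis) : Prop := D ≠ 0 ∧ ∀ p : Eis, Prime p → ¬ p ^ 6 ∣ D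

/-- [SPa] -/
theorem exists_kc {D : Eis} (hD : Fr6 D) {b : Eis} (hb : Prime b) : ∃ (k : ℕ) (c : Eis), k ≤ 5 ∧ ¬ b ∣ c ∧ D = b ^ k * c := by
  classical
  have hex : ∃ n : ℕ, ¬ b ^ n ∣ D := ⟨6, hD.2 b hb⟩
  have h6 : Nat.find hex ≤ 6 := Nat.find_min' hex (hD.2 b hb)
  have h0 : Nat.find hex ≠ 0 := by
    intro h0
    have h1 := Nat.find_spec hex
    rw [h0, pow_zero] at h1
    exact h1 (one_dvd D)
  have h1 : b ^ (Nat.find hex - 1) ∣ D := by
    by_contra h2
    have h3 := Nat.find_min' hex h2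
    omega
  obtain ⟨c, hc⟩ := h1
  refine ⟨Nat.find hex - 1, c, by omega, ?_, hc⟩
  rintro ⟨c', rfl⟩
  apply Nat.find_spec hex
  refine ⟨c', ?_⟩
  have e : Nat.find hex = Nat.find hex - 1 + 1 := by omega
  rw [e, pow_succ, mul_assoc]
  exact hc

section
variable {D : Eis} (v : HeightOneSpectrum (𝓞 KK))

/-- [SPb] -/
theorem places (hD : Fr6 D) :
    (v.asIdeal = Ideal.span {eE la} ∧ ∃ (k : ℕ) (c : Eis), k ≤ 5 ∧ ¬ la ∣ c ∧ D = la ^ k * c) ∨
    (v.asIdeal = Ideal.span {eE (2 : Eis)} ∧ IsUnit (3 : v.adicCompletionIntegers KK) ∧ Irreducible (2 : v.adicCompletionIntegers KK) ∧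
      ∃ (k : ℕ) (c : Eis), k ≤ 5 ∧ ¬ (2 : Eis) ∣ c ∧ D = 2 ^ k * c) ∨
    (∃ b : Eis, Prime b ∧ Primary b ∧ v.asIdeal = Ideal.span {eE b} ∧ ¬ b ∣ 6 ∧ IsUnit (6 : v.adicCompletionIntegers KK) ∧
      ∃ (k : ℕ) (c : Eis), k ≤ 5 ∧ ¬ b ∣ c ∧ D = b ^ k * c) := by
  have hdom : IsDomain Eis := eis_isDomain
  rcases CU.gen_cases (v := v) with hv | ⟨b, hb, hp, hv⟩
  · left
    exact ⟨hv, exists_kc hD CU.la_prime⟩
  right
  have hb3 : ¬ b ∣ 3 := CU.primary_not_three hp hb
  by_cases hb2 : b ∣ 2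
  · left
    have hass : Associated b 2 := hb.irreducible.associated_of_dvd TH.b4_two_prime.irreducible hb2
    have hv2 : v.asIdeal = Ideal.span {eE (2 : Eis)} := by
      rw [hv]
      exact CU.s1_span hass
    have u3 : IsUnit (3 : v.adicCompletionIntegers KK) := by
      have h1 := CU.t5b_unit hv 3 hb3
      rwa [map_ofNat] at h1
    refine ⟨hv2, u3, ?_, exists_kc hD TH.b4_two_prime⟩
    have h1 := CU.t5b_irr' TH.b4_two_prime hv2
    rwa [map_ofNat] at h1
  · right
    have h6 : ¬ b ∣ 6 := by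
      intro h3
      have h4 : (6 : Eis) = 2 * 3 := by norm_num
      rw [h4] at h3
      exact (hb.dvd_or_dvd h3).elim hb2 hb3
    refine ⟨b, hb, hp, hv, h6, ?_, exists_kc hD hb⟩
    have h1 := CU.t5b_unit hv 6 h6
    rwa [map_ofNat] at h1

theorem la3 (hv : v.asIdeal = Ideal.span {eE la}) {k : ℕ} {c : Eis} (he : D = la ^ k * c) (hG : ¬ GoodL D) :
    k = 3 → ∀ η : v.adicCompletionIntegers KK, (η = 1 ∨ η = -1) → ¬ t5b_lo v la ^ 3 ∣ t5b_lo v c - η := by
  have hη : ∀ η' : v.adicCompletionIntegers KK, (η' = 1 ∨ η' = -1) →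
      ∃ η : Eis, (η = 1 ∨ η = -1) ∧ η' = t5b_lo v η := by
    intro η' hη'
    rcases hη' with rfl | rfl
    · exact ⟨1, Or.inl rfl, (map_one _).symm⟩
    · exact ⟨-1, Or.inr rfl, by rw [map_neg, map_one]⟩
  rintro rfl η' hη' h
  obtain ⟨η, hη1, rfl⟩ := hη η' hη'
  rw [← map_sub] at h
  obtain ⟨c', hc'⟩ := (dvd_powG CU.la_prime hv 3 (c - η)).1 h
  refine hG ⟨η, c', hη1, ?_⟩
  rw [he]
  linear_combination la ^ 3 * hc'

/-- [SQa] -/
theorem min_allG (hD : Fr6 D) (h2 : v.asIdeal = Ideal.span {eE (2 : Eis)} → ¬ Good2 D)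
    (h3 : v.asIdeal = Ideal.span {eE la} → ¬ GoodL D) (T : WeierstrassCurve.VariableChange (v.adicCompletion KK))
    (hT : (T • (ED (t5b_lo v D)).map (algebraMap (v.adicCompletionIntegers KK) (v.adicCompletion KK))).IsMinimal
      (v.adicCompletionIntegers KK)) :
    (IsDiscreteValuationRing.maximalIdeal (v.adicCompletionIntegers KK)).valuation (v.adicCompletion KK)
      (T.u : v.adicCompletion KK) = 1 := by
  rcases places v hD with ⟨hv, k, c, hk, hc, he⟩ | ⟨hv, h3u, h2i, k, c, hk, hc, he⟩ |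
    ⟨b, hb, -, hv, h6, h6u, k, c, hk, hc, he⟩
  · have hlo : t5b_lo v D = t5b_lo v la ^ k * t5b_lo v c := by rw [he, map_mul, map_pow]
    rw [hlo] at hT
    exact unit_la' (CU.t5b_irr' CU.la_prime hv) (CU.t5b_eps v) (CU.t5b_three v) (CU.t5b_res hv) _
      (CU.t5b_unit hv _ hc) k hk (la3 v hv he (h3 hv)) T hT
  · have hlo : t5b_lo v D = 2 ^ k * t5b_lo v c := by rw [he, map_mul, map_pow, map_ofNat]
    rw [hlo] at hT
    exact unit_two' h2i _ (CU.t5b_unit hv _ hc) k hk
      (fun hk4 x => cond_two4 v hv (h2 hv) hc (by rw [he, hk4]) x) T hT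
  · have hlo : t5b_lo v D = t5b_lo v b ^ k * t5b_lo v c := by rw [he, map_mul, map_pow]
    rw [hlo] at hT
    exact unit_p' h6u (t5b_lo v b) (t5b_lo v c) (CU.t5b_irr' hb hv) (CU.t5b_unit hv _ hc) k hk T hT

theorem sqc_neron (hD : Fr6 D) (h2 : v.asIdeal = Ideal.span {eE (2 : Eis)} → ¬ Good2 D)
    (h3 : v.asIdeal = Ideal.span {eE la} → ¬ GoodL D) : SBSD.neron (ED (jK D)) v = 1 := by
  refine PI.neron_of KK v (ED (jK D)) fun T hT => ?_
  have h1 : (ED (jK D)).baseChange (v.adicCompletion KK) =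
      (ED (t5b_lo v D)).map (algebraMap (v.adicCompletionIntegers KK) (v.adicCompletion KK)) := by
    rw [ED_map]
    exact JD.bc v D
  rw [h1] at hT
  exact min_allG v hD h2 h3 T hT

/-- [SQc] -/
theorem neron_G (hD : Fr6 D) : SBSD.neron (ED (jK D)) v =
    (if v.asIdeal = Ideal.span {eE (2 : Eis)} then (if Good2 D then 4 else 1) else 1) *
      (if v.asIdeal = Ideal.span {eE la} then (if GoodL D then 3 else 1) else 1) := by
  by_cases h2 : v.asIdeal = Ideal.span {eE (2 : Eis)}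
  · have h3 := sqc_ne v h2
    rw [if_pos h2, if_neg h3, mul_one]
    by_cases hG : Good2 D
    · rw [if_pos hG]
      obtain ⟨s, c, hs, hDe⟩ := hG
      obtain ⟨hJ, C, hCu, hC⟩ := good_two v h2 hs hDe
      have hi := CU.t5b_irr' TH.b4_two_prime h2
      rw [map_ofNat] at hi
      have h4 := neron_u KK v (ED (jK D)) _ hJ C 2 hi hCu hC
      rw [h4, h2, CU.absNorm_span]
      have h5 : (2 : Eis).norm.natAbs = 4 := by decide
      rw [h5]
      norm_num
    · rw [if_neg hG]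
      exact sqc_neron v hD (fun _ => hG) (fun h => absurd h h3)
  · rw [if_neg h2, one_mul]
    by_cases h3 : v.asIdeal = Ideal.span {eE la}
    · rw [if_pos h3]
      by_cases hG : GoodL D
      · rw [if_pos hG]
        obtain ⟨η, c, hη, hDe⟩ := hG
        obtain ⟨hJ, C, hCu, hC⟩ := good_la v h3 hη hDe
        have hi := CU.t5b_irr' CU.la_prime h3
        have h4 := neron_u KK v (ED (jK D)) _ hJ C _ hi hCu hC
        rw [h4, h3, CU.absNorm_span]
        have h5 : la.norm.natAbs = 3 := by decide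
        rw [h5]
        norm_num
      · rw [if_neg hG]
        exact sqc_neron v hD (fun h => absurd h h2) (fun _ => hG)
    · rw [if_neg h3]
      exact sqc_neron v hD (fun h => absurd h h2) (fun h => absurd h h3)

end

/-- [SQc] -/
theorem finprod_neronG {D : Eis} (hD : Fr6 D) :
    ∏ᶠ v : HeightOneSpectrum (𝓞 KK), SBSD.neron (ED (jK D)) v = kap D := by
  obtain ⟨h1, h2⟩ := sqc_single (2 : Eis) TH.b4_two_prime (if Good2 D then 4 else 1)
  obtain ⟨h3, h4⟩ := sqc_single la CU.la_prime (if GoodL D then 3 else 1)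
  have h5 : (fun v : HeightOneSpectrum (𝓞 KK) => SBSD.neron (ED (jK D)) v) = fun v =>
      (if v.asIdeal = Ideal.span {eE (2 : Eis)} then (if Good2 D then 4 else 1) else 1) *
      (if v.asIdeal = Ideal.span {eE la} then (if GoodL D then 3 else 1) else 1) := by
    funext v
    exact neron_G v hD
  rw [h5, finprod_mul_distrib h2 h4, h1, h3]
  unfold kap
  push_cast
  rfl

/-- [SQc] -/
theorem period_G {D : Eis} (hD : Fr6 D) (h0 : D ≠ 0) :
    SBSD.period (ED (jK D)) = √3 * Om ^ 2 / ‖emb (4 * D)‖ ^ ((1 : ℝ) / 3) * kap D := by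
  have h1 : ∀ v : InfinitePlace KK,
      SBSD.archPeriod (ED (jK D)) v = √3 * Om ^ 2 / ‖emb (4 * D)‖ ^ ((1 : ℝ) / 3) := by
    intro v
    have hne2 : v.embedding (jK D) ≠ 0 := by
      rw [JD.jK_apply, ← norm_ne_zero_iff, CU.norm_embedding_KK, norm_ne_zero_iff, ← map_zero emb]
      exact fun h => h0 (emb_injective h)
    have h5 : ‖4 * v.embedding (jK D)‖ = ‖emb (4 * D)‖ := by
      rw [norm_mul, JD.jK_apply, CU.norm_embedding_KK, map_mul, norm_mul]
      congr 1
      have h6 : emb (4 : Eis) = 4 := map_ofNat emb 4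
      rw [h6]
    unfold SBSD.archPeriod
    rw [dif_neg (CU.not_isReal_KK v), ED_map, JD.complexArea_ED _ hne2, h5]
    ring
  unfold SBSD.period
  rw [finprod_neronG hD]
  simp only [h1]
  rw [Finset.prod_const, Finset.card_univ, CU.card_place_KK, pow_one]

theorem sqd_key {D p₂ pl : Eis} (v : HeightOneSpectrum (𝓞 KK)) (hD : Fr6 D) (h1 : ¬ IsUnit (6 * t5b_lo v D))
    (h2 : v.asIdeal = Ideal.span {eE (2 : Eis)} → ¬ Good2 D) (h3 : v.asIdeal = Ideal.span {eE la} → ¬ GoodL D)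
    (h4 : psvG D p₂ pl v = 0) :
    ∃ a b : ℤ, (ED (algebraMap (v.adicCompletionIntegers KK) (v.adicCompletion KK) (t5b_lo v D))).localPolynomial
        (v.adicCompletionIntegers KK) = 1 - Polynomial.C a * Polynomial.X + Polynomial.C b * Polynomial.X ^ 2 ∧
      (a : ℂ) = emb (psvG D p₂ pl v) + conj (emb (psvG D p₂ pl v)) ∧
      (b : ℂ) = emb (psvG D p₂ pl v) * conj (emb (psvG D p₂ pl v)) := by
  refine ⟨0, 0, ?_, ?_, ?_⟩
  · rw [JD.localPoly_bad _ _ _ h1 (fun T hT => min_allG v hD h2 h3 T hT)]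
    simp
  · rw [h4]
    simp
  · rw [h4]
    simp

/-- [SQd] -/
theorem LCW_G {D p₂ pl : Eis} (hD : Fr6 D) (h2 : Val2 D p₂) (h3 : ValL D pl) :
    LCW KK (ED (jK D)) = IL KK (fun I => emb (PsiG D p₂ pl I)) * IL KK (fun I => conj (emb (PsiG D p₂ pl I))) := by
  have hone : PsiG D p₂ pl 1 = 1 := NAB.cm_one _
  have hmul : ∀ I J : Ideal (𝓞 KK), PsiG D p₂ pl (I * J) = PsiG D p₂ pl I * PsiG D p₂ pl J := fun I J => NAB.cm_mul _ I J
  refine LCW_eq_IL KK _ (fun I => emb (PsiG D p₂ pl I)) (fun I => conj (emb (PsiG D p₂ pl I)))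
    (by simp only [hone, map_one]) (by simp only [hone, map_one])
    (fun I J => by simp only [hmul, map_mul]) (fun I J => by simp only [hmul, map_mul]) ?_
  intro v
  rw [JD.bc]
  have hpr : PsiG D p₂ pl v.asIdeal = psvG D p₂ pl v := NAB.cm_prime _ v
  rw [hpr]
  have hne : ¬ (Ideal.span {eE la} = Ideal.span {eE (2 : Eis)}) := by
    intro h
    have h5 : eE la ∈ Ideal.span {eE (2 : Eis)} := h ▸ Ideal.mem_span_singleton_self _
    have h6 : eE (2 : Eis) ∣ eE la := Ideal.mem_span_singleton.1 h5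
    have h7 : (2 : Eis) ∣ la := (map_dvd_iff eE).1 h6
    have h8 : (2 : Eis) ∣ 3 := by
      have h9 := CU.three_eq
      rw [h9]
      exact (h7.trans (dvd_pow_self la two_ne_zero)).mul_left _
    have h10 : (2 : Eis) ∣ 1 := by
      have h11 : (1 : Eis) = 3 - 2 := by norm_num
      rw [h11]
      exact dvd_sub h8 dvd_rfl
    exact TH.b4_two_prime.not_isUnit (isUnit_of_dvd_one h10)
  rcases places v hD with ⟨hv, k, c, hk, hc, he⟩ | ⟨hv, h3u, h2i, k, c, hk, hc, he⟩ |
    ⟨b, hb, hp, hv, h6, h6u, k, c, hk, hc, he⟩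
  · have hv2 : ¬ v.asIdeal = Ideal.span {eE (2 : Eis)} := fun h => hne (hv.symm.trans h)
    have e1 : psvG D p₂ pl v = pl := (if_neg hv2).trans (if_pos hv)
    rcases h3 with ⟨hn, h0⟩ | ⟨η, c', n, hη, hD', hn, hcn, hp1, hp2⟩
    · refine sqd_key v hD ?_ (fun h => absurd h hv2) (fun _ => hn) (e1.trans h0)
      intro h
      have h1 : (6 : v.adicCompletionIntegers KK) * t5b_lo v D =
          t5b_lo v la * (2 * t5b_lo v (-om ^ 2) * t5b_lo v la * t5b_lo v D) := by
        have h3 := CU.t5b_three v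
        linear_combination (2 * t5b_lo v D) * h3
      rw [h1] at h
      exact (CU.t5b_irr' CU.la_prime hv).not_isUnit (isUnit_of_mul_isUnit_left h)
    · rw [e1]
      exact poly_la v hv hη hD' hn hcn hp1 hp2
  · have e1 : psvG D p₂ pl v = p₂ := if_pos hv
    rcases h2 with ⟨hn, h0⟩ | ⟨s, c', e, ζ, hs, hD', hp1, he1, he2, hz, hz'⟩
    · refine sqd_key v hD ?_ (fun _ => hn) (fun h => absurd (h.symm.trans hv) hne) (e1.trans h0)
      intro h
      have h1 : (6 : v.adicCompletionIntegers KK) * t5b_lo v D = 2 * (3 * t5b_lo v D) := by ring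
      rw [h1] at h
      exact h2i.not_isUnit (isUnit_of_mul_isUnit_left h)
    · rw [e1, hp1]
      exact poly_two v hv hs hD' he1 he2 hz hz'
  · have hvl : ¬ v.asIdeal = Ideal.span {eE la} := by
      intro h
      have h5 : eE b ∣ eE la := Ideal.mem_span_singleton.1 (by rw [← hv, h]; exact Ideal.mem_span_singleton_self _)
      have h7 : b ∣ la := (map_dvd_iff eE).1 h5
      refine h6 (h7.trans ?_)
      have h8 : (6 : Eis) = 2 * 3 := by norm_num
      rw [h8, CU.three_eq]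
      exact ((dvd_pow_self la two_ne_zero).mul_left _).mul_left _
    have hv2 : ¬ v.asIdeal = Ideal.span {eE (2 : Eis)} := by
      intro h
      have h5 : eE b ∣ eE 2 := Ideal.mem_span_singleton.1 (by rw [← hv, h]; exact Ideal.mem_span_singleton_self _)
      have h7 : b ∣ 2 := (map_dvd_iff eE).1 h5
      exact h6 (h7.trans ⟨3, by norm_num⟩)
    have e1 : psvG D p₂ pl v = JD.psv6 (eE D) v := (if_neg hv2).trans (if_neg hvl)
    by_cases hk0 : k = 0
    · have hbD : ¬ b ∣ 2 * D := by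
        intro h
        rcases hb.dvd_or_dvd h with h | h
        · exact h6 (h.trans ⟨3, by norm_num⟩)
        · rw [he, hk0, pow_zero, one_mul] at h
          exact hc h
      have hu : IsUnit (6 * t5b_lo v D) :=
        h6u.mul (CU.t5b_unit hv _ (fun h => hbD (h.mul_left _)))
      rw [e1, ← JD.Psi6_prime]
      exact JD.s6b_good v hb hp hv hbD hu
    · have hbD : b ∣ D := by
        rw [he]
        exact (dvd_pow_self b hk0).mul_right _
      refine sqd_key v hD ?_ (fun h => absurd h hv2) (fun h => absurd h hvl) ?_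
      · intro h
        obtain ⟨x, hx⟩ := hbD
        rw [hx, map_mul] at h
        exact (CU.t5b_irr' hb hv).not_isUnit (isUnit_of_mul_isUnit_left (isUnit_of_mul_isUnit_right h))
      · rw [e1]
        refine JD.psv6_zero _ (Or.inr ?_)
        rw [hv]
        exact Ideal.mem_span_singleton.2 (map_dvd eE hbD)

/-- [SQe] -/
theorem entire_G {D p₂ pl : Eis} (hD : Fr6 D) (h2 : Val2 D p₂) (h3 : ValL D pl) (Φ : ℂ → ℂ) (hΦ : Differentiable ℂ Φ)
    (hs : ∀ s : ℂ, 3 / 2 < s.re → Φ s = LSeries (fun n => IL KK (fun I => conj (emb (PsiG D p₂ pl I))) n) s) :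
    SBSD2.IsEntireLSeries (ED (jK D)) (fun s => Φ s * conj (Φ (conj s))) := by
  obtain ⟨g, hg⟩ : ∃ g : Ideal (𝓞 KK) → ℂ, g = fun I => emb (PsiG D p₂ pl I) := ⟨_, rfl⟩
  have hlam : ∀ I : Ideal (𝓞 KK), I ≠ 0 → ‖g I‖ ^ 2 ≤ Ideal.absNorm I := by
    intro I hI
    rw [hg]
    exact PsiG_norm_le h2 h3 I hI
  have hlam' : ∀ I : Ideal (𝓞 KK), I ≠ 0 → ‖conj (g I)‖ ^ 2 ≤ Ideal.absNorm I := by
    intro I hI
    rw [Complex.norm_conj]
    exact hlam I hI
  have hs' : ∀ s : ℂ, 3 / 2 < s.re →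
      Φ s = LSeries (fun n => IL KK (fun I => conj (g I)) n) s := by
    intro s h5
    rw [hg]
    exact hs s h5
  have cc : Differentiable ℂ (fun s => conj (Φ (conj s))) :=
    fun s => differentiableAt_conj_conj_iff.2 (hΦ (conj s))
  have hLf : (fun k => ((ED (jK D)).LFunction k : ℂ)) =
      fun k => (IL KK g * IL KK (fun I => conj (g I))) k := by
    have h6 := LCW_G hD h2 h3
    rw [hg, ← h6]
    rfl
  refine ⟨hΦ.mul cc, ?_⟩
  intro s h5
  have t1 := LSeriesSummable_IL KK _ hlam s h5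
  have t2 := LSeriesSummable_IL KK _ hlam' s h5
  have t3 : (ED (jK D)).LSeries s =
      LSeries (fun k => ((ED (jK D)).LFunction k : ℂ)) s := rfl
  rw [t3, hLf]
  refine ⟨ArithmeticFunction.LSeriesSummable_mul t1 t2, ?_⟩
  change Φ s * conj (Φ (conj s)) = _
  rw [ArithmeticFunction.LSeries_mul' t1 t2, hs' s h5, hs' (conj s) (by
    rw [Complex.conj_re]; exact h5), NAB.LSeries_conj, NAB.LSeries_conj, Complex.conj_conj, Complex.conj_conj,
    mul_comm]

end JGS
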