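import Pool.Agent.JGL.U3
import Pool.Agent.JGL.U1
import Pool.Agent.JGS.Defs

/-!
# [JGS-V] elements of relative norm one which are units outside of the ramified and inert primes (`OverW`)

PROOF. `galW`: `u1_gal` (JGL/U1.lean), verbatim. `unitW`: `u3_unit` (JGL/U3.lean) where `hqf : ¬ q ∣ Q.L.f` is now immediate (`Q.ram`, `hd`).
-/

set_option autoImplicit false

open NumberField IsDedekindDomain Filter Topology
open scoped Classical ComplexConjugate

namespace JGS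

open CM27 JZ JGL
open CU (la eE)
open CUL (Nl ez si ta DS Cont LV IsRep rp cr mn mo zw OT GalU W3 W9)
open JL (N1 KD sD Psi6)

variable {D₁ : Eis}

theorem galW (Q : QD D₁) {T : Finset Eis} {L : Lev} (ov : OverW Q.L T L) : GalS L (sD D₁) := by
  obtain ⟨M₀, h0, h1⟩ := Q.gal (sD D₁) (JL.sD_sq D₁)
  have hdom := eis_isDomain
  refine ⟨M₀ * L.f, mul_ne_zero h0 (f_ne L), fun σ hσ M g hM hd hG => ?_⟩
  have h2 := h1 σ hσ M g hM (dvd_of_mul_right_dvd hd) hG
  have h3 : IsCoprime g L.f := (hG.dvd hM (M' := L.f) (dvd_of_mul_left_dvd hd)).2.1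
  show σ (sD D₁) = (L.q g : ℂ) * sD D₁
  rw [ov.hq g h3]
  exact h2

theorem unitW (Q : QD D₁) {T : Finset Eis} {L : Lev} (ov : OverW Q.L T L) {x : ℂ} (hx : N1 (sD D₁) x)
    (hloc : ∀ (B : ValuationSubring ℂ) (q : Eis), Prime q → B.valuation (emb q) < 1 → ¬ q ∣ Q.L.f →
      (L.ep = 1 → ¬ q ∣ la) → B.valuation x = 1) : IsIntegral ℤ x ∧ IsIntegral ℤ x⁻¹ := by
  have hdom : IsDomain Eis := eis_isDomain
  obtain ⟨u₁, u₂, h1, h2, hz, hzi, hz0⟩ := hx
  have hmem : x ∈ KD D₁ := (JL.mem_KD _).mpr ⟨u₁, u₂, h1, h2, hz⟩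
  let y : KD D₁ := ⟨x, hmem⟩
  obtain ⟨τ, hττ, hτ⟩ := u0_tau Q.nsq
  have hy0 : y ≠ 0 := by
    intro h0
    exact hz0 (congrArg (fun t : KD D₁ => (t : ℂ)) h0)
  have hτy : τ y = y⁻¹ := by
    apply Subtype.ext
    rw [hτ u₁ u₂ h1 h2 y hz, ← hzi]
    rfl
  have key : ∀ w : HeightOneSpectrum (𝓞 (KD D₁)), w.valuation (KD D₁) y = 1 := by
    intro w
    by_cases hst : ∀ y ∈ w.asIdeal, RingOfIntegers.mapRingEquiv τ y ∈ w.asIdeal
    · exact JL.I4_val τ hττ w hst hy0 hτy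
    push Not at hst
    obtain ⟨y₀, hy₀, hy₁⟩ := hst
    obtain ⟨q, hq, hqm⟩ := JL.I4_q w
    obtain ⟨hd, a, ha⟩ := u3_split Q τ hττ hτ w hy₀ hy₁ hq hqm
    have hram := Q.ram q hq
    have hqf : ¬ q ∣ Q.L.f := fun hqf => hd (hram.mpr (Or.inl hqf))
    have hla : L.ep = 1 → ¬ q ∣ la := by
      intro he h3
      exact hd (hram.mpr (Or.inr ⟨by rw [← ov.hep]; exact he, h3⟩))
    obtain ⟨B, hB1, hB2⟩ := JL.exists_ext (KD D₁) w
    have hqB : B.valuation (emb q) < 1 := by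
      have h3 := (hB2 (algebraMap (𝓞 (KD D₁)) (KD D₁) (JL.I4_phi D₁ q))).mpr
        ((w.valuation_lt_one_iff_mem (K := KD D₁) _).mpr ((hqm q).mpr dvd_rfl))
      exact h3
    have hval : B.valuation x = 1 := hloc B q hq hqB hqf hla
    refine le_antisymm ((hB1 y).mp hval.le) ?_
    by_contra hlt
    rw [not_le] at hlt
    have := (hB2 y).mpr hlt
    change B.valuation x < 1 at this
    rw [hval] at this
    exact lt_irrefl _ this
  have hfin : ∀ y : KD D₁, (∀ w : HeightOneSpectrum (𝓞 (KD D₁)), w.valuation (KD D₁) y = 1) →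
      IsIntegral ℤ (y : ℂ) := by
    intro y hy
    obtain ⟨t, ht⟩ := HeightOneSpectrum.mem_integers_of_valuation_le_one (KD D₁) y
      (fun w => (hy w).le)
    rw [← ht]
    exact (JL.I4_int (t : KD D₁).2).mp t.2
  refine ⟨hfin y key, ?_⟩
  have h5 := hfin y⁻¹ (fun w => by rw [map_inv₀, key, inv_one])
  exact h5

end JGS
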