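import Pool.Agent.JGL.U
import Pool.Agent.JGL.C9
import Pool.Agent.JGS.I
import Pool.Agent.JGS.V
import Pool.Agent.JGS.L

/-!
# [JGS-W] the elliptic unit is trivial if some `p ∈ T` splits

PROOF. `hs := galW Q ov`, `hs0 := u1_s_ne Q.nsq`, `N1 (sD D₁) (ee L R ^ 3)` (`u1_ee3`), `N1 (sD D₁) (eo L R)` (`u1_eo`), `N1 (sD D₁) (ee L R)` for `k ≠ 0` (`u1_ee`).
Local units for `unitW`: `q ∤ L.f`: `u_loc`, `u_loco` (JGL/U.lean); `q ∣ L.f`, `q ∤ Q.L.f`: `q` is associated to a `p ∈ T`, `L.f = q m`, `m` prime to `q` (the primes of `T` are different, primary, not dividing `Q.f`) and not a unit (`Q.L.hfu`), `z = pt L c = c / (q m)`, `c` prime to `L.f`: `q z = c / m` is not a period, `m q z = c`: `is_x`, `is_U` with `α = q` (for `q ∣ 3`: `q ∤ L.f` as `L.f` is primary).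
So `ee ^ 3`, resp. `eo`, is a unit of `F` of absolute value `1`; with `JL.fund_unit`, `u_unit`, as in `unitE_even` (JGL/U.lean): `x = ζ ε ^ N`, `|N| |log ‖ε‖| = 0`, so `N = 0` and `ee ^ 36 = 1`, resp. `eo ^ 12 = 1`.
`A` with `A.valuation 3 < 1` (`CUL.exists_A`): `A.valuation (e - 1) < 1` (`ee_one` with `m = 0`, `eo_one`). Then `(e ^ 9)` (resp. `e ^ 3`) is a fourth root of unity `≡ 1`, so `1` (`x ^ 4 - 1 = (x - 1) (x + 1) (x² + 1)`, `x + 1 ≡ 2`, `x² + 1 ≡ 2` are units of `A`). So `ee ^ 3`, resp. `eo`, is a cube root of unity, in `ℚ(ω)`, with `N1`: `c = c⁻¹` (`a₂ = 0` as `s ∉ ℚ(ω)`: otherwise `s = (c - a₁) / a₂`, and `D₁ = s²` would be a square: `D₁` not a square in `ℤ[ω]`), so it is `1`.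
Even, `k ≠ 0`: `ee` is a cube root of unity with `N1`: `1`, `m = 0`. Even, `k = 0`: `m` with `zw m * ee = 1` (`u_three`).
-/

set_option autoImplicit false

open NumberField IsDedekindDomain Filter Topology
open scoped Classical ComplexConjugate

namespace JGS

open CM27 JZ JGL
open CU (la eE)
open CUL (Nl ez si ta DS Cont LV IsRep rp cr mn mo zw OT GalU W3 W9)
open JL (N1 KD sD Psi6)

variable {D₁ : Eis}

/-- the points `c / (q m)` -/
theorem w_pt (Q : QD D₁) {T : Finset Eis} {L : Lev} (ov : OverW Q.L T L) {q : Eis} (hq : Prime q) (hqf : q ∣ L.f)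
    (hqQ : ¬ q ∣ Q.L.f) : ∃ m : Eis, L.f = q * m ∧ IsCoprime m q ∧ ¬ la ∣ m ∧ ¬ IsUnit m := by
  have hdom : IsDomain Eis := eis_isDomain
  have hpid : IsPrincipalIdealRing Eis := eis_pid
  have h1 : q ∣ Q.L.f * ∏ p ∈ T, p := by
    rw [← ov.hf]
    exact hqf
  have h2 := (hq.dvd_or_dvd h1).resolve_left hqQ
  obtain ⟨p, hp, hqp⟩ := (Prime.dvd_finsetProd_iff hq _).mp h2
  obtain ⟨hpp, hpP, -⟩ := ov.hT p hp
  have hpq : p ∣ q := (hq.associated_of_dvd hpp hqp).symm.dvd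
  obtain ⟨m, hm⟩ := hqf
  refine ⟨m, hm, ?_, ?_, ?_⟩
  · refine ((hq.irreducible.coprime_iff_not_dvd).2 ?_).symm
    intro hqm
    obtain ⟨u, hu⟩ := hqp
    have h3 : Q.L.f * ∏ p ∈ T, p = q * m := by rw [← ov.hf, hm]
    rw [← Finset.mul_prod_erase T (fun p => p) hp] at h3
    have h4 : q ∣ Q.L.f * (u * ∏ p ∈ T.erase p, p) := by
      have h5 : q * (Q.L.f * (u * ∏ p ∈ T.erase p, p)) = q * m := by
        rw [← h3]
        show _ = Q.L.f * (p * ∏ p ∈ T.erase p, p)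
        rw [hu]
        ring
      rw [mul_left_cancel₀ hq.ne_zero h5]
      exact hqm
    rcases hq.dvd_or_dvd h4 with h5 | h5
    · exact hqQ h5
    · rcases hq.dvd_or_dvd h5 with h6 | h6
      · have h7 : q * q ∣ q := by
          obtain ⟨v, hv⟩ := h6
          obtain ⟨t, ht⟩ := hpq
          refine ⟨v * t, ?_⟩
          calc q = p * t := ht
            _ = q * u * t := by rw [← hu]
            _ = q * q * (v * t) := by rw [hv]; ring
        obtain ⟨t, ht⟩ := h7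
        have h8 : q * 1 = q * (q * t) := by rw [mul_one, ← mul_assoc]; exact ht
        exact hq.not_isUnit (IsUnit.of_mul_eq_one t (mul_left_cancel₀ hq.ne_zero h8).symm)
      · obtain ⟨p', hp', hd⟩ := (Prime.dvd_finsetProd_iff hq _).mp h6
        obtain ⟨hne, hp'T⟩ := Finset.mem_erase.1 hp'
        obtain ⟨k1, k2, -⟩ := ov.hT p' hp'T
        exact CUL.not_dvd_of_ne hpp k1 hpP k2 (Ne.symm hne) (hpq.trans hd)
  · intro h3
    exact u_la L (by rw [hm]; exact h3.mul_left q)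
  · intro h3
    have h4 : Q.L.f ∣ q := by
      have h5 : q * m ∣ q * 1 := mul_dvd_mul_left q (h3.dvd)
      rw [mul_one, ← hm] at h5
      exact (Dvd.intro _ ov.hf.symm).trans h5
    rcases hq.irreducible.dvd_iff.1 h4 with h5 | h5
    · exact Q.L.hfu h5
    · exact hqQ h5.dvd

/-- the local units -/
theorem w_loc (Q : QD D₁) {T : Finset Eis} {L : Lev} (ov : OverW Q.L T L) (B : ValuationSubring ℂ) {q : Eis}
    (hq : Prime q) (hqB : B.valuation (emb q) < 1) (hqf : q ∣ L.f) (hqQ : ¬ q ∣ Q.L.f) {c : Eis}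
    (hc : IsCoprime c L.f) : B.valuation (xw (pt L c)) = 1 ∧ B.valuation (Um (pt L c)) = 1 := by
  have hdom : IsDomain Eis := eis_isDomain
  have hpid : IsPrincipalIdealRing Eis := eis_pid
  obtain ⟨m, hm, hmq, hml, hmu⟩ := w_pt Q ov hq hqf hqQ
  have h3 : ¬ q ∣ 3 := by
    intro h3
    have h4 : (3 : Eis) ∣ la ^ 2 := by
      refine ⟨-CU.om, ?_⟩
      apply emb_injective
      rw [map_pow, CUL.la_sq, map_mul, map_neg, CUL.emb_om, map_ofNat]
      ring
    have h5 : q ∣ la := hq.dvd_of_dvd_pow (h3.trans h4)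
    exact u_la L (((hq.associated_of_dvd CU.la_prime h5).symm.dvd).trans hqf)
  have hm0 : m ≠ 0 := by
    rintro rfl
    rw [mul_zero] at hm
    exact f_ne L hm
  have hme : emb m ≠ 0 := CUL.l2_emb_ne hm0
  have hqe : emb q ≠ 0 := CUL.l2_emb_ne hq.ne_zero
  have hpt : emb q * pt L c = emb c / emb m := by
    rw [JGL.pt, hm, map_mul]
    field_simp
  have hz : Nl (emb q * pt L c) := by
    rw [hpt]
    refine (CUL.nl_div_iff hm0 c).2 fun hd => hmu ?_
    have h5 : IsCoprime c m := IsCoprime.of_isCoprime_of_dvd_right hc ⟨q, by rw [hm, mul_comm]⟩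
    exact h5.isUnit_of_dvd' hd dvd_rfl
  have hmz : emb m * (emb q * pt L c) ∈ Set.range emb := ⟨c, by rw [hpt, mul_div_cancel₀ _ hme]⟩
  exact ⟨is_x hq h3 hqB hmq hml hz hmz, is_U hq h3 hqB hmq hml hz hmz⟩

/-- fourth roots of unity `≡ 1` -/
theorem w_four (A : ValuationSubring ℂ) (hA : A.valuation 3 < 1) {x : ℂ} (h4 : x ^ 4 = 1)
    (hx : A.valuation (x - 1) < 1) : x = 1 := by
  by_contra hne
  have h2 : ¬ A.valuation (-2) < 1 := by
    intro h
    have h1 : A.valuation (3 + -2) < 1 := A.valuation.map_add_lt hA h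
    have h5 : (3 : ℂ) + -2 = 1 := by norm_num
    rw [h5, map_one] at h1
    exact lt_irrefl _ h1
  have h5 : (x - 1) * ((x + 1) * (x ^ 2 + 1)) = 0 := by linear_combination h4
  have h6 := (mul_eq_zero.1 h5).resolve_left (sub_ne_zero.2 hne)
  rcases mul_eq_zero.1 h6 with h7 | h7
  · apply h2
    have h8 : x - 1 = -2 := by linear_combination h7
    rw [← h8]
    exact hx
  · apply h2
    have h8 : x * x - 1 = -2 := by linear_combination h7
    rw [← h8]
    exact c9_mul A hx hx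

/-- a unit of absolute value one is a root of unity -/
theorem w_root (Q : QD D₁) {e : ℂ} (hN : N1 (sD D₁) e) (h1 : IsIntegral ℤ e) (h2 : IsIntegral ℤ e⁻¹) (hn : ‖e‖ = 1) :
    e ^ 12 = 1 := by
  obtain ⟨ε, hε, hun⟩ := JL.fund_unit (KD D₁) (u6_rank Q.nsq) (algebraMap (KD D₁) ℂ)
  have hnε : ‖(algebraMap (KD D₁) ℂ) (((ε : 𝓞 (KD D₁)) : KD D₁))‖ = ‖u_v D₁ ε‖ := rfl
  rw [hnε] at hε
  have hreg : 0 < Units.regulator (KD D₁) := Units.regulator_pos (KD D₁)
  have hr0 : 0 < |Real.log ‖u_v D₁ ε‖| := by linarith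
  obtain ⟨a₁, a₂, ha₁, ha₂, hae, hai, hae0⟩ := hN
  have hmem : e ∈ KD D₁ := (JL.mem_KD _).mpr ⟨a₁, a₂, ha₁, ha₂, hae⟩
  obtain ⟨x, hx⟩ := u_unit hmem hae0 h1 h2
  obtain ⟨ζ, hζ, N, hxN⟩ := hun x
  have hζ12 : u_v D₁ ζ ^ 12 = 1 := u6_mem Q.nsq hζ
  have hζn : ‖u_v D₁ ζ‖ = 1 := by
    have h1 : ‖u_v D₁ ζ‖ ^ 12 = 1 := by rw [← norm_pow, hζ12, norm_one]
    exact (pow_eq_one_iff_of_nonneg (norm_nonneg _) (by norm_num)).mp h1
  have hv : e = u_v D₁ ζ * u_v D₁ ε ^ N := by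
    rw [← hx, hxN, map_mul, map_zpow]
  have hN0 : N = 0 := by
    have h3 := congrArg (fun z : ℂ => |Real.log ‖z‖|) hv
    simp only [norm_mul, norm_zpow, hζn, one_mul, Real.log_zpow, abs_mul, hn, Real.log_one, abs_zero] at h3
    have h4 := (mul_eq_zero.1 h3.symm).resolve_right hr0.ne'
    have h5 : (N : ℝ) = 0 := abs_eq_zero.1 h4
    exact_mod_cast h5
  rw [hv, hN0, zpow_zero, mul_one, hζ12]

/-- cube roots of unity of relative norm one -/
theorem w_one (Q : QD D₁) {e : ℂ} (hN : N1 (sD D₁) e) (h3 : e ^ 3 = 1) : e = 1 := by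
  obtain ⟨k, hk⟩ := u_three h3
  obtain ⟨a₁, a₂, ha₁, ha₂, hae, hai, hae0⟩ := hN
  have h1 : a₁ + a₂ * sD D₁ = e + 0 * sD D₁ := by rw [← hae]; ring
  have heK : e ∈ CF.KK := by
    rw [hk]
    exact u_zw_mem k
  obtain ⟨h2, h4⟩ := u0_rep Q.nsq ha₁ ha₂ heK (zero_mem _) h1
  rw [h2, h4, zero_mul, sub_zero] at hai
  have h5 : e ^ 2 = 1 := by
    calc e ^ 2 = e * e := sq e
      _ = e * e⁻¹ := by rw [hai]
      _ = 1 := mul_inv_cancel₀ hae0
  calc e = e ^ 3 := by rw [pow_succ, h5, one_mul]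
    _ = 1 := h3

theorem one_even (Q : QD D₁) {T : Finset Eis} {L : Lev} (ov : OverW Q.L T L) (hs : Spl Q.L T) (h : L.ep = 0)
    {R : Finset Eis} (hR : IsR L R) : ∃ m : ZMod 3, (L.k ≠ 0 → m = 0) ∧ zw m * ee L R = 1 := by
  have hs1 := galW Q ov
  have hs0 := u1_s_ne Q.nsq
  have hN1 := u1_ee3 h hR hs0 hs1
  have hn : ‖ee L R ^ 3‖ = 1 := by rw [norm_pow, norm_even ov hs h hR, one_pow]
  obtain ⟨hi1, hi2⟩ := unitW Q ov hN1 fun B q hq hqB hqf _ => by
    rw [map_pow]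
    by_cases hqL : q ∣ L.f
    · rw [ee, map_prod, Finset.prod_eq_one, one_pow]
      intro c hc
      rw [map_zpow₀, (w_loc Q ov B hq hqB hqL hqf (hR.1 c hc)).1, one_zpow]
    · rw [u_loc hR B hq hqB hqL, one_pow]
  have h36 := w_root Q hN1 hi1 hi2 hn
  obtain ⟨A, hA⟩ := CUL.exists_A
  have hA1 : A.valuation (ee L R - 1) < 1 := by
    have h1 := ee_one L h hR A hA 0
    rwa [CUL.zw_zero, one_mul] at h1
  have h9 : ee L R ^ 9 = 1 := by
    refine w_four A hA ?_ ?_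
    · rw [← pow_mul]
      rw [← pow_mul] at h36
      exact h36
    · have h3 : A.valuation (ee L R * ee L R * ee L R - 1) < 1 := c9_mul A (c9_mul A hA1 hA1) hA1
      have h5 := c9_mul A (c9_mul A h3 h3) h3
      have h6 : ee L R ^ 9 = ee L R * ee L R * ee L R * (ee L R * ee L R * ee L R) * (ee L R * ee L R * ee L R) := by
        ring
      rw [h6]
      exact h5
  have h3 : ee L R ^ 3 = 1 := by
    refine w_one Q hN1 ?_
    rw [← pow_mul]
    exact h9
  by_cases hk : L.k = 0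
  · obtain ⟨k, hk'⟩ := u_three h3
    refine ⟨-k, fun h0 => absurd hk h0, ?_⟩
    rw [hk', ← CUL.zw_add, neg_add_cancel, CUL.zw_zero]
  · refine ⟨0, fun _ => rfl, ?_⟩
    rw [CUL.zw_zero, one_mul]
    exact w_one Q (u1_ee h hR hs0 hs1 hk) h3

theorem one_odd (Q : QD D₁) {T : Finset Eis} {L : Lev} (ov : OverW Q.L T L) (hs : Spl Q.L T) (h : L.ep = 1)
    {R : Finset Eis} (hR : IsR L R) : eo L R = 1 := by
  have hs1 := galW Q ov
  have hs0 := u1_s_ne Q.nsq
  have hN1 := u1_eo h hR hs0 hs1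
  obtain ⟨hi1, hi2⟩ := unitW Q ov hN1 fun B q hq hqB hqf hql => by
    by_cases hqL : q ∣ L.f
    · rw [eo, map_prod, Finset.prod_eq_one]
      intro c hc
      rw [map_zpow₀, (w_loc Q ov B hq hqB hqL hqf (hR.1 c hc)).2, one_zpow]
    · exact u_loco hR B hq hqB hqL (hql h)
  have h12 := w_root Q hN1 hi1 hi2 (norm_odd ov hs h hR)
  obtain ⟨A, hA⟩ := CUL.exists_A
  have hA1 : A.valuation (eo L R - 1) < 1 := eo_one L hR A hA
  refine w_one Q hN1 (w_four A hA ?_ ?_)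
  · rw [← pow_mul]
    exact h12
  · have h3 : A.valuation (eo L R * eo L R * eo L R - 1) < 1 := c9_mul A (c9_mul A hA1 hA1) hA1
    have h6 : eo L R ^ 3 = eo L R * eo L R * eo L R := by ring
    rw [h6]
    exact h3

end JGS
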