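import Pool.Agent.JGS.Z2
import Pool.Agent.JGS.D

/-!
# [JGS-X] the central value is divisible by `3` outside of the class `ClG`
-/

set_option autoImplicit false

open NumberField IsDedekindDomain Filter Topology
open scoped Classical ComplexConjugate

namespace JGS

open CM27 JZ JGL
open CU (la eE)
open CUL (Nl ez si ta DS Cont LV IsRep rp cr mn mo zw OT GalU W3 W9)
open JL (N1 KD sD Psi6)

variable {D : Eis}

theorem hT_W (F : Fac D) {D₁ : Eis} (Q : QD D₁) {p : Eis} (hp : p ∈ TT F Q) : Prime p ∧ Primary p ∧ ¬ p ∣ Q.L.f := by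
  rw [JGL.TT, Finset.mem_filter, Sc, Finset.mem_filter] at hp
  obtain ⟨⟨hpS, -⟩, hpf⟩ := hp
  obtain ⟨hpp, hpP⟩ := F.hS p hpS
  exact ⟨hpp, hpP, hpf⟩

theorem exists_DatW (h0 : D ≠ 0) (hfree : ∀ p : Eis, Prime p → ¬ p ^ 6 ∣ D) (hnsq : ¬ IsSquare D) :
    ∃ d : DatW D, (¬ Spl d.Q.L d.T → ClA D) := by
  obtain ⟨D₁, m, hm, hD, ⟨Q⟩⟩ := exists_QD h0 hnsq
  obtain ⟨F⟩ := exists_Fac h0 hfree
  obtain ⟨L, hL⟩ := exists_L F Q
  obtain ⟨p₂, h2, h2'⟩ := exists_p2 F hL hD h0
  obtain ⟨pl, hl, hl'⟩ := exists_pl F hL hD h0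
  exact ⟨{ D₁ := D₁
           m := m
           Q := Q
           T := JGL.TT F Q
           L := L
           v := F.v
           η := F.η
           i := F.i
           Ds := F.Ds
           hm := hm
           hD := hD
           ov := ⟨fun p hp => hT_W F Q hp, hL.hf, hL.hq, hL.hep⟩
           hv := F.hv
           hη := F.hη
           hi := F.hi
           hDs := F.hDs
           hD' := F.hD
           hep := ep_D F hL hD h0
           q_la := q_la_D F hL hD h0
           hk := hL.hk
           gal := fun t ht => gal_D F hL h0 ht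
           p₂ := p₂
           val₂ := h2
           pl := pl
           vall := hl
           pl_eq := hl'
           psi := fun b hb => psi_D F hL hD h0 h2' hb }, fun hs => clA_of_q h0 hfree hnsq F Q hD fun p hp h1 => hs ⟨p, hp, h1⟩⟩

/-- The central value is divisible by `3` outside of the class `ClG`. -/
theorem lvalS (h0 : D ≠ 0) (hfree : ∀ p : Eis, Prime p → ¬ p ^ 6 ∣ D) (hnsq : ¬ IsSquare D) (hn : ¬ JG.ClG D) : LValS D := by
  obtain ⟨d, hd⟩ := exists_DatW h0 hfree hnsq
  by_cases hG : JG.GoodL D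
  · refine lvalS_good d hG ?_
    by_contra hs
    exact hn (clG_of (hd hs) d fun h => absurd hG h)
  · refine lvalS_bad d ?_ hG
    by_contra h
    rw [not_or, not_not] at h
    exact hn (clG_of (hd h.1) d fun _ => h.2)

end JGS
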