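import Pool.Agent.JGL.Z3
import Pool.Agent.JGS.W
import Pool.Agent.JGS.E
import Pool.Agent.JGS.F
import Pool.Agent.JGS.G

/-!
# [JGS-Z1] the valuation of `V √D / (4 D)^(1/3)` is strictly smaller if a prime `p ∈ T` splits or the conditions at `λ` fail
-/

set_option autoImplicit false

open NumberField IsDedekindDomain Filter Topology
open scoped Classical ComplexConjugate

namespace JGS

open CM27 JZ JGL
open CU (la eE)
open CUL (Nl ez si ta DS Cont LV IsRep rp cr mn mo zw OT GalU W3 W9)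
open JL (N1 KD sD Psi6)

variable {D : Eis}

/-- `N1` does not depend on the choice of the square root -/
theorem n2_of (d : DatW D) {e r κ : ℂ} (h : N1 (sD d.D₁) e) (hκ : κ ∈ CF.KK) (_hκ0 : κ ≠ 0) (hr : r = κ * sD d.D₁) :
    ∃ u₁ u₂, N2 r e u₁ u₂ := by
  obtain ⟨u₁, u₂, h1, h2, h3, h4, h5⟩ := h
  have e1 : (u₂ * κ⁻¹) * r = u₂ * sD d.D₁ := by
    rw [hr]
    field_simp
  exact ⟨u₁, u₂ * κ⁻¹, h1, mul_mem h2 (inv_mem hκ), by rw [e1]; exact h3, by rw [e1]; exact h4, h5⟩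

theorem z_etaInt (d : DatW D) : ∃ η : ℤ, (η = 1 ∨ η = -1) ∧ d.η = (η : Eis) := by
  rcases d.hη with h | h
  · exact ⟨1, Or.inl rfl, by rw [h]; rfl⟩
  · exact ⟨-1, Or.inr rfl, by rw [h]; rfl⟩

theorem z_D_ne (d : DatW D) : D ≠ 0 := by
  intro h0
  have h1 : emb D = emb d.D₁ * emb d.m ^ 2 := by
    rw [← map_pow, ← map_mul]
    exact congrArg emb d.hD
  have h2 : emb D = 0 := by rw [h0, map_zero]
  rw [h2] at h1
  exact mul_ne_zero (CUL.l2_emb_ne d.Q.sqf.ne_zero) (pow_ne_zero _ (CUL.l2_emb_ne d.hm)) h1.symm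

theorem z_val_D (d : DatW D) (A : ValuationSubring ℂ) (hA : A.valuation 3 < 1) :
    A.valuation (emb D) = A.valuation (emb la) ^ d.v := by
  have hη : ¬ la ∣ d.η * CU.om ^ d.i := by
    intro h
    refine CUL.la_prime.not_isUnit (isUnit_of_dvd_unit h ?_)
    refine IsUnit.mul ?_ (CU.om_unit.pow _)
    rcases d.hη with h | h
    · rw [h]; exact isUnit_one
    · rw [h]; exact isUnit_one.neg
  have hDs : ¬ la ∣ d.Ds := CUL.primary_not_la d.hDs
  have h1 : A.valuation (emb D) = A.valuation (emb (d.η * CU.om ^ d.i * la ^ d.v * d.Ds)) :=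
    congrArg (fun x => A.valuation (emb x)) d.hD'
  rw [h1, map_mul, map_mul, CUL.w_emb_unit A hA _ hDs, map_mul, map_mul, CUL.w_emb_unit A hA _ hη, one_mul, mul_one,
    map_pow, map_pow]

theorem z_s (d : DatW D) {s : ℂ} (hs : s ^ 2 = emb D) : ∃ κ : ℂ, κ ∈ CF.KK ∧ κ ≠ 0 ∧ s = κ * sD d.D₁ := by
  have h1 : s ^ 2 = (emb d.m * sD d.D₁) ^ 2 := by
    have h2 := congrArg emb d.hD
    rw [map_mul, map_pow] at h2
    rw [hs, mul_pow, JL.sD_sq, h2, mul_comm]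
  have hm0 : emb d.m ≠ 0 := CUL.l2_emb_ne d.hm
  rcases sq_eq_sq_iff_eq_or_eq_neg.1 h1 with h | h
  · exact ⟨emb d.m, JL.F0_emb_mem _, hm0, h⟩
  · exact ⟨-emb d.m, neg_mem (JL.F0_emb_mem _), neg_ne_zero.2 hm0, by rw [h]; ring⟩

theorem z_r (d : DatW D) {s c r : ℂ} (hs : s ^ 2 = emb D) (hc : c ∈ CF.KK) (hc0 : c ≠ 0) (hr : s = c * r) {e : ℂ}
    (h : N1 (sD d.D₁) e) : ∃ u₁ u₂, N2 r e u₁ u₂ := by
  obtain ⟨κ, h1, h2, h3⟩ := z_s d hs
  refine n2_of d h (mul_mem h1 (inv_mem hc)) (mul_ne_zero h2 (inv_ne_zero hc0)) ?_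
  rw [mul_right_comm, ← h3, hr, mul_comm c r, mul_assoc, mul_inv_cancel₀ hc0, mul_one]

theorem z_vs (d : DatW D) (A : ValuationSubring ℂ) (hA : A.valuation 3 < 1) {s t : ℂ} (hs : s ^ 2 = emb D)
    (ht : t ^ 3 = emb (4 * D)) : A.valuation s ^ 2 = A.valuation (emb la) ^ d.v ∧
      A.valuation t ^ 3 = A.valuation (emb la) ^ d.v := by
  have h4 : ¬ la ∣ 4 := by rw [CUL.la_dvd_iff]; decide
  constructor
  · rw [← map_pow, hs, z_val_D d A hA]
  · rw [← map_pow, ht, map_mul, map_mul, z_val_D d A hA, CUL.w_emb_unit A hA _ h4, one_mul]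

theorem z_hgal (d : DatW D) {κ r : ℂ} (hκ : κ ∈ CF.KK) (h : r = κ * sD d.D₁) : GalS d.L r := by
  obtain ⟨M₀, h0, h1⟩ := d.Q.gal (sD d.D₁) (JL.sD_sq _)
  have hdom : IsDomain Eis := emb_injective.isDomain emb
  refine ⟨M₀ * d.L.f, mul_ne_zero h0 (f_ne d.L), fun σ hσ M g hM hd hg => ?_⟩
  have h2 : σ (sD d.D₁) = (d.Q.L.q g : ℂ) * sD d.D₁ := h1 σ hσ M g hM ((Dvd.intro _ rfl).trans hd) hg
  have hc : IsCoprime g d.L.f := IsCoprime.of_isCoprime_of_dvd_right hg.2.1 ((Dvd.intro_left _ rfl).trans hd)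
  show σ r = (d.L.q g : ℂ) * r
  rw [h, map_mul, h2, z_sigma hσ hκ, d.ov.hq g hc]
  ring

theorem z_pack (d : DatW D) {s c r : ℂ} (hs : s ^ 2 = emb D) (hc : c ∈ CF.KK) (hc0 : c ≠ 0) (hr : s = c * r) {e : ℂ}
    (h : N1 (sD d.D₁) e) : GalS d.L r ∧ ∃ u₁ u₂, N2 r e u₁ u₂ := by
  refine ⟨?_, z_r d hs hc hc0 hr h⟩
  obtain ⟨κ, h1, h2, h3⟩ := z_s d hs
  refine z_hgal d (mul_mem h1 (inv_mem hc)) ?_
  rw [mul_right_comm, ← h3, hr, mul_comm c r, mul_assoc, mul_inv_cancel₀ hc0, mul_one]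

theorem z_embD (d : DatW D) : emb D = emb d.η * emb CU.om ^ d.i * emb la ^ d.v * emb d.Ds := by
  rw [← map_pow, ← map_pow, ← map_mul, ← map_mul, ← map_mul]
  exact congrArg emb d.hD'

theorem z_ep0 (d : DatW D) (h : d.v % 2 = 0) : d.L.ep = 0 := d.hep.trans h

theorem z_ep1 (d : DatW D) (h : d.v % 2 = 1) : d.L.ep = 1 := d.hep.trans h

theorem z_q0 (d : DatW D) (h : d.L.ep = 0) {η : ℤ} (hη : d.η = (η : Eis)) : d.L.q la = η := by
  have h1 := d.q_la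
  rw [if_pos h, hη] at h1
  exact z_int h1

theorem z_q1 (d : DatW D) (h : d.L.ep = 1) {η : ℤ} (hη : d.η = (η : Eis)) : d.L.q la = -η := by
  have h1 := d.q_la
  rw [if_neg (by rw [h]; norm_num), hη] at h1
  refine z_int ?_
  rw [h1]
  push_cast
  rfl

theorem z_three (d : DatW D) : (3 : Eis) ∣ d.η * d.Ds - d.η := by
  have h : (3 : Eis) ∣ d.Ds - 1 := d.hDs
  have e : d.η * d.Ds - d.η = d.η * (d.Ds - 1) := by ring
  rw [e]
  exact h.mul_left _


/-- the unit, `ep = 0` -/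
theorem n_even (d : DatW D) (hep : d.L.ep = 0) {R : Finset Eis} (hR : IsR d.L R) : ∃ m : ZMod 3, (d.L.k ≠ 0 → m = 0) ∧
    N1 (sD d.D₁) (zw m * ee d.L R) ∧ (Spl d.Q.L d.T → zw m * ee d.L R = 1) := by
  by_cases hs : Spl d.Q.L d.T
  · obtain ⟨m, hm, h1⟩ := one_even d.Q d.ov hs hep hR
    refine ⟨m, hm, ?_, fun _ => h1⟩
    rw [h1]
    exact ⟨1, 0, one_mem _, zero_mem _, by ring, by rw [inv_one]; ring, one_ne_zero⟩
  · obtain ⟨m, hm, h1⟩ := unitE_even d.Q (d.ov.over hs) hep hR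
    exact ⟨m, hm, h1.1, fun h => absurd h hs⟩

/-- the unit, `ep = 1` -/
theorem n_odd (d : DatW D) (hep : d.L.ep = 1) {R : Finset Eis} (hR : IsR d.L R) :
    N1 (sD d.D₁) (eo d.L R) ∧ (Spl d.Q.L d.T → eo d.L R = 1) := by
  by_cases hs : Spl d.Q.L d.T
  · have h1 := one_odd d.Q d.ov hs hep hR
    refine ⟨?_, fun _ => h1⟩
    rw [h1]
    exact ⟨1, 0, one_mem _, zero_mem _, by ring, by rw [inv_one]; ring, one_ne_zero⟩
  · exact ⟨(unitE_odd d.Q (d.ov.over hs) hep hR).1, fun h => absurd h hs⟩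

theorem u2_zero {r e u₁ u₂ : ℂ} (hr : r ≠ 0) (he : e = 1) (h : N2 r e u₁ u₂) : u₂ = 0 := by
  obtain ⟨-, -, h1, h2, -⟩ := h
  rw [he] at h1
  rw [he, inv_one] at h2
  have h3 : u₂ * r = 0 := by linear_combination (1 / 2 : ℂ) * (h2 - h1)
  exact (mul_eq_zero.1 h3).resolve_right hr

theorem conv_lt {Γ : Type*} [LinearOrderedCommGroupWithZero Γ] {l V s t : Γ} {v n a b c : ℕ} (hl : l ≠ 0)
    (hs : s ^ 2 = l ^ v) (ht : t ^ 3 = l ^ v) (ha : a * c = 6) (hb : b * c + v = 6 * n) (h : V ^ a < l ^ b) :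
    V * s / t < l ^ n := by
  obtain ⟨h1, h2⟩ := z_conv (V := V) hl hs ht ha hb
  exact lt_of_le_of_ne (h1.1 h.le) fun h3 => h.ne (h2.2 h3)

theorem s_ne (d : DatW D) {s : ℂ} (hs : s ^ 2 = emb D) : s ≠ 0 := by
  rintro rfl
  rw [zero_pow two_ne_zero] at hs
  exact CUL.l2_emb_ne (z_D_ne d) hs.symm

theorem v_zero (A : ValuationSubring ℂ) : A.valuation (0 : ℂ) ≠ 1 := by
  rw [map_zero]
  exact zero_ne_one

theorem lc_zero (A : ValuationSubring ℂ) (c : ℤ) : JX.LC A c (0 / emb la) := by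
  refine ⟨0, ?_⟩
  rw [zero_div, Int.cast_zero, zero_mul, sub_zero, map_zero]
  exact zero_le

theorem ln_zero (A : ValuationSubring ℂ) (a b : ℤ) : Ln1 A a b 0 := by
  refine ⟨0, 0, Or.inl rfl, ?_⟩
  rw [Int.cast_zero, zero_mul, add_zero, sub_zero, map_zero]
  exact zero_le

/-- good reduction for `v = 3`, `i = 0`, `k = 2` -/
theorem k_ne (d : DatW D) (hG : ¬ JG.GoodL D) (hv : d.v = 3) (hi : d.i = 0) : d.L.k ≠ 2 := by
  intro hk2
  apply hG
  have hDs0 : (3 : Eis) ∣ d.Ds - 1 := d.hDs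
  obtain ⟨k, hk0⟩ := hDs0
  have hk : d.Ds = 1 + 3 * k := by rw [← hk0]; ring
  have hmn := z3_mn hk
  have h2 : mn d.Ds = 0 := by
    have h3 := d.hk
    rw [hk2] at h3
    linear_combination h3
  have h3 : la ∣ k := by
    refine z3_la _ ?_
    rw [← hmn, h2]
  obtain ⟨k', hk'⟩ := h3
  refine ⟨d.η, d.η * (-CU.om ^ 2 * k'), d.hη, ?_⟩
  have h1 : D = d.η * CU.om ^ d.i * la ^ d.v * d.Ds := d.hD'
  rw [hi, hv, pow_zero, mul_one, hk, hk'] at h1
  refine h1.trans ?_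
  have e3 := z3_three
  calc d.η * la ^ 3 * (1 + 3 * (la * k')) = la ^ 3 * (d.η * (1 + (la ^ 2 * (-CU.om ^ 2)) * (la * k'))) := by
        rw [← e3]
        ring
    _ = _ := by ring

/-- `v = 0`, `i = 0` -/
theorem zs_0a (d : DatW D) (h : Spl d.Q.L d.T ∨ ¬ ClLW d) (hv : d.v = 0) (hi : d.i = 0) (A : ValuationSubring ℂ)
    (hA : A.valuation 3 < 1) {s t : ℂ} (hs : s ^ 2 = emb D) (ht : t ^ 3 = emb (4 * D)) :
    A.valuation (V2 d.L * s / t) < A.valuation (emb la) ^ 2 := by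
  have hep := z_ep0 d (by rw [hv])
  obtain ⟨R, hR⟩ := exists_R d.L
  obtain ⟨m, hm, hU, hS⟩ := n_even d hep hR
  have hq : (d.L.q la : Eis) = d.η := by
    have h1 := d.q_la
    rwa [if_pos hep] at h1
  obtain ⟨hgal, u₁, u₂, hN⟩ := z_pack d hs (one_mem _) one_ne_zero (one_mul s).symm hU
  have hr : s ^ 2 = emb (d.η * d.Ds) := by
    rw [hs, z_embD d, hv, hi, pow_zero, pow_zero, mul_one, mul_one, map_mul]
  have key : A.valuation (V2 d.L) < A.valuation (emb la) ^ 2 := by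
    by_cases hc : ¬ (d.η = -1 ∧ d.L.k = 1) ∧ ¬ (d.η = 1 ∧ d.L.k = 0)
    · have hs1 : Spl d.Q.L d.T := by
        refine h.resolve_right fun h1 => h1 ⟨fun _ _ => hc, fun h2 => ?_, fun h2 => ?_, fun h2 => ?_⟩
        · rw [hv] at h2; omega
        · rw [hv] at h2; omega
        · rw [hv] at h2; omega
      have hu := u2_zero (s_ne d hs) (hS hs1) hN
      obtain ⟨h1, h2⟩ := V_2e d.L hep d.hη hq hc hR A hA (z_three d) hr hm hN
      refine lt_of_le_of_ne h1 fun h3 => ?_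
      have h4 := h2.1 h3
      rw [hu, zero_div] at h4
      exact v_zero A h4
    · refine VS_2e d.L hep d.hη hq ?_ hR A hA (z_three d) hr hm hN
      by_contra h5
      rw [not_or] at h5
      exact hc h5
  obtain ⟨h4, h5⟩ := z_vs d A hA hs ht
  rw [map_div₀, map_mul]
  exact conv_lt (a := 1) (b := 2) (c := 6) (CUL.v2_wla A) h4 h5 (by norm_num) (by rw [hv]) (by rw [pow_one]; exact key)

/-- the case without exceptions: some `p` splits -/
theorem spl_of (d : DatW D) (h : Spl d.Q.L d.T ∨ ¬ ClLW d) (h0 : d.v = 0 → d.i ≠ 0) (h24 : d.v = 2 ∨ d.v = 4 → d.η = -1)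
    (h3 : d.v = 3 → d.i = 0 → d.L.k ≠ 2) (h3' : d.v = 3 → d.i ≠ 0 → (d.η = 1 → (d.i : ZMod 3) ≠ -1) ∧ (d.η = -1 → (d.i : ZMod 3) ≠ 1)) :
    Spl d.Q.L d.T :=
  h.resolve_right fun h1 => h1 ⟨fun h4 h5 => absurd h5 (h0 h4), h24, h3, h3'⟩

/-- `v = 0`, `i ≠ 0` -/
theorem zs_0b (d : DatW D) (h : Spl d.Q.L d.T ∨ ¬ ClLW d) (hv : d.v = 0) (hi : d.i ≠ 0) (A : ValuationSubring ℂ)
    (hA : A.valuation 3 < 1) {s t : ℂ} (hs : s ^ 2 = emb D) (ht : t ^ 3 = emb (4 * D)) :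
    A.valuation (V3 d.L d.i * s / t) < A.valuation (emb la) ^ 3 := by
  have hep := z_ep0 d (by rw [hv])
  obtain ⟨R, hR⟩ := exists_R d.L
  obtain ⟨m, hm, hU, hS⟩ := n_even d hep hR
  obtain ⟨η, hη, hη'⟩ := z_etaInt d
  have hq := z_q0 d hep hη'
  have hi12 : d.i = 1 ∨ d.i = 2 := by
    have := d.hi
    omega
  obtain ⟨hgal, u₁, u₂, hN⟩ := z_pack d hs (c := emb CU.om ^ (2 * d.i)) (r := s * emb CU.om ^ d.i) (pow_mem (JL.F0_emb_mem _) _) (pow_ne_zero _ z_om_ne) (z_r0 s d.i) hU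
  have hr : (s * emb CU.om ^ d.i) ^ 2 = emb (d.η * d.Ds) := by
    rw [mul_pow, hs, z_embD d, hv, pow_zero, mul_one, map_mul]
    linear_combination emb d.η * emb d.Ds * z_om3 d.i
  have hs1 : Spl d.Q.L d.T := spl_of d h (fun _ => hi) (fun h2 => by rw [hv] at h2; omega) (fun h2 => by rw [hv] at h2; omega)
    (fun h2 => by rw [hv] at h2; omega)
  have hu := u2_zero (mul_ne_zero (s_ne d hs) (pow_ne_zero _ z_om_ne)) (hS hs1) hN
  obtain ⟨h1, h2⟩ := V_3e d.L hep hη hq hR A hA hi12 (by rw [← hη']; exact z_three d) hr hm hN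
  have key : A.valuation (V3 d.L d.i) < A.valuation (emb la) ^ 3 := by
    refine lt_of_le_of_ne h1 fun h3 => ?_
    have h4 := h2.1 h3
    rw [hu] at h4
    exact h4 (lc_zero A _)
  obtain ⟨h4, h5⟩ := z_vs d A hA hs ht
  rw [map_div₀, map_mul]
  exact conv_lt (a := 1) (b := 3) (c := 6) (CUL.v2_wla A) h4 h5 (by norm_num) (by rw [hv]) (by rw [pow_one]; exact key)

/-- `v = 2` -/
theorem zs_2 (d : DatW D) (h : Spl d.Q.L d.T ∨ ¬ ClLW d) (hv : d.v = 2) (A : ValuationSubring ℂ)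
    (hA : A.valuation 3 < 1) {s t : ℂ} (hs : s ^ 2 = emb D) (ht : t ^ 3 = emb (4 * D)) :
    A.valuation (V4 d.L 1 d.i * s / t) < A.valuation (emb la) ^ 4 := by
  have hep := z_ep0 d (by rw [hv])
  obtain ⟨R, hR⟩ := exists_R d.L
  obtain ⟨m, hm, hU, hS⟩ := n_even d hep hR
  obtain ⟨hgal, u₁, u₂, hN⟩ := z_pack d hs (c := emb la ^ 1) (r := s / emb la ^ 1) (z_la_mem 1) (pow_ne_zero _ z_emb_la) (mul_div_cancel₀ _ (pow_ne_zero _ z_emb_la)).symm hU
  have hr : (s / emb la ^ 1) ^ 2 = emb (d.η * CU.om ^ d.i * d.Ds) := by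
    rw [div_pow, hs, z_embD d, hv, div_eq_iff (pow_ne_zero _ (pow_ne_zero _ z_emb_la)), map_mul, map_mul, map_pow]
    ring
  have key : A.valuation (V4 d.L 1 d.i) ^ 3 < A.valuation (emb la) ^ 11 := by
    rcases d.hη with hη | hη
    · have hq : d.L.q la = 1 := z_q0 d hep (by rw [hη]; rfl)
      exact VS_4e1 d.L hep hq hR A hA d.i d.hi d.hDs (by rw [hr, hη, one_mul]) hN
    · have hq : d.L.q la = -1 := z_q0 d hep (by rw [hη]; rfl)
      have hs1 : Spl d.Q.L d.T := spl_of d h (fun h2 => by rw [hv] at h2; omega) (fun _ => hη) (fun h2 => by rw [hv] at h2; omega)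
        (fun h2 => by rw [hv] at h2; omega)
      have hu := u2_zero (div_ne_zero (s_ne d hs) (pow_ne_zero _ z_emb_la)) (hS hs1) hN
      have hr' : (s / emb la ^ 1) ^ 2 = emb (-CU.om ^ d.i * d.Ds) := by
        rw [hr, hη]
        congr 1
        ring
      obtain ⟨h1, h2⟩ := V_4e1 d.L hep hq hR A hA d.i d.hi d.hDs d.hk hr' hgal hm hN
      refine lt_of_le_of_ne h1 fun h3 => ?_
      have h4 := h2.1 h3
      rw [hu] at h4
      exact h4 (lc_zero A _)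
  obtain ⟨h4, h5⟩ := z_vs d A hA hs ht
  rw [map_div₀, map_mul]
  exact conv_lt (a := 3) (b := 11) (c := 2) (CUL.v2_wla A) h4 h5 (by norm_num) (by rw [hv]) key

/-- `v = 4` -/
theorem zs_4 (d : DatW D) (h : Spl d.Q.L d.T ∨ ¬ ClLW d) (hv : d.v = 4) (A : ValuationSubring ℂ)
    (hA : A.valuation 3 < 1) {s t : ℂ} (hs : s ^ 2 = emb D) (ht : t ^ 3 = emb (4 * D)) :
    A.valuation (V4 d.L 2 d.i * s / t) < A.valuation (emb la) ^ 4 := by
  have hep := z_ep0 d (by rw [hv])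
  obtain ⟨R, hR⟩ := exists_R d.L
  obtain ⟨m, hm, hU, hS⟩ := n_even d hep hR
  obtain ⟨hgal, u₁, u₂, hN⟩ := z_pack d hs (c := emb la ^ 2) (r := s / emb la ^ 2) (z_la_mem 2) (pow_ne_zero _ z_emb_la) (mul_div_cancel₀ _ (pow_ne_zero _ z_emb_la)).symm hU
  have hr : (s / emb la ^ 2) ^ 2 = emb (d.η * CU.om ^ d.i * d.Ds) := by
    rw [div_pow, hs, z_embD d, hv, div_eq_iff (pow_ne_zero _ (pow_ne_zero _ z_emb_la)), map_mul, map_mul, map_pow]
    ring
  have key : A.valuation (V4 d.L 2 d.i) ^ 3 < A.valuation (emb la) ^ 10 := by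
    rcases d.hη with hη | hη
    · have hq : d.L.q la = 1 := z_q0 d hep (by rw [hη]; rfl)
      exact VS_4e2 d.L hep hq hR A hA d.i d.hi d.hDs (by rw [hr, hη, one_mul]) hN
    · have hq : d.L.q la = -1 := z_q0 d hep (by rw [hη]; rfl)
      have hs1 : Spl d.Q.L d.T := spl_of d h (fun h2 => by rw [hv] at h2; omega) (fun _ => hη) (fun h2 => by rw [hv] at h2; omega)
        (fun h2 => by rw [hv] at h2; omega)
      have hu := u2_zero (div_ne_zero (s_ne d hs) (pow_ne_zero _ z_emb_la)) (hS hs1) hN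
      have hr' : (s / emb la ^ 2) ^ 2 = emb (-CU.om ^ d.i * d.Ds) := by
        rw [hr, hη]
        congr 1
        ring
      obtain ⟨h1, h2⟩ := V_4e2 d.L hep hq hR A hA d.i d.hi d.hDs d.hk hr' hgal hm hN
      refine lt_of_le_of_ne h1 fun h3 => ?_
      have h4 := h2.1 h3
      rw [hu, zero_div] at h4
      exact v_zero A h4
  obtain ⟨h4, h5⟩ := z_vs d A hA hs ht
  rw [map_div₀, map_mul]
  exact conv_lt (a := 3) (b := 10) (c := 2) (CUL.v2_wla A) h4 h5 (by norm_num) (by rw [hv]) key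

/-- `v = 3`, `i = 0` -/
theorem zs_3a (d : DatW D) (h : Spl d.Q.L d.T ∨ ¬ ClLW d) (hG : ¬ JG.GoodL D) (hv : d.v = 3) (hi : d.i = 0) (A : ValuationSubring ℂ)
    (hA : A.valuation 3 < 1) {s t : ℂ} (hs : s ^ 2 = emb D) (ht : t ^ 3 = emb (4 * D)) :
    A.valuation (V2 d.L * s / t) < A.valuation (emb la) ^ 2 := by
  have hep := z_ep1 d (by rw [hv])
  obtain ⟨R, hR⟩ := exists_R d.L
  obtain ⟨hU, hS⟩ := n_odd d hep hR
  obtain ⟨η, hη, hη'⟩ := z_etaInt d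
  obtain ⟨hgal, u₁, u₂, hN⟩ := z_pack d hs (c := emb la ^ 1) (r := s / emb la ^ 1) (z_la_mem 1) (pow_ne_zero _ z_emb_la) (mul_div_cancel₀ _ (pow_ne_zero _ z_emb_la)).symm hU
  have hr : (s / emb la ^ 1) ^ 2 = emb (d.η * CU.om ^ d.i * la * d.Ds) := by
    rw [div_pow, hs, z_embD d, hv, div_eq_iff (pow_ne_zero _ (pow_ne_zero _ z_emb_la)), map_mul, map_mul, map_mul, map_pow]
    ring
  have hr0 : (s / emb la ^ 1) ^ 2 = emb ((η : Eis) * la * d.Ds) := by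
    rw [hr, hη', hi, pow_zero, mul_one]
  have hk2 := k_ne d hG hv hi
  have hs1 : Spl d.Q.L d.T := spl_of d h (fun h2 => by rw [hv] at h2; omega) (fun h2 => by rw [hv] at h2; omega) (fun _ _ => hk2)
    (fun _ h2 => absurd hi h2)
  have hu := u2_zero (div_ne_zero (s_ne d hs) (pow_ne_zero _ z_emb_la)) (hS hs1) hN
  obtain ⟨h1, h2⟩ := V_2o d.L hep hη (z_q1 d hep hη') hk2 hR A hA d.hDs d.hk hr0 hgal hN
  have key : A.valuation (V2 d.L) ^ 2 < A.valuation (emb la) ^ 3 := by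
    refine lt_of_le_of_ne h1 fun h3 => ?_
    have h4 := h2.1 h3
    rw [hu] at h4
    exact v_zero A h4
  obtain ⟨h4, h5⟩ := z_vs d A hA hs ht
  rw [map_div₀, map_mul]
  exact conv_lt (a := 2) (b := 3) (c := 3) (CUL.v2_wla A) h4 h5 (by norm_num) (by rw [hv]) key

/-- `v = 3`, `i ≠ 0` -/
theorem zs_3b (d : DatW D) (h : Spl d.Q.L d.T ∨ ¬ ClLW d) (hv : d.v = 3) (hi : d.i ≠ 0) (A : ValuationSubring ℂ)
    (hA : A.valuation 3 < 1) {s t : ℂ} (hs : s ^ 2 = emb D) (ht : t ^ 3 = emb (4 * D)) :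
    A.valuation (V3 d.L d.i * s / t) < A.valuation (emb la) ^ 3 := by
  have hep := z_ep1 d (by rw [hv])
  obtain ⟨R, hR⟩ := exists_R d.L
  obtain ⟨hU, hS⟩ := n_odd d hep hR
  obtain ⟨η, hη, hη'⟩ := z_etaInt d
  have hi12 : d.i = 1 ∨ d.i = 2 := by
    have := d.hi
    omega
  obtain ⟨hgal, u₁, u₂, hN⟩ := z_pack d hs (c := emb la ^ 1) (r := s / emb la ^ 1) (z_la_mem 1) (pow_ne_zero _ z_emb_la) (mul_div_cancel₀ _ (pow_ne_zero _ z_emb_la)).symm hU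
  have hr : (s / emb la ^ 1) ^ 2 = emb (d.η * CU.om ^ d.i * la * d.Ds) := by
    rw [div_pow, hs, z_embD d, hv, div_eq_iff (pow_ne_zero _ (pow_ne_zero _ z_emb_la)), map_mul, map_mul, map_mul, map_pow]
    ring
  have hr0 : (s / emb la ^ 1) ^ 2 = emb ((η : Eis) * CU.om ^ d.i * la * d.Ds) := by
    rw [hr, hη']
  have key : A.valuation (V3 d.L d.i) ^ 2 < A.valuation (emb la) ^ 5 := by
    by_cases hi3 : (d.i : ZMod 3) = -(η : ZMod 3)
    · exact VS_3o d.L hep hη (z_q1 d hep hη') hR A hA hi12 hi3 d.hDs hr0 hN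
    · have hs1 : Spl d.Q.L d.T := by
        refine spl_of d h (fun h2 => by rw [hv] at h2; omega) (fun h2 => by rw [hv] at h2; omega) (fun _ h2 => absurd h2 hi)
          (fun _ _ => ⟨fun h8 h9 => hi3 ?_, fun h8 h9 => hi3 ?_⟩)
        · have h10 : η = 1 := by
            apply z_int
            rw [← hη', h8]
            rfl
          rw [h9, h10]
          simp
        · have h10 : η = -1 := by
            apply z_int
            rw [← hη', h8]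
            rfl
          rw [h9, h10]
          simp
      have hu := u2_zero (div_ne_zero (s_ne d hs) (pow_ne_zero _ z_emb_la)) (hS hs1) hN
      obtain ⟨h1, h2⟩ := V_3o d.L hep hη (z_q1 d hep hη') hR A hA hi12 hi3 d.hDs d.hk hr0 hgal hN
      refine lt_of_le_of_ne h1 fun h3 => ?_
      have h4 := h2.1 h3
      rw [hu] at h4
      exact v_zero A h4
  obtain ⟨h4, h5⟩ := z_vs d A hA hs ht
  rw [map_div₀, map_mul]
  exact conv_lt (a := 2) (b := 5) (c := 3) (CUL.v2_wla A) h4 h5 (by norm_num) (by rw [hv]) key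

/-- `v = 5` -/
theorem zs_5 (d : DatW D) (h : Spl d.Q.L d.T ∨ ¬ ClLW d) (hv : d.v = 5) (A : ValuationSubring ℂ)
    (hA : A.valuation 3 < 1) {s t : ℂ} (hs : s ^ 2 = emb D) (ht : t ^ 3 = emb (4 * D)) :
    A.valuation (V4 d.L 1 d.i * s / t) < A.valuation (emb la) ^ 4 := by
  have hep := z_ep1 d (by rw [hv])
  obtain ⟨R, hR⟩ := exists_R d.L
  obtain ⟨hU, hS⟩ := n_odd d hep hR
  obtain ⟨η, hη, hη'⟩ := z_etaInt d
  obtain ⟨hgal, u₁, u₂, hN⟩ := z_pack d hs (c := emb la ^ 2) (r := s / emb la ^ 2) (z_la_mem 2) (pow_ne_zero _ z_emb_la) (mul_div_cancel₀ _ (pow_ne_zero _ z_emb_la)).symm hU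
  have hr : (s / emb la ^ 2) ^ 2 = emb (d.η * CU.om ^ d.i * la * d.Ds) := by
    rw [div_pow, hs, z_embD d, hv, div_eq_iff (pow_ne_zero _ (pow_ne_zero _ z_emb_la)), map_mul, map_mul, map_mul, map_pow]
    ring
  have hr0 : (s / emb la ^ 2) ^ 2 = emb ((η : Eis) * CU.om ^ d.i * la * d.Ds) := by
    rw [hr, hη']
  have hs1 : Spl d.Q.L d.T := spl_of d h (fun h2 => by rw [hv] at h2; omega) (fun h2 => by rw [hv] at h2; omega)
    (fun h2 => by rw [hv] at h2; omega) (fun h2 => by rw [hv] at h2; omega)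
  have hu := u2_zero (div_ne_zero (s_ne d hs) (pow_ne_zero _ z_emb_la)) (hS hs1) hN
  obtain ⟨h1, h2⟩ := V_4o1 d.L hep hη (z_q1 d hep hη') hR A hA d.i d.hi d.hDs d.hk hr0 hgal hN
  have key : A.valuation (V4 d.L 1 d.i) ^ 6 < A.valuation (emb la) ^ 19 := by
    refine lt_of_le_of_ne h1 fun h3 => ?_
    have h4 := h2.1 h3
    rw [hu] at h4
    exact v_zero A h4
  obtain ⟨h4, h5⟩ := z_vs d A hA hs ht
  rw [map_div₀, map_mul]
  exact conv_lt (a := 6) (b := 19) (c := 1) (CUL.v2_wla A) h4 h5 (by norm_num) (by rw [hv]) key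

/-- `v = 1` -/
theorem zs_1 (d : DatW D) (h : Spl d.Q.L d.T ∨ ¬ ClLW d) (hv : d.v = 1) (A : ValuationSubring ℂ)
    (hA : A.valuation 3 < 1) {s t : ℂ} (hs : s ^ 2 = emb D) (ht : t ^ 3 = emb (4 * D)) :
    A.valuation (V4 d.L 2 d.i * s / t) < A.valuation (emb la) ^ 4 := by
  have hep := z_ep1 d (by rw [hv])
  obtain ⟨R, hR⟩ := exists_R d.L
  obtain ⟨hU, hS⟩ := n_odd d hep hR
  obtain ⟨η, hη, hη'⟩ := z_etaInt d
  obtain ⟨hgal, u₁, u₂, hN⟩ := z_pack d hs (c := emb la ^ 0) (r := s / emb la ^ 0) (z_la_mem 0) (pow_ne_zero _ z_emb_la) (mul_div_cancel₀ _ (pow_ne_zero _ z_emb_la)).symm hU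
  have hr : (s / emb la ^ 0) ^ 2 = emb (d.η * CU.om ^ d.i * la * d.Ds) := by
    rw [div_pow, hs, z_embD d, hv, div_eq_iff (pow_ne_zero _ (pow_ne_zero _ z_emb_la)), map_mul, map_mul, map_mul, map_pow]
    ring
  have hr0 : (s / emb la ^ 0) ^ 2 = emb ((η : Eis) * CU.om ^ d.i * la * d.Ds) := by
    rw [hr, hη']
  have hs1 : Spl d.Q.L d.T := spl_of d h (fun h2 => by rw [hv] at h2; omega) (fun h2 => by rw [hv] at h2; omega)
    (fun h2 => by rw [hv] at h2; omega) (fun h2 => by rw [hv] at h2; omega)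
  have hu := u2_zero (div_ne_zero (s_ne d hs) (pow_ne_zero _ z_emb_la)) (hS hs1) hN
  obtain ⟨h1, h2⟩ := V_4o2 d.L hep hη (z_q1 d hep hη') hR A hA d.i d.hi d.hDs d.hk hr0 hgal hN
  have key : A.valuation (V4 d.L 2 d.i) ^ 6 < A.valuation (emb la) ^ 23 := by
    refine lt_of_le_of_ne h1 fun h3 => ?_
    have h4 := h2.1 h3
    rw [hu] at h4
    exact h4 (ln_zero A _ _)
  obtain ⟨h4, h5⟩ := z_vs d A hA hs ht
  rw [map_div₀, map_mul]
  exact conv_lt (a := 6) (b := 23) (c := 1) (CUL.v2_wla A) h4 h5 (by norm_num) (by rw [hv]) key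

end JGS
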