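import Pool.Agent.JGS.Z1
import Pool.Agent.JGS.H

/-!
# [JGS-Z2] the central value: `JGL.lval_bad`, `JGL.lval_good` with strict inequality
-/

set_option autoImplicit false

open NumberField IsDedekindDomain Filter Topology
open scoped Classical ComplexConjugate

namespace JGS

open CM27 JZ JGL
open CU (la eE)
open CUL (Nl ez si ta DS Cont LV IsRep rp cr mn mo zw OT GalU W3 W9)
open JL (N1 KD sD Psi6)

variable {D : Eis}

theorem val_allS (d : DatW D) (h : Spl d.Q.L d.T ∨ ¬ ClLW d) (hG : ¬ JG.GoodL D) (A : ValuationSubring ℂ) (hA : A.valuation 3 < 1)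
    {s t : ℂ} (hs : s ^ 2 = emb D) (ht : t ^ 3 = emb (4 * D)) :
    A.valuation (VV d.L (-(d.v : ZMod 3)) d.i * s / t) < A.valuation (emb la) ^ nn (-(d.v : ZMod 3)) d.i := by
  have hv6 := d.hv
  have hi3 := d.hi
  have hi0 : (d.i : ZMod 3) = 0 ↔ d.i = 0 := by
    rcases (by omega : d.i = 0 ∨ d.i = 1 ∨ d.i = 2) with h1 | h1 | h1
    · rw [h1]; simp
    · rw [h1]; exact iff_of_false (by decide) (by decide)
    · rw [h1]; exact iff_of_false (by decide) (by decide)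
  rcases (by omega : d.v = 0 ∨ d.v = 1 ∨ d.v = 2 ∨ d.v = 3 ∨ d.v = 4 ∨ d.v = 5) with hv | hv | hv | hv | hv | hv
  · have ha : -(d.v : ZMod 3) = 0 := by rw [hv]; decide
    unfold VV nn
    rw [if_pos ha, if_pos ha]
    by_cases hi : d.i = 0
    · rw [if_pos (hi0.2 hi), if_pos (hi0.2 hi)]
      exact zs_0a d h hv hi A hA hs ht
    · rw [if_neg (fun h1 => hi (hi0.1 h1)), if_neg (fun h1 => hi (hi0.1 h1))]
      exact zs_0b d h hv hi A hA hs ht
  · have ha : -(d.v : ZMod 3) = 2 := by rw [hv]; decide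
    unfold VV nn
    rw [ha, if_neg (by decide), if_neg (by decide)]
    exact zs_1 d h hv A hA hs ht
  · have ha : -(d.v : ZMod 3) = 1 := by rw [hv]; decide
    unfold VV nn
    rw [ha, if_neg (by decide), if_neg (by decide)]
    exact zs_2 d h hv A hA hs ht
  · have ha : -(d.v : ZMod 3) = 0 := by rw [hv]; decide
    unfold VV nn
    rw [if_pos ha, if_pos ha]
    by_cases hi : d.i = 0
    · rw [if_pos (hi0.2 hi), if_pos (hi0.2 hi)]
      exact zs_3a d h hG hv hi A hA hs ht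
    · rw [if_neg (fun h1 => hi (hi0.1 h1)), if_neg (fun h1 => hi (hi0.1 h1))]
      exact zs_3b d h hv hi A hA hs ht
  · have ha : -(d.v : ZMod 3) = 2 := by rw [hv]; decide
    unfold VV nn
    rw [ha, if_neg (by decide), if_neg (by decide)]
    exact zs_4 d h hv A hA hs ht
  · have ha : -(d.v : ZMod 3) = 1 := by rw [hv]; decide
    unfold VV nn
    rw [ha, if_neg (by decide), if_neg (by decide)]
    exact zs_5 d h hv A hA hs ht

theorem lvalS_bad (d : DatW D) (h : Spl d.Q.L d.T ∨ ¬ ClLW d) (hG : ¬ JG.GoodL D) : LValS D := by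
  obtain ⟨Φ, h1, h2, h3⟩ := L_entireD d hG
  refine ⟨d.p₂, d.pl, d.val₂, d.vall, Φ, h1, h2, ?_⟩
  obtain ⟨u, hu, hLV⟩ := LV_eq d.L (-(d.v : ZMod 3)) d.i
  obtain ⟨A, hA⟩ := CUL.exists_A
  obtain ⟨s, hs⟩ : ∃ s : ℂ, s ^ 2 = emb D := IsAlgClosed.exists_pow_nat_eq _ (by norm_num)
  obtain ⟨t, ht⟩ : ∃ t : ℂ, t ^ 3 = emb (4 * D) := IsAlgClosed.exists_pow_nat_eq _ (by norm_num)
  obtain ⟨n, hn⟩ : ∃ n, n = nn (-(d.v : ZMod 3)) d.i := ⟨_, rfl⟩
  obtain ⟨V, hV⟩ : ∃ V, V = VV d.L (-(d.v : ZMod 3)) d.i := ⟨_, rfl⟩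
  have hval := val_allS d h hG A hA hs ht
  have hD0 : emb D ≠ 0 := CUL.l2_emb_ne (z_D_ne d)
  have hD4 : emb (4 * D) ≠ 0 := by
    rw [map_mul, map_ofNat]
    exact mul_ne_zero (by norm_num) hD0
  have ht0 : t ≠ 0 := by
    rintro rfl
    rw [zero_pow three_ne_zero] at ht
    exact hD4 ht.symm
  obtain ⟨κ, hκ1, hκ2, hκ3⟩ := z_s d hs
  have hb : V * s / t ∈ CF.KK := by
    rw [hV]
    exact b_mem d.L _ _ ht0 (z_hgal d hκ1 hκ3) (d.gal t ht)
  rw [← hV, ← hn] at hval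
  rw [← hn, ← hV] at hLV
  have hf3 : ¬ 3 ∣ d.L.f.norm.natAbs := by
    intro h5
    exact CUL.x2_norm (CUL.primary_not_la d.L.hf) (Int.natCast_dvd.2 h5)
  have hfpos : 0 < d.L.f.norm := CM27.a1_norm_pos (f_ne d.L)
  have hf0 : d.L.f.norm.natAbs ≠ 0 := Int.natAbs_ne_zero.2 hfpos.ne'
  obtain ⟨hk3, hk0⟩ := z2_kap (D := D) hG
  have hNR : (0 : ℝ) < ‖emb D‖ := norm_pos_iff.2 hD0
  have hM : ((d.L.f.norm.natAbs : ℕ) : ℝ) = ‖emb d.L.f‖ ^ 2 := by
    rw [norm_emb_sq, Nat.cast_natAbs, Int.cast_abs, abs_of_pos (by exact_mod_cast hfpos)]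
  have hMpos : (0 : ℝ) < ((d.L.f.norm.natAbs : ℕ) : ℝ) := by
    exact_mod_cast Nat.pos_of_ne_zero hf0
  have hkpos : (0 : ℝ) < ((JG.kap D : ℕ) : ℝ) := by
    exact_mod_cast Nat.pos_of_ne_zero hk0
  have e4 : ‖emb (4 * D)‖ = 4 * ‖emb D‖ := by
    rw [map_mul, norm_mul, map_ofNat]
    norm_num
  have hL2 : ‖emb la‖ ^ 2 = 3 := by
    rw [norm_emb_sq, CUL.g6_norm_la]
    norm_num
  have hnorm := z2_norm (u := u) hu (s := s) (t := t) (V := V) (L := emb la) (f := emb d.L.f) ht0 hNR hMpos (n := n)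
    (by rw [← norm_pow, hs]) (by rw [← norm_pow, ht, e4]) hL2 hM.symm OmC hkpos
  have hcon : Φ 1 * conj (Φ 1) = ((‖Φ 1‖ ^ 2 : ℝ) : ℂ) := by
    rw [Complex.mul_conj, Complex.normSq_eq_norm_sq]
  have hla : A.valuation (emb la) ^ 2 = A.valuation 3 := by
    exact CUL.w_la A hA
  have h30 : A.valuation (3 : ℂ) ≠ 0 := (map_ne_zero _).2 three_ne_zero
  have h3pos : 0 < A.valuation (3 : ℂ) := zero_lt_iff.2 h30
  by_cases hb0 : V * s / t = 0
  · refine ⟨0, ?_, Or.inl rfl⟩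
    rw [hcon, h3, hLV, hnorm, hb0]
    simp
  · obtain ⟨x, hx, hxx, hxv⟩ := CUL.val_KK A hA hb hb0
    have hx2 : ‖V * s / t‖ ^ 2 = (x : ℝ) := by
      rw [Complex.mul_conj, Complex.normSq_eq_norm_sq] at hxx
      exact_mod_cast hxx
    have hpv := z2_padic (n := n) hf3 hk3 hf0 hk0 hx.ne'
    have hsq : A.valuation (V * s / t) ^ 2 = A.valuation 3 ^ (padicValRat 3 x) := hxv
    have hln : (A.valuation (emb la) ^ n) ^ 2 = A.valuation 3 ^ (n : ℤ) := by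
      rw [← pow_mul, mul_comm, pow_mul, hla, zpow_natCast]
    refine ⟨4 * x / (3 ^ n * d.L.f.norm.natAbs * JG.kap D), ?_, Or.inr ?_⟩
    · rw [hcon, h3, hLV, hnorm, hx2, CUL.z_norm_OmC, e4]
      push_cast
      ring
    · rw [hpv]
      by_contra hlt
      rw [not_lt] at hlt
      have h5 : A.valuation (3 : ℂ) ^ padicValRat 3 x < A.valuation (3 : ℂ) ^ (n : ℤ) := by
        rw [← hsq, ← hln]
        exact pow_lt_pow_left₀ hval zero_le two_ne_zero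
      have h6 := zpow_le_zpow_right_of_le_one₀ h3pos hA.le (by omega : padicValRat 3 x ≤ (n : ℤ))
      exact absurd h5 (not_lt.2 h6)

/-- the valuation of `V1 √D / (4 D)^(1/3)` -/
theorem gl_valS (d : DatW D) (h : JG.GoodL D) (hs1 : Spl d.Q.L d.T) (A : ValuationSubring ℂ) (hA : A.valuation 3 < 1)
    {s t : ℂ} (hs : s ^ 2 = emb D) (ht : t ^ 3 = emb (4 * D)) :
    A.valuation (V1 d.L * s / t) < A.valuation (emb la) ^ 3 := by
  obtain ⟨hv, hi, hk⟩ := gl_data d h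
  have hep := z_ep1 d (by rw [hv])
  obtain ⟨R, hR⟩ := exists_R d.L
  obtain ⟨hU, hS⟩ := n_odd d hep hR
  obtain ⟨η, hη, hη'⟩ := z_etaInt d
  obtain ⟨hgal, u₁, u₂, hN⟩ := z_pack d hs (c := emb la ^ 1) (r := s / emb la ^ 1) (z_la_mem 1) (pow_ne_zero _ z_emb_la) (mul_div_cancel₀ _ (pow_ne_zero _ z_emb_la)).symm hU
  have hr : (s / emb la ^ 1) ^ 2 = emb (d.η * CU.om ^ d.i * la * d.Ds) := by
    rw [div_pow, hs, z_embD d, hv, div_eq_iff (pow_ne_zero _ (pow_ne_zero _ z_emb_la)), map_mul, map_mul, map_mul, map_pow]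
    ring
  have hr0 : (s / emb la ^ 1) ^ 2 = emb ((η : Eis) * la * d.Ds) := by
    rw [hr, hη', hi, pow_zero, mul_one]
  have hu := u2_zero (div_ne_zero (s_ne d hs) (pow_ne_zero _ z_emb_la)) (hS hs1) hN
  obtain ⟨h1, h2⟩ := T_2o d.L hep hη (z_q1 d hep hη') hR A hA d.hDs hr0 hgal hN
  have h1' : A.valuation (emb la * To d.L R) ^ 2 < A.valuation (emb la) := by
    refine lt_of_le_of_ne h1 fun h3 => ?_
    have h4 := h2.1 h3
    rw [hu] at h4
    exact v_zero A h4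
  have hl0 := CUL.v2_wla A
  have hV := gl_val1 d.L hep hk hR A hA
  have hV2 : A.valuation (V1 d.L) ^ 2 = A.valuation (emb la) ^ 4 * A.valuation (emb la * To d.L R) ^ 2 := by
    rw [hV, mul_pow, ← pow_mul]
  have hpos : 0 < A.valuation (emb la) ^ 4 := zero_lt_iff.2 (pow_ne_zero _ hl0)
  have h5' : A.valuation (emb la) ^ 5 = A.valuation (emb la) ^ 4 * A.valuation (emb la) := pow_succ _ 4
  have g1 : A.valuation (V1 d.L) ^ 2 < A.valuation (emb la) ^ 5 := by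
    rw [hV2, h5']
    exact mul_lt_mul_of_pos_left h1' hpos
  obtain ⟨h4, h5⟩ := z_vs d A hA hs ht
  rw [map_div₀, map_mul]
  exact conv_lt (a := 2) (b := 5) (c := 3) (CUL.v2_wla A) h4 h5 (by norm_num) (by rw [hv]) g1

theorem lvalS_good (d : DatW D) (h : JG.GoodL D) (hs1 : Spl d.Q.L d.T) : LValS D := by
  obtain ⟨Φ, h1, h2, u, hu, h3⟩ := gl_entire d h
  obtain ⟨hv, hi, hk⟩ := gl_data d h
  refine ⟨d.p₂, d.pl, d.val₂, d.vall, Φ, h1, h2, ?_⟩
  obtain ⟨A, hA⟩ := CUL.exists_A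
  obtain ⟨s, hs⟩ : ∃ s : ℂ, s ^ 2 = emb D := IsAlgClosed.exists_pow_nat_eq _ (by norm_num)
  obtain ⟨t, ht⟩ : ∃ t : ℂ, t ^ 3 = emb (4 * D) := IsAlgClosed.exists_pow_nat_eq _ (by norm_num)
  obtain ⟨V, hV⟩ : ∃ V, V = V1 d.L := ⟨_, rfl⟩
  have hval := gl_valS d h hs1 A hA hs ht
  have hD0 : emb D ≠ 0 := CUL.l2_emb_ne (z_D_ne d)
  have hD4 : emb (4 * D) ≠ 0 := by
    rw [map_mul, map_ofNat]
    exact mul_ne_zero (by norm_num) hD0
  have ht0 : t ≠ 0 := by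
    rintro rfl
    rw [zero_pow three_ne_zero] at ht
    exact hD4 ht.symm
  obtain ⟨κ, hκ1, hκ2, hκ3⟩ := z_s d hs
  have hgt : GalT d.L 0 0 t := by
    have h5 := d.gal t ht
    have h6 : -((d.v : ℕ) : ZMod 3) = 0 := by rw [hv]; decide
    rw [h6, hi, Nat.cast_zero] at h5
    exact h5
  have hb : V * s / t ∈ CF.KK := by
    rw [hV]
    exact gl_mem d.L ht0 (z_hgal d hκ1 hκ3) hgt
  rw [← hV] at hval h3
  have hf3 : ¬ 3 ∣ d.L.f.norm.natAbs := by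
    intro h5
    exact CUL.x2_norm (CUL.primary_not_la d.L.hf) (Int.natCast_dvd.2 h5)
  have hfpos : 0 < d.L.f.norm := CM27.a1_norm_pos (f_ne d.L)
  have hf0 : d.L.f.norm.natAbs ≠ 0 := Int.natAbs_ne_zero.2 hfpos.ne'
  obtain ⟨k₂, hkap, hk3, hk0⟩ := gl_kap h
  have hNR : (0 : ℝ) < ‖emb D‖ := norm_pos_iff.2 hD0
  have hM : ((d.L.f.norm.natAbs : ℕ) : ℝ) = ‖emb d.L.f‖ ^ 2 := by
    rw [norm_emb_sq, Nat.cast_natAbs, Int.cast_abs, abs_of_pos (by exact_mod_cast hfpos)]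
  have hMpos : (0 : ℝ) < ((d.L.f.norm.natAbs : ℕ) : ℝ) := by
    exact_mod_cast Nat.pos_of_ne_zero hf0
  have hkpos : (0 : ℝ) < ((JG.kap D : ℕ) : ℝ) := by
    rw [hkap]
    have : 0 < 3 * k₂ := by omega
    exact_mod_cast this
  have e4 : ‖emb (4 * D)‖ = 4 * ‖emb D‖ := by
    rw [map_mul, norm_mul, map_ofNat]
    norm_num
  have hL2 : ‖emb la‖ ^ 2 = 3 := by
    rw [norm_emb_sq, CUL.g6_norm_la]
    norm_num
  have hM36 : ‖6 * emb d.L.f‖ ^ 2 = 36 * ((d.L.f.norm.natAbs : ℕ) : ℝ) := by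
    rw [norm_mul, mul_pow, hM]
    norm_num
  have hnorm := z2_norm (u := u) hu (s := s) (t := t) (V := V) (L := emb la) (f := 6 * emb d.L.f) ht0 hNR
    (M := 36 * ((d.L.f.norm.natAbs : ℕ) : ℝ)) (by positivity) (n := 0)
    (by rw [← norm_pow, hs]) (by rw [← norm_pow, ht, e4]) hL2 hM36 OmC hkpos
  rw [pow_zero, pow_zero, one_mul, one_mul] at hnorm
  have hcon : Φ 1 * conj (Φ 1) = ((‖Φ 1‖ ^ 2 : ℝ) : ℂ) := by
    rw [Complex.mul_conj, Complex.normSq_eq_norm_sq]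
  have hla : A.valuation (emb la) ^ 2 = A.valuation 3 := by
    exact CUL.w_la A hA
  have h30 : A.valuation (3 : ℂ) ≠ 0 := (map_ne_zero _).2 three_ne_zero
  have h3pos : 0 < A.valuation (3 : ℂ) := zero_lt_iff.2 h30
  by_cases hb0 : V * s / t = 0
  · refine ⟨0, ?_, Or.inl rfl⟩
    rw [hcon, h3, hnorm, hb0]
    simp
  · obtain ⟨x, hx, hxx, hxv⟩ := CUL.val_KK A hA hb hb0
    have hx2 : ‖V * s / t‖ ^ 2 = (x : ℝ) := by
      rw [Complex.mul_conj, Complex.normSq_eq_norm_sq] at hxx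
      exact_mod_cast hxx
    have hpv := gl_padic hf3 hk3 hf0 hk0 hx.ne'
    have hsq : A.valuation (V * s / t) ^ 2 = A.valuation 3 ^ (padicValRat 3 x) := hxv
    have hln : (A.valuation (emb la) ^ 3) ^ 2 = A.valuation 3 ^ (3 : ℤ) := by
      rw [← pow_mul, mul_comm, pow_mul, hla]
      exact (zpow_natCast (A.valuation 3) 3).symm
    refine ⟨4 * x / (36 * d.L.f.norm.natAbs * (3 * k₂)), ?_, Or.inr ?_⟩
    · rw [hcon, h3, hnorm, hx2, CUL.z_norm_OmC, e4, hkap]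
      push_cast
      ring
    · rw [hpv]
      by_contra hlt
      rw [not_lt] at hlt
      have h5 : A.valuation (3 : ℂ) ^ padicValRat 3 x < A.valuation (3 : ℂ) ^ (3 : ℤ) := by
        rw [← hsq, ← hln]
        exact pow_lt_pow_left₀ hval zero_le two_ne_zero
      have h6 := zpow_le_zpow_right_of_le_one₀ h3pos hA.le (by omega : padicValRat 3 x ≤ (3 : ℤ))
      exact absurd h5 (not_lt.2 h6)

end JGS
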